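import Pool.Agent.Lib.Sharp.Iface
import Mathlib.SetTheory.Cardinal.Aleph
import Mathlib.SetTheory.Cardinal.Regular

/-!
Consequences of covering: capture of the ordinals below `κ⁺` and `2 ^ κ ≤ κ⁺`.
-/

namespace Pool.Agent.Lib.Sharp

open Cardinal Set Tm Pool.Agent.Work.MP_667be6_lc

theorem Card_cofinal (η : Ordinal.{0}) : ∃ Y : Set Ordinal.{0}, Y ⊆ Iio η ∧
    #Y = Cardinal.lift.{1} η.cof ∧ ∀ x < η, ∃ y ∈ Y, x ≤ y := by
  obtain ⟨s, hs, hc⟩ := Order.exists_cof_eq (Iio η)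
  refine ⟨Subtype.val '' s, ?_, ?_, fun x hx => ?_⟩
  · rintro _ ⟨y, -, rfl⟩
    exact y.2
  · rw [mk_image_eq Subtype.val_injective, hc, Ordinal.cof_Iio, Ordinal.lift_cof]
  · obtain ⟨y, hy, hxy⟩ := hs ⟨x, hx⟩
    exact ⟨y, ⟨y, hy, rfl⟩, hxy⟩

theorem Card_bdd {Y : Set Ordinal.{0}} {κ : Cardinal.{0}} (h : #Y ≤ Cardinal.lift.{1} κ) :
    ∃ θ, Y ⊆ Iio θ := by
  have h1 : Nonempty (Y ↪ κ.out) := by
    rw [← Cardinal.lift_mk_le', mk_out, Cardinal.lift_uzero]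
    exact h
  obtain ⟨f⟩ := h1
  have : Small.{0} Y := small_of_injective f.injective
  obtain ⟨θ, hθ⟩ := Ordinal.bddAbove_of_small (s := Y)
  exact ⟨θ + 1, fun y hy => (hθ hy).trans_lt (lt_add_one θ)⟩

theorem Card_biUnion_le {α β : Type 1} {I : Set α} {F : α → Set β} {c : Cardinal.{1}}
    (hc : ℵ₀ ≤ c) (hI : #I ≤ c) (hF : ∀ i ∈ I, #(F i) ≤ c) : #(⋃ i ∈ I, F i) ≤ c :=
  (mk_biUnion_le F I).trans ((mul_le_mul' hI (ciSup_le' fun i : I => hF i.1 i.2)).trans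
    (mul_eq_self hc).le)

theorem Card_uncountable {κ : Cardinal.{0}} (hκ : ℵ₀ ≤ κ) (hs : κ.ord.cof < κ) : ℵ₀ < κ :=
  (Ordinal.aleph0_le_cof_iff.2 (Ordinal.one_lt_cof_iff.2 (isSuccLimit_ord hκ))).trans_lt hs

theorem capt_of_cov {κ : Cardinal.{0}} (hκ : ℵ₀ ≤ κ) (hs : κ.ord.cof < κ) (h : Cov κ) :
    Capt κ := by
  classical
  have hκ' : ℵ₀ < Cardinal.lift.{1} κ := by
    rw [← lift_aleph0.{1, 0}, lift_lt]
    exact Card_uncountable hκ hs
  intro η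
  induction η using WellFoundedLT.induction with
  | ind η ih =>
  intro hη
  obtain ⟨Y, hY, hc, hcof⟩ := Card_cofinal η
  have hc' : #Y < Cardinal.lift.{1} κ := by
    rw [hc, lift_lt]
    refine lt_of_le_of_ne ((Ordinal.cof_le_card η).trans (Order.lt_succ_iff.1 (lt_ord.1 hη))) ?_
    intro e
    rw [← e, Ordinal.cof_ord_cof] at hs
    exact lt_irrefl _ hs
  have : Nonempty T := ⟨first 0⟩
  choose! s p hsw hsp using fun y (hy : y ∈ Y) => ih y (hY hy) ((hY hy).trans hη)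
  have hZ : #(Y ∪ ⋃ y ∈ Y, (p y : Set Ordinal.{0}) : Set Ordinal.{0}) < Cardinal.lift.{1} κ := by
    refine (mk_union_le _ _).trans_lt (add_lt_of_lt hκ'.le hc' ?_)
    refine (Card_biUnion_le (le_max_right #Y ℵ₀) (le_max_left _ _) fun y _ => ?_).trans_lt
      (max_lt hc' hκ')
    exact mk_le_aleph0.trans (le_max_right _ _)
  obtain ⟨θ, hθ⟩ := Card_bdd hZ.le
  obtain ⟨ν, hν, t, q, -, hq⟩ := h θ _ hθ hZ
  obtain ⟨b, hb⟩ := Card_bdd (Y := insert t.lev ((fun y => (s y).lev) '' Y)) (κ := κ) (by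
    refine mk_insert_le.trans (add_lt_of_lt hκ'.le (mk_image_le.trans_lt hc') ?_).le
    exact one_lt_aleph0.trans hκ')
  have hq' : (Y ∪ ⋃ y ∈ Y, (p y : Set Ordinal.{0})) ⊆ hull (first b) (Iio κ.ord ∪ q) :=
    hq.trans (hull_mono (lt_of_lev_lt (by simpa using hb (mem_insert _ _))).le
      (union_subset_union_left _ (Iio_subset_Iio hν.le)))
  refine ⟨first b, q, first_wf b, fun x hx => ?_⟩
  obtain ⟨y, hy, hxy⟩ := hcof x hx
  rcases hxy.eq_or_lt with rfl | hxy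
  · exact hq' (Or.inl hy)
  · refine hull_subset_hull (lt_of_lev_lt ?_).le (union_subset ?_ ?_) (hsp y hy hxy)
    · simpa using hb (mem_insert_of_mem _ ⟨y, hy, rfl⟩)
    · exact subset_union_left.trans (subset_hull _ _)
    · exact fun z hz => hq' (Or.inr (mem_biUnion hy hz))

theorem Card_finsets_le (A : Set Ordinal.{0}) :
    #{p : Finset Ordinal.{0} | (p : Set Ordinal.{0}) ⊆ A} ≤ max #A ℵ₀ := by
  classical
  have h1 : #{p : Finset Ordinal.{0} | (p : Set Ordinal.{0}) ⊆ A} ≤ #(Finset A) := by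
    refine le_trans (mk_le_mk_of_subset ?_)
      (mk_range_le (f := fun q : Finset A => q.map (Function.Embedding.subtype _)))
    intro p hp
    exact ⟨p.subtype (· ∈ A), Finset.subtype_map_of_mem fun x hx => hp hx⟩
  refine h1.trans ?_
  cases finite_or_infinite A
  · exact mk_le_aleph0.trans (le_max_right _ _)
  · rw [mk_finset_of_infinite]
    exact le_max_left _ _

theorem Card_powerset_le {κ : Cardinal.{0}} (hκ : κ.IsStrongLimit) {A : Set Ordinal.{0}}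
    (hA : #A < Cardinal.lift.{1} κ) : #(𝒫 A) ≤ Cardinal.lift.{1} κ := by
  obtain ⟨a, ha⟩ := Cardinal.mem_range_lift_of_le hA.le
  rw [mk_powerset, ← ha, ← lift_two_power, lift_le]
  rw [← ha, lift_lt] at hA
  exact (hκ.isStrongPrelimit hA).le

theorem Card_mk_Iio (κ : Cardinal.{0}) : #(Iio κ.ord) = Cardinal.lift.{1} κ := by
  rw [mk_Iio_ordinal, card_ord]

theorem Card_mk_Iio_lt {κ : Cardinal.{0}} {x : Ordinal.{0}} (hx : x < κ.ord) :
    #(Iio x) < Cardinal.lift.{1} κ := by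
  rw [mk_Iio_ordinal, lift_lt]
  exact lt_ord.1 hx

/-- small sets of ordinals below `κ` are covered by hulls with data below `κ⁺` -/
theorem Card_cover (hc : HasCond) {κ : Cardinal.{0}} (hκ : ℵ₀ ≤ κ) (h : Cov κ)
    {Y : Set Ordinal.{0}} (hY : Y ⊆ Iio κ.ord) (hYc : #Y < Cardinal.lift.{1} κ) :
    ∃ ν < κ.ord, ∃ s : T, (s.supp : Set Ordinal.{0}) ⊆ Iio (Order.succ κ).ord ∧
      ∃ p : Finset Ordinal.{0}, (p : Set Ordinal.{0}) ⊆ Iio (Order.succ κ).ord ∧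
        Y ⊆ hull s (Iio ν ∪ p) := by
  classical
  have hκ' : ℵ₀ ≤ Cardinal.lift.{1} κ := by
    rw [← lift_aleph0.{1, 0}, lift_le]
    exact hκ
  obtain ⟨ν, hν, s, p, -, hp⟩ := h _ Y hY hYc
  have hH : #(hull s (Iio κ.ord ∪ p)) ≤ Cardinal.lift.{1} κ := by
    refine (card_hull_le' _ _).trans (max_le ((mk_union_le _ _).trans ?_) hκ')
    exact add_le_of_le hκ' (Card_mk_Iio κ).le (mk_le_aleph0.trans hκ')
  obtain ⟨β, hβ⟩ := Card_bdd hH
  obtain ⟨ρ, c, σ, s', hC⟩ := hc s _ β (cl_hull s _) hβ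
  have hρ : ρ < (Order.succ κ).ord := by
    rw [lt_ord, Order.lt_succ_iff, ← lift_le.{1}, hC.card]
    exact hH
  have hK : Iio κ.ord ⊆ hull s (Iio κ.ord ∪ p) := subset_union_left.trans (subset_hull _ _)
  have hA : Iio ν ∪ (p : Set Ordinal.{0}) ⊆ hull s (Iio κ.ord ∪ p) :=
    (union_subset_union_left _ (Iio_subset_Iio hν.le)).trans (subset_hull _ _)
  refine ⟨ν, hν, s', fun x hx => lt_of_le_of_lt (hC.supp_le hx) hρ, p.image c, ?_, fun y hy => ?_⟩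
  · rw [Finset.coe_image]
    rintro _ ⟨x, hx, rfl⟩
    exact (hC.c_lt x (hA (Or.inr hx))).trans hρ
  · have h1 := hC.c_hull (cl_hull s _) hA (hp hy)
    rw [hC.fix _ hK y (hY hy)] at h1
    refine hull_mono le_rfl ?_ h1
    rintro _ ⟨x, hx | hx, rfl⟩
    · rw [hC.fix _ hK x (lt_trans hx hν)]
      exact Or.inl hx
    · exact Or.inr (Finset.mem_coe.2 (Finset.mem_image_of_mem c hx))

theorem Card_small_sets (hc : HasCond) {κ : Cardinal.{0}} (hκ : κ.IsStrongLimit) (hκ' : ℵ₀ < κ)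
    (h : Cov κ) : #{Y : Set Ordinal.{0} | Y ⊆ Iio κ.ord ∧ #Y < Cardinal.lift.{1} κ} ≤
      Cardinal.lift.{1} (Order.succ κ) := by
  have h0 : ℵ₀ < Cardinal.lift.{1} κ := by
    rw [← lift_aleph0.{1, 0}, lift_lt]
    exact hκ'
  have h1 : Cardinal.lift.{1} κ ≤ Cardinal.lift.{1} (Order.succ κ) := lift_le.2 (Order.le_succ κ)
  have h2 := h0.le.trans h1
  have hsub : {Y : Set Ordinal.{0} | Y ⊆ Iio κ.ord ∧ #Y < Cardinal.lift.{1} κ} ⊆
      ⋃ ν ∈ Iio κ.ord, ⋃ s ∈ {s : T | (s.supp : Set Ordinal.{0}) ⊆ Iio (Order.succ κ).ord},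
        ⋃ p ∈ {p : Finset Ordinal.{0} | (p : Set Ordinal.{0}) ⊆ Iio (Order.succ κ).ord},
          𝒫 (hull s (Iio ν ∪ p)) := by
    rintro Y ⟨hY, hYc⟩
    obtain ⟨ν, hν, s, hs, p, hp, hh⟩ := Card_cover hc hκ'.le h hY hYc
    exact mem_biUnion hν (mem_biUnion hs (mem_biUnion hp hh))
  refine (mk_le_mk_of_subset hsub).trans (Card_biUnion_le h2 ((Card_mk_Iio κ).le.trans h1)
    fun ν hν => Card_biUnion_le h2 ((card_terms_le _).trans (max_le (Card_mk_Iio _).le h2))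
      fun s _ => Card_biUnion_le h2 ((Card_finsets_le _).trans (max_le (Card_mk_Iio _).le h2))
        fun p _ => (Card_powerset_le hκ ?_).trans h1)
  refine (card_hull_le' _ _).trans_lt (max_lt ((mk_union_le _ _).trans_lt ?_) h0)
  exact add_lt_of_lt h0.le (Card_mk_Iio_lt hν) (mk_le_aleph0.trans_lt h0)

theorem two_pow_le_of_cov (hc : HasCond) {κ : Cardinal.{0}} (hκ : κ.IsStrongLimit)
    (hs : κ.ord.cof < κ) (h : Cov κ) : 2 ^ κ ≤ Order.succ κ := by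
  classical
  have hκ' := Card_uncountable hκ.aleph0_le hs
  have h0 : ℵ₀ ≤ Cardinal.lift.{1} κ := by
    rw [← lift_aleph0.{1, 0}, lift_le]
    exact hκ'.le
  have hB : #(⋃ x ∈ Iio κ.ord, 𝒫 (Iio x) : Set (Set Ordinal.{0})) ≤ #(Iio κ.ord) := by
    rw [Card_mk_Iio]
    exact Card_biUnion_le h0 (Card_mk_Iio κ).le fun x hx => Card_powerset_le hκ (Card_mk_Iio_lt hx)
  obtain ⟨f⟩ := (Cardinal.le_def _ _).1 hB
  obtain ⟨Y, hY, hYc, hcof⟩ := Card_cofinal κ.ord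
  let g : Set Ordinal.{0} → Y → Ordinal.{0} := fun A y =>
    f ⟨A ∩ Iio y.1, mem_biUnion (hY y.2) inter_subset_right⟩
  have hg : ∀ A A', A ⊆ Iio κ.ord → range (g A) = range (g A') → A ⊆ A' := by
    intro A A' hA e a ha
    obtain ⟨y, hy, hay⟩ := hcof (a + 1) ((isSuccLimit_ord hκ'.le).succ_lt (hA ha))
    obtain ⟨y', hy'⟩ : g A ⟨y, hy⟩ ∈ range (g A') := e ▸ mem_range_self _
    have h1 : A' ∩ Iio y'.1 = A ∩ Iio y := congrArg Subtype.val (f.injective (Subtype.ext hy'))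
    have h2 : a ∈ A' ∩ Iio y'.1 := h1 ▸ ⟨ha, (lt_add_one a).trans_le hay⟩
    exact h2.1
  rw [← lift_le.{1}, lift_two_power, ← Card_mk_Iio, ← mk_powerset]
  refine le_trans ?_ (Card_small_sets hc hκ hκ' h)
  refine mk_le_of_injective (f := fun A => ⟨range (g A.1), ?_, ?_⟩) fun A A' e => ?_
  · rintro _ ⟨y, rfl⟩
    exact (f _).2
  · exact mk_range_le.trans_lt (hYc ▸ lift_lt.2 hs)
  · have e' : range (g A.1) = range (g A'.1) := congrArg Subtype.val e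
    exact Subtype.ext ((hg _ _ A.2 e').antisymm (hg _ _ A'.2 e'.symm))

theorem exists_kappa : ∃ κ : Cardinal.{0}, ℵ₀ < κ ∧ κ.IsStrongLimit ∧ κ.ord.cof < κ ∧
    ¬ CofW κ.ord ∧ κ ^ ℵ₀ ≤ κ := by
  have hl : Order.IsSuccLimit (Ordinal.omega.{0} 1) := isSuccLimit_omega 1
  have hsl : IsStrongLimit (beth (Ordinal.omega.{0} 1)) := isStrongLimit_beth.2 hl.isSuccPrelimit
  have hcof : (beth (Ordinal.omega.{0} 1)).ord.cof = aleph 1 :=
    (Ordinal.cof_map_of_isNormal (isNormal_ord.comp isNormal_beth) hl).trans cof_omega_one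
  have h1 : aleph 1 < beth (Ordinal.omega.{0} 1) :=
    (aleph_le_beth 1).trans_lt (beth_strictMono (Ordinal.one_lt_of_isSuccLimit hl))
  have h0 : ℵ₀ < beth (Ordinal.omega.{0} 1) := aleph0_lt_aleph_one.trans h1
  generalize beth (Ordinal.omega.{0} 1) = κ at hsl hcof h1 h0
  refine ⟨κ, h0, hsl, hcof ▸ h1, ?_, ?_⟩
  · rintro ⟨b, hb, hb'⟩
    have h2 : iSup b < κ.ord := Ordinal.iSup_lt_of_lt_cof
      (by rw [hcof, mk_nat]; exact aleph0_lt_aleph_one) hb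
    obtain ⟨n, hn⟩ := hb' _ h2
    exact absurd (Ordinal.le_iSup b n) (not_le.2 hn)
  · have e : #(ℕ × κ.out) = κ := by
      rw [mk_prod, mk_out, mk_nat, lift_id, lift_id, aleph0_mul_eq h0.le]
    have h2 := mk_subset_mk_lt_cof (α := ℕ × κ.out) (e.symm ▸ hsl.isStrongPrelimit)
    rw [e, hcof] at h2
    have h3 : #(ℕ → κ.out) ≤ #{s : Set (ℕ × κ.out) // #s < aleph 1} := by
      refine mk_le_of_injective (f := fun u => ⟨range fun n => (n, u n), ?_⟩) fun u v e => ?_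
      · exact (mk_range_le.trans mk_nat.le).trans_lt aleph0_lt_aleph_one
      · have e' : (range fun n => (n, u n)) = range fun n => (n, v n) := congrArg Subtype.val e
        funext n
        obtain ⟨m, hm⟩ : (n, u n) ∈ range fun n => (n, v n) := e' ▸ mem_range_self n
        obtain ⟨rfl, h⟩ := Prod.mk.inj hm
        exact h.symm
    rwa [h2, ← power_def, mk_out, mk_nat] at h3

end Pool.Agent.Lib.Sharp
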