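import Pool.Agent.Lib.Sharp.Cond
import Mathlib.SetTheory.Cardinal.Continuum

/-!
Auxiliary constructions: closure under countable-ary operations, rank functions, smallness, and
sets of ordinals that reflect the behaviour of lifted embeddings.
-/

namespace Pool.Agent.Lib.Sharp

open Pool.Agent.Work.MP_667be6_lc Cardinal Set Tm

/-- transfinite iteration of an operation on sets -/
def iter (G : Set Ordinal.{0} → Set Ordinal.{0}) (α : Ordinal.{0}) : Set Ordinal.{0} :=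
  G (⋃ β : Iio α, iter G β.1)
termination_by α
decreasing_by exact β.2

theorem exists_omega_closure {K : Type} [Countable K] {μ : Cardinal.{1}} (h0 : ℵ₀ ≤ μ)
    (hμ : μ ^ ℵ₀ ≤ μ) (W : (K → T) → Set Ordinal.{0}) (hW : ∀ d, (W d).Countable)
    {X₀ : Set Ordinal.{0}} (hX₀ : #X₀ ≤ μ) :
    ∃ X, X₀ ⊆ X ∧ #X ≤ μ ∧
      ∀ d : K → T, (∀ k, ((d k).supp : Set Ordinal.{0}) ⊆ X) → W d ⊆ X := by
  let G : Set Ordinal.{0} → Set Ordinal.{0} := fun Z => X₀ ∪
    ⋃ d : K → {t : T | (t.supp : Set Ordinal.{0}) ⊆ Z}, W fun k => (d k).1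
  have hG : ∀ Z : Set Ordinal.{0}, #Z ≤ μ → #(G Z) ≤ μ := by
    intro Z hZ
    refine (mk_union_le _ _).trans (add_le_of_le h0 hX₀ ?_)
    refine (mk_iUnion_le _).trans (mul_le_of_le h0 ?_ (ciSup_le' fun d =>
      (le_aleph0_iff_set_countable.2 (hW _)).trans h0))
    rw [mk_arrow, lift_uzero]
    have h1 : #{t : T | (t.supp : Set Ordinal.{0}) ⊆ Z} ≤ μ :=
      (card_terms_le Z).trans (max_le hZ h0)
    have h2 : Cardinal.lift.{1} #K ≤ ℵ₀ := by simp
    exact (power_le_power_right h1).trans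
      ((power_le_power_left (aleph0_pos.trans_le h0).ne' h2).trans hμ)
  have h1 : Cardinal.lift.{1} (ℵ₁ : Cardinal.{0}) ≤ μ := by
    rw [lift_aleph, Ordinal.lift_one]
    refine aleph_one_le_continuum.trans (le_trans ?_ hμ)
    rw [← two_power_aleph0]
    exact power_le_power_right ((natCast_lt_aleph0 (n := 2)).le.trans h0)
  have hU : ∀ α ≤ (ℵ₁ : Cardinal.{0}).ord, (∀ β < α, #(iter G β) ≤ μ) →
      #(⋃ β : Iio α, iter G β.1) ≤ μ := by
    intro α hα h
    refine (mk_iUnion_le _).trans (mul_le_of_le h0 ?_ (ciSup_le' fun β => h β.1 β.2))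
    rw [mk_Iio_ordinal]
    exact (lift_le.2 (by simpa using Ordinal.card_le_card hα)).trans h1
  have hI : ∀ α < (ℵ₁ : Cardinal.{0}).ord, #(iter G α) ≤ μ := by
    intro α
    induction α using WellFoundedLT.induction with
    | ind α ih =>
      intro hα
      rw [iter]
      exact hG _ (hU α hα.le fun β hβ => ih β hβ (hβ.trans hα))
  have hpos : (0 : Ordinal.{0}) < (ℵ₁ : Cardinal.{0}).ord := by
    rw [ord_aleph]; exact Ordinal.omega_pos 1
  refine ⟨⋃ β : Iio (ℵ₁ : Cardinal.{0}).ord, iter G β.1, ?_, hU _ le_rfl hI, fun d hd => ?_⟩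
  · refine subset_trans ?_ (subset_iUnion _ ⟨0, hpos⟩)
    rw [iter]; exact subset_union_left
  · have hc : Countable (Σ k : K, (d k).supp) := inferInstance
    choose f hf using fun p : Σ k : K, (d k).supp => mem_iUnion.1 (hd p.1 p.2.2)
    obtain ⟨α, hα, hf'⟩ : ∃ α < (ℵ₁ : Cardinal.{0}).ord, ∀ p, (f p).1 < α := by
      refine ⟨⨆ p, (f p).1 + 1, ?_, fun p => ?_⟩
      · refine (Ordinal.iSup_lt_omega_one fun p => ?_).trans_eq (ord_aleph 1).symm
        exact ((isSuccLimit_ord (aleph0_le_aleph 1)).add_one_lt (f p).2).trans_eq (ord_aleph 1)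
      · exact (lt_add_one _).trans_le (Ordinal.le_iSup (fun p => (f p).1 + 1) p)
    refine subset_trans ?_ (subset_iUnion _ ⟨α, hα⟩)
    rw [iter]
    refine subset_trans ?_ subset_union_right
    exact subset_iUnion_of_subset (fun k => ⟨d k, fun x hx =>
      mem_iUnion.2 ⟨⟨_, hf' ⟨k, x, hx⟩⟩, hf ⟨k, x, hx⟩⟩⟩) Subset.rfl

theorem exists_rank {A : Type 1} [Small.{0} A] (R : A → A → Prop) (wf : WellFounded R)
    (tr : ∀ a b c, R a b → R b c → R a c) :
    ∃ ρ : A → Ordinal.{0}, (∀ a b, R a b → ρ a < ρ b) ∧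
      ∀ b ξ, ξ < ρ b → ∃ a, R a b ∧ ρ a = ξ := by
  let ρ : A → Ordinal.{0} := wf.fix fun b ih => ⨆ a : {a // R a b}, ih a.1 a.2 + 1
  have hρ : ∀ b, ρ b = ⨆ a : {a // R a b}, ρ a.1 + 1 := fun b => wf.fix_eq _ b
  refine ⟨ρ, fun a b h => ?_, fun b => ?_⟩
  · rw [hρ b, Ordinal.lt_iSup_iff]
    exact ⟨⟨a, h⟩, lt_add_one _⟩
  · induction b using wf.induction with
    | _ b ih =>
      intro ξ hξ
      rw [hρ b, Ordinal.lt_iSup_iff] at hξ
      obtain ⟨⟨a, ha⟩, h⟩ := hξ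
      rcases (Order.lt_add_one_iff.1 h).eq_or_lt with h | h
      · exact ⟨a, ha, h.symm⟩
      · obtain ⟨c, hc, h'⟩ := ih a ha ξ h
        exact ⟨c, tr _ _ _ hc ha, h'⟩

instance small_terms (Λ : Ordinal.{0}) :
    Small.{0} {t : T | (t.supp : Set Ordinal.{0}) ⊆ Iio Λ} := by
  let f : Shrink.{0} (Iio Λ) → Ordinal.{0} := fun a => ((equivShrink _).symm a).1
  refine small_subset (s := range (Tm.map f)) fun t ht => ?_
  classical
  have : Nonempty (Shrink.{0} (Iio Λ)) := ⟨equivShrink _ ⟨t.lev, ht t.lev_mem_supp⟩⟩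
  refine ⟨t.map fun a => if h : a ∈ Iio Λ then equivShrink _ ⟨a, h⟩ else Classical.arbitrary _, ?_⟩
  rw [map_map]
  exact map_eq_self fun a ha => by simp only [f, dif_pos (ht ha), Equiv.symm_apply_apply]

/-- `e` is an embedding on the hull of `A` and `u` that fixes `A` and sends `u` to `u'` -/
def Via (e : Ordinal.{0} → Ordinal.{0}) (r : T) (A : Set Ordinal.{0}) (u u' r' : T) : Prop :=
  IsEmb e (hull r (A ∪ u.supp)) r r' ∧ (∀ x ∈ A, e x = x) ∧ u.map e = u'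

theorem via_of_finite {r u u' r' : T} {A : Set Ordinal.{0}}
    (h : ∀ a : Finset Ordinal.{0}, (a : Set Ordinal.{0}) ⊆ A → ∃ e, Via e r a u u' r') :
    ∃ e, Via e r A u u' r' := by
  classical
  obtain ⟨e₀, -, -, h₀⟩ := h ∅ (by simp)
  have hg : ∀ x ∈ u.supp, (if x ∈ A then x else e₀ x) = e₀ x := by
    intro x hx
    split_ifs with hA
    · obtain ⟨e, -, h1, h2⟩ := h {x} (by simpa)
      rw [← eq_of_map_eq (h2.trans h₀.symm) x hx, h1 x (by simp)]
    · rfl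
  obtain ⟨e, he, heg⟩ := exists_emb_of_finite (r := r) (r' := r') (A := A) (B := u.supp)
    (g := fun x => if x ∈ A then x else e₀ x) fun a ha => by
      obtain ⟨e, h1, h2, h3⟩ := h a ha
      refine ⟨e, h1, ?_⟩
      rintro x (hx | hx)
      · simp only [h2 x hx, if_pos (ha hx)]
      · simp only [hg x hx, eq_of_map_eq (h3.trans h₀.symm) x hx]
  refine ⟨e, he, fun x hx => by simpa only [if_pos hx] using heg (Or.inl hx), ?_⟩
  rw [← h₀]
  exact map_congr fun x hx => (heg (Or.inr hx)).trans (hg x hx)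

/-- descending threads -/
def Thread (r : ℕ → T) (γ : ℕ → Ordinal.{0}) (u u' r' : ℕ → T) (A : ℕ → Set Ordinal.{0}) : Prop :=
  ∃ (y : ℕ → Ordinal.{0}) (e : ℕ → Ordinal.{0} → Ordinal.{0}), ∀ n,
    Via (e n) (r n) (Iio (γ n)) (u n) (u' n) (r' n) ∧ y n ∈ hull (r n) (A n ∪ (u n).supp) ∧
      y (n + 1) < e n (y n)

/-- the closure properties needed for lifting -/
structure Refl (θ : Ordinal.{0}) (X : Set Ordinal.{0}) : Prop where
  sub : X ⊆ Iio θ
  cl : Cl (first θ) X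
  via : ∀ (r u u' r' : T) (γ : Ordinal.{0}), (r.supp : Set Ordinal.{0}) ⊆ X →
    (u.supp : Set Ordinal.{0}) ⊆ X → (u'.supp : Set Ordinal.{0}) ⊆ X →
    (r'.supp : Set Ordinal.{0}) ⊆ X → γ ∈ X →
    (∃ e, Via e r (Iio γ ∩ X) u u' r') → ∃ e, Via e r (Iio γ) u u' r'
  thr : ∀ (r u u' r' : ℕ → T) (γ : ℕ → Ordinal.{0}), (∀ n, ((r n).supp : Set Ordinal.{0}) ⊆ X) →
    (∀ n, ((u n).supp : Set Ordinal.{0}) ⊆ X) → (∀ n, ((u' n).supp : Set Ordinal.{0}) ⊆ X) →
    (∀ n, ((r' n).supp : Set Ordinal.{0}) ⊆ X) → (∀ n, γ n ∈ X) →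
    Thread r γ u u' r' (fun n => Iio (γ n)) → Thread r γ u u' r' fun n => Iio (γ n) ∩ X

theorem Via.mono {e : Ordinal.{0} → Ordinal.{0}} {r u u' r' : T} {A B : Set Ordinal.{0}}
    (h : Via e r A u u' r') (hB : B ⊆ A) : Via e r B u u' r' :=
  ⟨h.1.mono (hull_mono le_rfl (union_subset_union_left _ hB)), fun x hx => h.2.1 x (hB hx), h.2.2⟩

theorem exists_refl {μ : Cardinal.{1}} (h0 : ℵ₀ ≤ μ) (hμ : μ ^ ℵ₀ ≤ μ) {θ : Ordinal.{0}}
    {Y : Set Ordinal.{0}} (hY : Y ⊆ Iio θ) (hc : #Y ≤ μ) : ∃ X, Y ⊆ X ∧ #X ≤ μ ∧ Refl θ X := by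
  classical
  have h1 : ∀ (r u u' r' : T) (γ : Ordinal.{0}), ∃ a : Finset Ordinal.{0},
      (∃ e, Via e r (Iio γ ∩ a) u u' r') → ∃ e, Via e r (Iio γ) u u' r' := by
    intro r u u' r' γ
    by_contra! h
    refine (h ∅).2 _ (via_of_finite fun a ha => ?_).choose_spec
    obtain ⟨e, he⟩ := (h a).1
    exact ⟨e, he.mono (subset_inter ha Subset.rfl)⟩
  have h2 : ∀ (r u u' r' : ℕ → T) (γ : ℕ → Ordinal.{0}), ∃ a : ℕ → Finset Ordinal.{0},
      Thread r γ u u' r' (fun n => Iio (γ n)) → Thread r γ u u' r' fun n => Iio (γ n) ∩ a n := by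
    intro r u u' r' γ
    by_cases h : Thread r γ u u' r' fun n => Iio (γ n)
    · obtain ⟨y, e, h⟩ := h
      choose a ha hy using fun n => hull_fin (h n).2.1
      refine ⟨a, fun _ => ⟨y, e, fun n => ⟨(h n).1, hull_mono le_rfl (fun x hx => ?_) (hy n),
        (h n).2.2⟩⟩⟩
      rcases ha n hx with h | h
      exacts [Or.inl ⟨h, hx⟩, Or.inr h]
    · exact ⟨fun _ => ∅, fun h' => (h h').elim⟩
  choose w1 h1 using h1
  choose w2 h2 using h2
  obtain ⟨X, hYX, hX, hcl⟩ := exists_omega_closure (K := ℕ × Fin 5) h0 hμ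
    (fun d => ((S (d (0, 0))).supp : Set Ordinal.{0}) ∪
      (w1 (d (0, 0)) (d (0, 1)) (d (0, 2)) (d (0, 3)) (d (0, 4)).lev : Set Ordinal.{0}) ∪
      ⋃ n, (w2 (fun n => d (n, 0)) (fun n => d (n, 1)) (fun n => d (n, 2)) (fun n => d (n, 3))
        (fun n => (d (n, 4)).lev) n : Set Ordinal.{0}))
    (fun d => ((Finset.countable_toSet _).union (Finset.countable_toSet _)).union
      (countable_iUnion fun _ => Finset.countable_toSet _)) hc
  have key : ∀ (r u u' r' : ℕ → T) (γ : ℕ → Ordinal.{0}),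
      (∀ n, ((r n).supp : Set Ordinal.{0}) ⊆ X ∩ Iio θ) →
      (∀ n, ((u n).supp : Set Ordinal.{0}) ⊆ X ∩ Iio θ) →
      (∀ n, ((u' n).supp : Set Ordinal.{0}) ⊆ X ∩ Iio θ) →
      (∀ n, ((r' n).supp : Set Ordinal.{0}) ⊆ X ∩ Iio θ) → (∀ n, γ n ∈ X ∩ Iio θ) →
      (w1 (r 0) (u 0) (u' 0) (r' 0) (γ 0) : Set Ordinal.{0}) ⊆ X ∧
        ∀ n, (w2 r u u' r' γ n : Set Ordinal.{0}) ⊆ X := by
    intro r u u' r' γ g1 g2 g3 g4 g5
    have := hcl (fun p => ![r p.1, u p.1, u' p.1, r' p.1, first (γ p.1)] p.2) (by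
      rintro ⟨n, k⟩
      revert k
      simp only [Fin.forall_fin_succ, Matrix.cons_val_zero, Matrix.cons_val_succ,
        IsEmpty.forall_iff, and_true, first_supp, Finset.coe_singleton, singleton_subset_iff]
      exact ⟨(g1 n).trans inter_subset_left, (g2 n).trans inter_subset_left,
        (g3 n).trans inter_subset_left, (g4 n).trans inter_subset_left, (g5 n).1⟩)
    simp only [union_subset_iff, iUnion_subset_iff] at this
    exact ⟨by simpa using this.1.2, by simpa using this.2⟩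
  refine ⟨X ∩ Iio θ, subset_inter hYX hY, (mk_le_mk_of_subset inter_subset_left).trans hX,
    inter_subset_right, fun t ht htθ hs => subset_inter ?_ ?_, ?_, ?_⟩
  · have := hcl (fun _ => t) fun _ => hs.trans inter_subset_left
    exact subset_trans (subset_union_left.trans subset_union_left) this
  · exact (S_wf ht).supp_lt ((lev_le_of_le (S_le t)).trans_lt ((lt_first_iff ht).1 htθ))
  · rintro r u u' r' γ g1 g2 g3 g4 g5 ⟨e, he⟩
    have := (key (fun _ => r) (fun _ => u) (fun _ => u') (fun _ => r') (fun _ => γ)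
      (fun _ => g1) (fun _ => g2) (fun _ => g3) (fun _ => g4) fun _ => g5).1
    exact h1 r u u' r' γ ⟨e, he.mono fun x hx => ⟨hx.1, this hx.2, Iio_subset_Iio (le_of_lt g5.2) hx.1⟩⟩
  · intro r u u' r' γ g1 g2 g3 g4 g5 h
    obtain ⟨y, e, h'⟩ := h2 r u u' r' γ h
    refine ⟨y, e, fun n => ⟨(h' n).1, hull_mono le_rfl (union_subset_union_left _ ?_) (h' n).2.1,
      (h' n).2.2⟩⟩
    exact fun x hx => ⟨hx.1, (key r u u' r' γ g1 g2 g3 g4 g5).2 n hx.2,
      Iio_subset_Iio (le_of_lt (g5 n).2) hx.1⟩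

end Pool.Agent.Lib.Sharp
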