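import Pool.Agent.Lib.Sharp.Lim

/-!
Condensation for the term machine, and elementary embeddings from machine embeddings.
-/

namespace Pool.Agent.Lib.Sharp

open Pool.Agent.Work.MP_667be6_lc Cardinal Set Tm

theorem hasCond : HasCond := by
  intro r H β hH hβ
  choose! σ hσH _ hσ using fun x (hx : x < col H β) => exists_col_eq hx
  have hc : StrictMonoOn (col H) H := fun a ha b _ hab => col_lt_col ha hab
  have hlt : ∀ x ∈ H, col H x < col H β := fun x hx => col_lt_col hx (hβ hx)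
  have hσc : ∀ x ∈ H, σ (col H x) = x := fun x hx =>
    hc.injOn (hσH _ (hlt x hx)) hx (hσ _ (hlt x hx))
  have hσm : StrictMonoOn σ (Iio (col H β)) := fun a ha b hb hab =>
    (hc.lt_iff_lt (hσH a ha) (hσH b hb)).1 (by rwa [hσ a ha, hσ b hb])
  have hsys : Sys (fun _ : Unit => H) (fun _ => r) fun _ => col H :=
    ⟨fun _ => hH, fun _ => hc, fun _ x _ b hb => ⟨(), fun a => a, isEmb_id _ _, fun _ h => h,
      fun _ _ => rfl, fun ξ hξ => by
        obtain ⟨a, ha, -, h⟩ := exists_col_eq (hb ξ hξ)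
        exact ⟨a, ha, h⟩⟩⟩
  let I : Set T := {t | t.lev < col H β ∧ t.map σ < r}
  have hne : {t : T | t.WF ∧ t ∉ I}.Nonempty :=
    ⟨first (col H β), first_wf _, fun h => by simpa using h.1⟩
  obtain ⟨r', ⟨hw, hr'⟩, hmin⟩ := wellFounded_lt.has_min _ hne
  have hI : ∀ t : T, t.WF → (t < r' ↔ t ∈ I) := by
    intro t ht
    refine ⟨fun h => by_contra fun h' => hmin t ⟨ht, h'⟩ h, fun h => not_le.1 fun h' => hr' ?_⟩
    have hl : r'.lev < col H β := (lev_le_of_le h').trans_lt h.1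
    exact ⟨hl, (map_le_map (hσm.mono (union_subset (hw.supp_lt hl) (ht.supp_lt h.1))) h').trans_lt
      h.2⟩
  have hσct : ∀ t : T, (t.supp : Set Ordinal.{0}) ⊆ H → (t.map (col H)).map σ = t := fun t ht => by
    rw [map_map]; exact map_eq_self fun a ha => hσc a (ht ha)
  have hl : r'.lev ≤ col H β := by
    have : r' ≤ first (col H β) :=
      not_lt.1 fun h => hmin _ ⟨first_wf _, fun h => by simpa using h.1⟩ h
    simpa using lev_le_of_le this
  refine ⟨col H β, col H, σ, r', hw, hlt, hσH, hσc, hσ, ⟨hc, fun t ht htr hs => ⟨?_,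
    hsys.S_map () ht htr hs⟩⟩, ⟨hσm, fun t ht htr hs => ⟨((hI t ht).1 htr).2, ?_⟩⟩,
    fun t ht htr => ht.supp_lt ((hI t ht).1 htr).1, fun hr => not_lt.1 fun h => ?_, hl,
    fun b hb => (hw.le_lev b hb).trans hl, fun γ hγ x hx =>
      col_eq_self (subset_trans (Iio_subset_Iio hx.le) hγ)⟩
  · refine (hI _ (ht.map (hc.mono hs))).2 ⟨?_, by rwa [hσct t hs]⟩
    rw [lev_map]; exact hlt _ (hs t.lev_mem_supp)
  · have hs' : ((t.map σ).supp : Set Ordinal.{0}) ⊆ H := by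
      rw [coe_supp_map]; rintro _ ⟨a, ha, rfl⟩; exact hσH a (hs ha)
    have hw' := ht.map (hσm.mono hs)
    have h1 := hsys.S_map () hw' ((hI t ht).1 htr).2 hs'
    rw [map_map, map_eq_self fun a ha => hσ a (hs ha)] at h1
    rw [h1, hσct _ (hH _ hw' ((hI t ht).1 htr).2 hs')]
  · have := (hI r hr).1 h
    exact (hr.le_map hσm this.1).not_gt this.2

/-- machine embeddings of full levels are elementary -/
theorem el_of_emb {α : Ordinal.{0}} {j : Ordinal.{0} → Ordinal.{0}} {s : T}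
    (h : IsEmb j (Iio (α + 1 + 1)) (first (α + 1)) s) {n : ℕ} (φ : Fml n) :
    El (Iio (α + 1 + 1)) j α φ := by
  let τ := Function.invFunOn j (Iio (α + 1 + 1))
  have hτ : ∀ x < α + 1 + 1, τ (j x) = x := fun x hx => h.1.injOn.leftInvOn_invFunOn hx
  have h1 : α + 1 < α + 1 + 1 := lt_add_one _
  have h0 : α < α + 1 + 1 := (lt_add_one _).trans h1
  have hsys : Sys (fun _ : Unit => j '' Iio (α + 1 + 1)) (fun _ => first (j (α + 1)))
      fun _ => τ := by
    refine ⟨fun _ t ht htr hs => ?_, fun _ => ?_, fun _ x hx b hb => ⟨(), fun a => a,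
      isEmb_id _ _, fun _ h => h, fun _ _ => rfl, fun ξ hξ => ?_⟩⟩
    · obtain ⟨u, hu, rfl⟩ := exists_map_eq hs
      have hw := ht.of_map (h.1.mono hu)
      rw [lt_first_iff ht, lev_map, h.1.lt_iff_lt (hu u.lev_mem_supp) h1] at htr
      rw [(h.2 u hw ((lt_first_iff hw).2 htr) hu).2, coe_supp_map]
      exact image_mono ((S_wf hw).supp_lt (((lev_le_of_le (S_le u)).trans_lt htr).trans h1))
    · rintro _ ⟨a, ha, rfl⟩ _ ⟨b, hb, rfl⟩ hab
      rw [hτ a ha, hτ b hb]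
      exact (h.1.lt_iff_lt ha hb).1 hab
    · obtain ⟨a, ha, rfl⟩ := hx
      have : ξ < α + 1 + 1 := (hb ξ hξ).trans (by rw [hτ a ha]; exact ha)
      exact ⟨j ξ, mem_image_of_mem _ this, hτ ξ this⟩
  have hel := hsys.el _ φ () (j α) rfl
    (ok_of_lt (mem_image_of_mem _ h0) (by simpa using h.1 h0 h1 (lt_add_one α)) _)
  intro v hv
  have := hel (fun k => (v k).map j) fun k => ⟨((hv k).map h.1 h0).1, ((hv k).map h.1 h0).2, by
    rw [coe_supp_map]; exact image_mono (hv k).2.2⟩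
  have e : ∀ k, ((v k).map j).map τ = v k := fun k => by
    rw [map_map]; exact map_eq_self fun a ha => hτ a ((hv k).2.2 ha)
  simp only [hτ α h0, e] at this
  exact this.symm

theorem zeroSharp_of_emb
    (hφ : ∃ φ : Fml (0 + 1), ∀ δ : Ordinal.{0}, dset δ φ Fin.elim0 = δ.toZFSet) {δ : Ordinal.{0}}
    (h : ∀ α, δ < α → ∃ j s, IsEmb j (Iio (α + 1 + 1)) (first (α + 1)) s ∧ j δ ≠ δ) :
    ZeroSharp := by
  obtain ⟨φ, hφ⟩ := hφ
  refine ⟨δ, fun α hα => ?_⟩
  obtain ⟨j, s, hj, hδ⟩ := h α hα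
  have h0 : α < α + 1 + 1 := (lt_add_one _).trans (lt_add_one _)
  have : Nonempty T := ⟨s⟩
  choose! u hu hl hv using fun x (hx : x ∈ L α) => exists_val hx
  have ha : ∀ x ∈ L α, Arg (Iio (α + 1 + 1)) α (u x) := fun x hx =>
    ⟨hu x hx, hl x hx, (hu x hx).supp_lt ((hl x hx).trans h0)⟩
  refine ⟨j α, fun x => ((u x).map j).val, fun x hx =>
    ((ha x hx).map hj.1 h0).1.val_mem ((ha x hx).map hj.1 h0).2, fun n ψ v hv' => ?_, ?_⟩
  · have := el_of_emb hj ψ (fun k => u (v k)) fun k => ha _ (hv' k)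
    simpa only [fun k => hv _ (hv' k)] using this
  · have hval : ∀ ξ : Ordinal.{0}, (Tm.mk ξ 0 φ Fin.elim0 : T).val = ξ.toZFSet := fun ξ => by
      rw [← hφ ξ, Tm.val]; congr 1; funext i; exact i.elim0
    have hw : Arg (Iio (α + 1 + 1)) α (Tm.mk δ 0 φ Fin.elim0) :=
      ⟨fun i => i.elim0, hα, WF.supp_lt (t := Tm.mk δ 0 φ Fin.elim0) (fun i => i.elim0)
        (hα.trans h0)⟩
    have hmem : δ.toZFSet ∈ L α := hval δ ▸ hw.1.val_mem hα
    have := (el_of_emb hj (.eq 0 1) ![u δ.toZFSet, Tm.mk δ 0 φ Fin.elim0] 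
      (Fin.forall_fin_two.2 ⟨ha _ hmem, hw⟩)).1 (by simp [hv _ hmem, hval])
    have e : (Tm.mk δ 0 φ Fin.elim0 : T).map j = Tm.mk (j δ) 0 φ Fin.elim0 := by
      rw [Tm.map]; congr 1; funext i; exact i.elim0
    simp only [sat_eq, Matrix.cons_val_zero, Matrix.cons_val_one, e, hval] at this
    intro h'
    exact hδ (Ordinal.toZFSet_injective (this.symm.trans h'))

end Pool.Agent.Lib.Sharp
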