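import Pool.Agent.Lib.Sharp.Iface
import Mathlib.SetTheory.ZFC.Ordinal
import Mathlib.SetTheory.Cardinal.Aleph

/-!
The ordinals of a level of `L`, and a colouring of Erdos, Hajnal and Rado.
-/

namespace Pool.Agent.Lib.Sharp

open Cardinal Set Tm Pool.Agent.Work.MP_667be6_lc

/-- a transitive set of transitive sets -/
def Misc_fml : Fml (0 + 1) :=
  .and (.neg (.ex (.and (.mem 0 1) (.ex (.and (.mem 0 1) (.neg (.mem 0 2)))))))
    (.neg (.ex (.and (.mem 0 1) (.ex (.and (.mem 0 1) (.ex (.and (.mem 0 1)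
      (.neg (.mem 0 2)))))))))

theorem Misc_sat {δ : Ordinal.{0}} {x : ZFSet.{0}} (hx : x ∈ L δ) :
    Sat (L δ) Misc_fml (Fin.cons x Fin.elim0) ↔ x.IsOrdinal := by
  have e : Sat (L δ) Misc_fml (Fin.cons x Fin.elim0) ↔
      (¬ ∃ y ∈ L δ, y ∈ x ∧ ∃ z ∈ L δ, z ∈ y ∧ z ∉ x) ∧
        ¬ ∃ y ∈ L δ, y ∈ x ∧ ∃ z ∈ L δ, z ∈ y ∧ ∃ w ∈ L δ, w ∈ z ∧ w ∉ y := Iff.rfl
  rw [e, ZFSet.isOrdinal_iff_forall_mem_isTransitive]
  constructor
  · rintro ⟨h1, h2⟩
    refine ⟨fun y hy z hz => ?_, fun y hy z hz w hw => ?_⟩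
    · by_contra h
      exact h1 ⟨y, L_trans hx hy, hy, z, L_trans (L_trans hx hy) hz, hz, h⟩
    · by_contra h
      exact h2 ⟨y, L_trans hx hy, hy, z, L_trans (L_trans hx hy) hz, hz, w,
        L_trans (L_trans (L_trans hx hy) hz) hw, hw, h⟩
  · rintro ⟨h1, h2⟩
    exact ⟨fun ⟨y, _, hy, _, _, hz, h⟩ => h (h1 y hy hz),
      fun ⟨y, _, hy, z, _, hz, _, _, hw, h⟩ => h (h2 y hy z hz hw)⟩

theorem Misc_rank {δ : Ordinal.{0}} {x : ZFSet.{0}} (hx : x ∈ L δ) : x.rank < δ := by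
  induction δ using WellFoundedLT.induction generalizing x with
  | ind δ ih =>
    obtain ⟨β, hβ, h⟩ := mem_L_iff.1 hx
    exact (ZFSet.rank_le_iff.2 fun y hy => ih β hβ (subset_of_mem_Def h hy)).trans_lt hβ

theorem exists_ord_fml : ∃ φ : Fml (0 + 1), ∀ δ : Ordinal.{0},
    dset δ φ Fin.elim0 = δ.toZFSet := by
  refine ⟨Misc_fml, fun δ => ?_⟩
  induction δ using WellFoundedLT.induction with
  | ind δ ih =>
    ext x
    rw [mem_dset, Ordinal.mem_toZFSet_iff]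
    constructor
    · rintro ⟨h1, h2⟩
      exact ⟨x.rank, Misc_rank h1, ((Misc_sat h1).1 h2).toZFSet_rank_eq⟩
    · rintro ⟨γ, hγ, rfl⟩
      have h : γ.toZFSet ∈ L δ := ih γ hγ ▸ dset_mem_L hγ Misc_fml fun i => i.elim0
      exact ⟨h, (Misc_sat h).2 (ZFSet.isOrdinal_toZFSet γ)⟩

theorem Misc_Iio {c : Cardinal.{0}} (i : c.ord.ToType) : #(Iio i) < c := by
  simpa using mk_Iio_lt i (by simp)

/-- an injective choice function -/
theorem Misc_choice {X J : Type} [LinearOrder J] [WellFoundedLT J] (F : J → Set X)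
    (h : ∀ j, #(Iio j) < #(F j)) : ∃ f : J → X, Function.Injective f ∧ ∀ j, f j ∈ F j := by
  have h1 : ∀ (j : J) (g : Iio j → X), ∃ x ∈ F j, x ∉ range g := fun j g => by
    by_contra h'
    refine (h j).not_ge ((mk_le_mk_of_subset fun x hx => ?_).trans (mk_range_le (f := g)))
    by_contra h''
    exact h' ⟨x, hx, h''⟩
  choose s hs hs' using h1
  let f : J → X := wellFounded_lt.fix fun j r => s j fun i => r i.1 i.2
  have hf : ∀ j, f j = s j fun i => f i.1 := fun j => wellFounded_lt.fix_eq _ j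
  have h2 : ∀ i j, i < j → f i ≠ f j := fun i j hij e =>
    hs' j (fun i => f i.1) ⟨⟨i, hij⟩, e.trans (hf j)⟩
  refine ⟨f, fun i j e => ?_, fun j => hf j ▸ hs j _⟩
  rcases lt_trichotomy i j with h | h | h
  exacts [absurd e (h2 i j h), h, absurd e.symm (h2 j i h)]

/-- a colouring that takes both values on each of few large sets -/
theorem Misc_bern {κ : Cardinal.{0}} (hκ : ℵ₀ ≤ κ) (𝒜 : Set (Set κ.out)) (h : #𝒜 ≤ κ)
    (h' : ∀ B ∈ 𝒜, #B = κ) : ∃ c : κ.out → Bool, ∀ B ∈ 𝒜, ∀ i, ∃ b ∈ B, c b ≠ i := by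
  classical
  have h1 : #(𝒜 × Bool) ≤ #κ.ord.ToType := by
    rw [mk_ord_toType, mk_prod, lift_id, lift_id]
    exact mul_le_of_le hκ h (mk_le_aleph0.trans hκ)
  obtain ⟨e⟩ := (Cardinal.le_def _ _).1 h1
  obtain ⟨f, hf, hF⟩ := Misc_choice (fun t => {x : κ.out | ∀ j, e j = t → x ∈ j.1.1}) fun t => by
    refine (Misc_Iio t).trans_le ?_
    by_cases ht : ∃ j, e j = t
    · obtain ⟨j, rfl⟩ := ht
      refine (h' _ j.1.2).ge.trans (mk_le_mk_of_subset fun x hx j' hj => ?_)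
      rwa [e.injective hj]
    · refine le_trans ?_ (mk_le_mk_of_subset (s := univ) fun x _ j hj => absurd ⟨j, hj⟩ ht)
      rw [mk_univ, mk_out]
  refine ⟨fun x => decide (∃ B, f (e (B, false)) = x), fun B hB i =>
    ⟨f (e (⟨B, hB⟩, i)), hF _ (⟨B, hB⟩, i) rfl, ?_⟩⟩
  cases i
  · simp
  · simp [hf.eq_iff]

theorem ehr {κ : Cardinal.{0}} (hκ : ℵ₀ ≤ κ) (h2 : 2 ^ κ ≤ Order.succ κ) :
    ∃ c : (Order.succ κ).out × κ.out → Bool, ∀ (A : Set (Order.succ κ).out) (B : Set κ.out),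
      #A = Order.succ κ → #B = κ → ∀ i, ∃ a ∈ A, ∃ b ∈ B, c (a, b) ≠ i := by
  have h1 : #(Set κ.out) ≤ #(Order.succ κ).ord.ToType := by rwa [mk_ord_toType, mk_set, mk_out]
  obtain ⟨e⟩ := (Cardinal.le_def _ _).1 h1
  have h3 : #(Order.succ κ).out ≤ #(Order.succ κ).ord.ToType := by rw [mk_ord_toType, mk_out]
  obtain ⟨u⟩ := (Cardinal.le_def _ _).1 h3
  have h4 : ∀ w : (Order.succ κ).ord.ToType, #(Iio w) ≤ κ := fun w =>
    Order.lt_succ_iff.1 (Misc_Iio w)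
  choose c hc using fun w : (Order.succ κ).ord.ToType =>
    Misc_bern hκ {B | #B = κ ∧ e B < w} (((mk_le_mk_of_subset (t := e ⁻¹' Iio w)
      fun _ h => h.2).trans (mk_preimage_of_injective _ _ e.injective)).trans (h4 w))
      fun _ h => h.1
  refine ⟨fun z => c (u z.1) z.2, fun A B hA hB i => ?_⟩
  have h5 : ∃ a ∈ A, e B < u a := by
    by_contra h
    have h6 : A ⊆ u ⁻¹' insert (e B) (Iio (e B)) := fun a ha => by
      rw [mem_preimage, Iio_insert]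
      exact not_lt.1 fun h' => h ⟨a, ha, h'⟩
    have h7 := ((mk_le_mk_of_subset h6).trans (mk_preimage_of_injective _ _ u.injective)).trans
      (mk_insert_le.trans (add_le_of_le hκ (h4 _) (one_le_aleph0.trans hκ)))
    rw [hA] at h7
    exact (Order.lt_succ κ).not_ge h7
  obtain ⟨a, ha, h⟩ := h5
  obtain ⟨b, hb, h'⟩ := hc (u a) B ⟨hB, h⟩ i
  exact ⟨a, ha, b, hb, h'⟩

end Pool.Agent.Lib.Sharp
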