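import Pool.Agent.Lib.Sharp.Sys
import Pool.Agent.Lib.Sharp.Misc

/-!
The covering lemma of Jensen at strong limit cardinals, for the term machine.
-/

namespace Pool.Agent.Lib.Sharp

open Pool.Agent.Work.MP_667be6_lc Cardinal Set Tm

theorem cl_Iio (r : T) (Λ : Ordinal.{0}) : Cl r (Iio Λ) := fun t ht _ hs =>
  (S_wf ht).supp_lt ((lev_le_of_le (S_le t)).trans_lt (hs t.lev_mem_supp))

theorem cover_step (hz : ¬ ZeroSharp) {κ : Cardinal.{0}} (hκ : κ.IsStrongLimit) (h0 : ℵ₀ < κ)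
    {θ : Ordinal.{0}} (hθ : κ.ord ≤ θ) {Y : Set Ordinal.{0}} (hY : Y ⊆ Iio θ)
    (hc : #Y < Cardinal.lift.{1} κ) :
    ∃ ν < θ, ∃ (s : T) (p : Finset Ordinal.{0}), s.WF ∧ Y ⊆ hull s (Iio ν ∪ p) := by
  classical
  obtain ⟨y, hy, hyY⟩ := lt_lift_iff.1 hc
  have hm : (2 : Cardinal.{0}) ^ max y ℵ₀ < κ := hκ.isStrongPrelimit (max_lt hy h0)
  obtain ⟨X, hYX, hX, hR⟩ := exists_refl (μ := Cardinal.lift.{1} (2 ^ max y ℵ₀))
    (aleph0_le_lift.2 ((le_max_right y ℵ₀).trans (cantor _).le))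
    (by
      rw [← lift_aleph0.{1, 0}, ← lift_power, lift_le, ← power_mul,
        mul_aleph0_eq (le_max_right _ _)])
    hY (by rw [← hyY, lift_le]; exact (le_max_left y ℵ₀).trans (cantor _).le)
  obtain ⟨θb, c, π, Θb, hC⟩ := hasCond _ X θ hR.cl hR.sub
  have hθb : θb < θ := by
    refine lt_of_lt_of_le (lt_ord.2 (lt_of_le_of_lt ?_ hm)) hθ
    rw [← lift_le.{1}, hC.card]; exact hX
  by_cases hid : ∀ x < θb, π x = x
  · refine ⟨θb, hθb, first 0, ∅, first_wf _, fun x hx => subset_hull _ _ (Or.inl ?_)⟩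
    have := hid _ (hC.c_lt x (hYX hx))
    rw [hC.σ_c x (hYX hx)] at this
    exact this ▸ hC.c_lt x (hYX hx)
  push Not at hid
  obtain ⟨δ, hδ, hδ'⟩ := hid
  have hpos : 0 < θb := zero_le.trans_lt hδ
  have hπ : ∀ γ < θb, π '' Iio γ ⊆ Iio (π γ) := by
    rintro γ hγ _ ⟨x, hx, rfl⟩
    exact hC.emb_σ.1 (lt_trans hx hγ) hγ hx
  by_cases hA : ∃ s : T, s.WF ∧ ∃ γ < θb, ∃ q : Finset Ordinal.{0}, Iio θb ⊆ hull s (Iio γ ∪ q)
  swap
  · refine (hz (zeroSharp_of_emb exists_ord_fml (δ := δ) fun α hα => ?_)).elim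
    obtain ⟨j, s, -, hj, hjπ⟩ := Ctx.lift ⟨θ, θb, max θb (α + 1 + 1), X, c, π, Θb,
      {first (α + 1)}, hR, hC, le_max_left _ _, by
        rintro _ rfl
        exact ⟨first_wf _, by simp⟩,
      fun _ _ r' hw _ γ hγ q h => hA ⟨r', hw, γ, hγ, q, h⟩⟩ (singleton_nonempty _) hpos
    exact ⟨j, s, (hj _ rfl).mono (Iio_subset_Iio (le_max_right _ _)), by rwa [hjπ δ hδ]⟩
  by_cases hB : ∃ γ < θb, ∃ q : Finset Ordinal.{0}, Iio θb ⊆ Iio γ ∪ q
  · obtain ⟨γ, hγ, q, h⟩ := hB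
    refine ⟨π γ, hR.sub (hC.σ_mem γ hγ), first 0, q.image π, first_wf _,
      fun x hx => subset_hull _ _ ?_⟩
    rw [← hC.σ_c x (hYX hx), Finset.coe_image]
    exact (h (hC.c_lt x (hYX hx))).imp (fun h => hπ γ hγ (mem_image_of_mem _ h))
      (mem_image_of_mem _)
  obtain ⟨s, ⟨hs, γ, hγ, p, hp⟩, hmin⟩ := wellFounded_lt.has_min _ hA
  have hlim : IsLim s := by
    refine isLim_of_min (B := Iio θb) (𝒜 := {A | ∃ γ < θb, ∃ q : Finset Ordinal.{0},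
      A = Iio γ ∪ q}) ?_ ?_ ⟨_, ⟨γ, hγ, p, rfl⟩, hp⟩ ?_
    · rintro _ ⟨γ, hγ, q, rfl⟩ q'
      exact ⟨γ, hγ, q ∪ q', by rw [Finset.coe_union, union_assoc]⟩
    · rintro _ ⟨γ, hγ, q, rfl⟩ h
      exact hB ⟨γ, hγ, q, h⟩
    · rintro t ht hts _ ⟨γ, hγ, q, rfl⟩ h
      exact hmin t ⟨ht, γ, hγ, q, h⟩ hts
  let Λ := max (max θb s.lev) (p.sup id) + 1
  have h1 : θb < Λ := Order.lt_add_one_iff.2 ((le_max_left _ _).trans (le_max_left _ _))
  have h2 : s.lev < Λ := Order.lt_add_one_iff.2 ((le_max_right _ _).trans (le_max_left _ _))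
  have h3 : (p : Set Ordinal.{0}) ⊆ Iio Λ := fun x hx =>
    Order.lt_add_one_iff.2 ((Finset.le_sup (f := id) hx).trans (le_max_right _ _))
  obtain ⟨j, s', hs', hj, hjπ⟩ := Ctx.lift ⟨θ, θb, Λ, X, c, π, Θb, {r | r.WF ∧ r < s}, hR, hC,
    h1.le, fun r hr => ⟨hr.1, (lev_le_of_le hr.2.le).trans_lt h2⟩,
    fun r hr r' hw hr' γ hγ q h => hmin r' ⟨hw, γ, hγ, q, h⟩ (hr'.trans_lt hr.2)⟩ hlim.1 hpos
  simp only at hj hjπ
  refine ⟨π γ, hR.sub (hC.σ_mem γ hγ), s', p.image j, hs', fun x hx => ?_⟩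
  have hx' := hC.c_lt x (hYX hx)
  obtain ⟨r, hr, hrs, h⟩ := hull_cont hlim (hp hx')
  have := (hj r ⟨hr, hrs⟩).image_hull (cl_Iio _ _)
    (union_subset (Iio_subset_Iio (hγ.trans h1).le) h3) h
  rw [hjπ _ hx', hC.σ_c x (hYX hx)] at this
  refine hull_mono le_rfl ?_ this
  rw [image_union, Finset.coe_image]
  refine union_subset_union_left _ (subset_trans ?_ (hπ γ hγ))
  rintro _ ⟨z, hz, rfl⟩
  exact ⟨z, hz, (hjπ z (lt_trans hz hγ)).symm⟩

/-- the covering lemma -/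
theorem cov (hz : ¬ ZeroSharp) {κ : Cardinal.{0}} (hκ : κ.IsStrongLimit) (h0 : ℵ₀ < κ) :
    Cov κ := by
  classical
  intro θ
  induction θ using WellFoundedLT.induction with
  | ind θ ih =>
    intro Y hY hc
    rcases lt_or_ge θ κ.ord with hθ | hθ
    · exact ⟨θ, hθ, first 0, ∅, first_wf _, fun x hx => subset_hull _ _ (Or.inl (hY hx))⟩
    obtain ⟨ν, hν, s, p, hs, h⟩ := cover_step hz hκ h0 hθ hY hc
    choose a ha hxa using fun y : Y => hull_fin (h y.2)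
    obtain ⟨ν', hν', s', q, hs', h'⟩ := ih ν hν ((⋃ y, (a y : Set Ordinal.{0})) ∩ Iio ν)
      inter_subset_right (by
        refine (mk_le_mk_of_subset inter_subset_left).trans_lt ((mk_iUnion_le _).trans_lt ?_)
        have h1 : ℵ₀ < Cardinal.lift.{1} κ := by simpa using h0
        exact mul_lt_of_lt h1.le hc (lt_of_le_of_lt (ciSup_le' fun y => mk_le_aleph0) h1))
    refine ⟨ν', hν', max s s', q ∪ p, by rcases max_choice s s' with h | h <;> rwa [h],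
      fun x hx => hull_subset_hull (le_max_left _ _) (fun z hz => ?_) (hxa ⟨x, hx⟩)⟩
    rcases ha ⟨x, hx⟩ hz with h1 | h1
    · refine hull_mono (le_max_right _ _) (union_subset_union_right _ ?_)
        (h' ⟨mem_iUnion.2 ⟨_, hz⟩, h1⟩)
      rw [Finset.coe_union]; exact subset_union_left
    · exact subset_hull _ _ (Or.inr (by rw [Finset.coe_union]; exact Or.inr h1))

end Pool.Agent.Lib.Sharp
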