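import Pool.Agent.Work.MP_667be6_lc.DefsL
import Mathlib.SetTheory.ZFC.Ordinal

/-!
The statement that `0♯` exists, in the form of Kunen.
-/

namespace Pool.Agent.Lib.Sharp

open Pool.Agent.Work.MP_667be6_lc

/-- `0♯` exists, in a (formally stronger) form of the criterion of Kunen: there is an ordinal `δ`
such that every level `L α` with `δ < α` has an elementary embedding into some level `L β` that
moves `δ`. -/
def ZeroSharp : Prop :=
  ∃ δ : Ordinal.{0}, ∀ α : Ordinal.{0}, δ < α → ∃ (β : Ordinal.{0}) (j : ZFSet.{0} → ZFSet.{0}),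
    (∀ x ∈ L α, j x ∈ L β) ∧
    (∀ (n : ℕ) (φ : Fml n) (v : Fin n → ZFSet.{0}), (∀ i, v i ∈ L α) →
      (Sat (L α) φ v ↔ Sat (L β) φ fun i => j (v i))) ∧
    j δ.toZFSet ≠ δ.toZFSet

end Pool.Agent.Lib.Sharp
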