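import Pool.Agent.Work.MP_667be6_lc.GCH
import Pool.Agent.Lib.Sharp.Stmt
import Mathlib.Combinatorics.Colex
import Mathlib.Data.Multiset.DershowitzManna
import Mathlib.Data.Prod.Lex

/-!
A term machine for the constructible universe: terms naming the elements of `L`, their canonical
well-order, the least-element operation `S`, hulls and embeddings.
-/

universe u v w

namespace Pool.Agent.Lib.Sharp

open Pool.Agent.Work.MP_667be6_lc Cardinal

/-- terms: a level, a formula and parameters -/
inductive Tm (O : Type u) : Type u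
  | mk (a : O) (n : ℕ) (φ : Fml (n + 1)) (v : Fin n → Tm O) : Tm O

/-- nesting depth of a formula -/
def depth : {n : ℕ} → Fml n → ℕ
  | _, .mem _ _ => 0
  | _, .eq _ _ => 0
  | _, .neg φ => depth φ + 1
  | _, .and φ ψ => max (depth φ) (depth ψ) + 1
  | _, .ex φ => depth φ + 1

namespace Tm
variable {O : Type u} {O' : Type v} {O'' : Type w}

/-- the level of a term -/
def lev : Tm O → O
  | mk a _ _ _ => a

/-- the depth of the formula of a term -/
def dep : Tm O → ℕ
  | mk _ _ φ _ => depth φ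

/-- renaming of levels -/
def map (f : O → O') : Tm O → Tm O'
  | mk a n φ v => mk (f a) n φ fun i => map f (v i)

open Classical in
/-- the levels that occur in a term -/
noncomputable def supp : Tm O → Finset O
  | mk a _ _ v => insert a (Finset.univ.biUnion fun i => supp (v i))

theorem mem_supp {a b : O} {n : ℕ} {φ : Fml (n + 1)} {v : Fin n → Tm O} :
    b ∈ supp (mk a n φ v) ↔ b = a ∨ ∃ i, b ∈ supp (v i) := by
  simp [supp]

theorem lev_mem_supp (t : Tm O) : t.lev ∈ t.supp := by
  cases t; exact mem_supp.2 (Or.inl rfl)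

@[simp] theorem lev_map (f : O → O') (t : Tm O) : (t.map f).lev = f t.lev := by
  cases t; rfl

@[simp] theorem dep_map (f : O → O') (t : Tm O) : (t.map f).dep = t.dep := by
  cases t; rfl

theorem mem_supp_map {f : O → O'} {t : Tm O} {b : O'} :
    b ∈ (t.map f).supp ↔ ∃ a ∈ t.supp, f a = b := by
  induction t with
  | mk a n φ v ih =>
    simp only [map, mem_supp, ih]
    constructor
    · rintro (rfl | ⟨i, c, hc, rfl⟩)
      exacts [⟨a, Or.inl rfl, rfl⟩, ⟨c, Or.inr ⟨i, hc⟩, rfl⟩]
    · rintro ⟨c, rfl | ⟨i, hc⟩, rfl⟩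
      exacts [Or.inl rfl, Or.inr ⟨i, c, hc, rfl⟩]

theorem coe_supp_map (f : O → O') (t : Tm O) :
    ((t.map f).supp : Set O') = f '' (t.supp : Set O) := by
  ext b; simp [mem_supp_map]

theorem map_map (g : O' → O'') (f : O → O') (t : Tm O) :
    (t.map f).map g = t.map fun a => g (f a) := by
  induction t with
  | mk a n φ v ih => simp only [map, ih]

theorem map_congr {f g : O → O'} {t : Tm O} (h : ∀ a ∈ t.supp, f a = g a) :
    t.map f = t.map g := by
  induction t with
  | mk a n φ v ih =>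
    simp only [map]
    rw [h a (mem_supp.2 (Or.inl rfl))]
    congr 1
    funext i
    exact ih i fun b hb => h b (mem_supp.2 (Or.inr ⟨i, hb⟩))

theorem map_eq_self {f : O → O} {t : Tm O} (h : ∀ a ∈ t.supp, f a = a) : t.map f = t := by
  rw [map_congr (g := fun a => a) h]
  clear h
  induction t with
  | mk a n φ v ih => simp only [map, ih]

theorem eq_of_map_eq {f g : O → O'} {t : Tm O} (h : t.map f = t.map g) :
    ∀ a ∈ t.supp, f a = g a := by
  induction t with
  | mk a n φ v ih =>
    simp only [map, mk.injEq, heq_eq_eq, true_and] at h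
    intro b hb
    rcases mem_supp.1 hb with rfl | ⟨i, hi⟩
    · exact h.1
    · exact ih i (congrFun h.2 i) b hi

theorem map_inj {f : O → O'} {t t' : Tm O} (hf : Set.InjOn f (t.supp ∪ t'.supp : Set O))
    (h : t.map f = t'.map f) : t = t' := by
  have : Nonempty O := ⟨t.lev⟩
  let g := Function.invFunOn f (t.supp ∪ t'.supp : Set O)
  have hg : ∀ a ∈ (t.supp ∪ t'.supp : Set O), g (f a) = a := fun a ha => hf.leftInvOn_invFunOn ha
  calc t = (t.map f).map g := by
        rw [map_map]; exact (map_eq_self fun a ha => hg a (Or.inl ha)).symm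
    _ = t' := by rw [h, map_map]; exact map_eq_self fun a ha => hg a (Or.inr ha)

theorem card_le (O : Type u) : #(Tm O) ≤ max #O ℵ₀ := by
  let A : Type u := O × Σ n : ℕ, Fml (n + 1)
  let B : A → Type := fun a => Fin a.2.1
  let f : WType B → Tm O := fun τ =>
    WType.rec (motive := fun _ => Tm O) (fun a _ v => mk a.1 a.2.1 a.2.2 v) τ
  have hf : Function.Surjective f := by
    intro t
    induction t with
    | mk a n φ v ih =>
      choose τ hτ using ih
      refine ⟨WType.mk (⟨a, n, φ⟩ : A) τ, ?_⟩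
      simp only [f]
      congr 1
      funext i
      exact hτ i
  refine (Cardinal.mk_le_of_surjective hf).trans
    (WType.cardinalMk_le_max_aleph0_of_finite'.trans ?_)
  have hA : #A ≤ max #O ℵ₀ := by
    simp only [A, Cardinal.mk_prod, Cardinal.lift_uzero]
    have h1 : Cardinal.lift.{u} #(Σ n : ℕ, Fml (n + 1)) ≤ ℵ₀ := by
      rw [Cardinal.lift_le_aleph0]
      exact Cardinal.mk_le_aleph0
    calc #O * Cardinal.lift.{u} #(Σ n : ℕ, Fml (n + 1))
        ≤ max #O ℵ₀ * max #O ℵ₀ := mul_le_mul' (le_max_left _ _) (h1.trans (le_max_right _ _))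
      _ = max #O ℵ₀ := Cardinal.mul_eq_self (le_max_right _ _)
  rw [Cardinal.lift_uzero]
  exact max_le hA (le_max_right _ _)

instance : Countable (Tm ℕ) :=
  Cardinal.mk_le_aleph0_iff.1 ((card_le ℕ).trans (by simp))

/-- an injective code of terms over `ℕ` -/
noncomputable def code : Tm ℕ → ℕ := (exists_injective_nat (Tm ℕ)).choose

theorem code_inj : Function.Injective code := (exists_injective_nat (Tm ℕ)).choose_spec

end Tm

/-- terms over the ordinals -/
abbrev T := Tm Ordinal.{0}

instance : WellFoundedLT (Colex (Finset Ordinal.{0})) := by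
  classical
  refine ⟨Subrelation.wf (r := InvImage Multiset.IsDershowitzMannaLT
    fun s : Colex (Finset Ordinal.{0}) => (ofColex s).val) ?_
    (InvImage.wf _ Multiset.wellFounded_isDershowitzMannaLT)⟩
  intro s t h
  obtain ⟨a, hat, has, h⟩ := Finset.Colex.lt_iff_exists_forall_lt.1 h
  refine ⟨(ofColex s ∩ ofColex t).val, (ofColex s \ ofColex t).val, (ofColex t \ ofColex s).val,
    ?_, ?_, ?_, ?_⟩
  · intro h0
    have : a ∈ (ofColex t \ ofColex s).val := Finset.mem_sdiff.2 ⟨hat, has⟩
    rw [h0] at this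
    exact absurd this (by simp)
  · rw [add_comm, ← Finset.disjUnion_val _ _ (Finset.disjoint_sdiff_inter _ _)]
    refine congrArg Finset.val (Finset.ext fun x => ?_)
    simp; tauto
  · rw [add_comm, Finset.inter_comm, ← Finset.disjUnion_val _ _ (Finset.disjoint_sdiff_inter _ _)]
    refine congrArg Finset.val (Finset.ext fun x => ?_)
    simp; tauto
  · intro y hy
    have hy' := Finset.mem_sdiff.1 hy
    exact ⟨a, Finset.mem_sdiff.2 ⟨hat, has⟩, h y hy'.1 hy'.2⟩

namespace Tm

/-- the position of a level inside the support -/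
noncomputable def pos (s : Finset Ordinal.{0}) (a : Ordinal.{0}) : ℕ := (s.filter (· < a)).card

theorem pos_strictMonoOn (s : Finset Ordinal.{0}) : StrictMonoOn (pos s) s := by
  intro a ha b _ hab
  refine Finset.card_lt_card ⟨fun x hx => ?_, fun h => ?_⟩
  · rw [Finset.mem_filter] at hx ⊢
    exact ⟨hx.1, hx.2.trans hab⟩
  · have := h (Finset.mem_filter.2 ⟨ha, hab⟩)
    exact lt_irrefl _ (Finset.mem_filter.1 this).2

/-- the sorting key of a term -/
noncomputable def key (t : T) : Ordinal.{0} ×ₗ ℕ ×ₗ Colex (Finset Ordinal.{0}) ×ₗ ℕ :=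
  toLex (t.lev, toLex (t.dep, toLex (toColex t.supp, code (t.map (pos t.supp)))))

theorem key_inj : Function.Injective key := by
  intro t t' h
  simp only [key, toLex_inj, Prod.mk.injEq, toColex_inj] at h
  obtain ⟨-, -, h1, h2⟩ := h
  refine map_inj (f := pos t.supp) ?_ (by rw [code_inj h2, h1])
  rw [← h1, Set.union_self]
  exact (pos_strictMonoOn _).injOn

noncomputable instance : LinearOrder T := LinearOrder.lift' key key_inj

theorem lt_def {t t' : T} : t < t' ↔ key t < key t' := Iff.rfl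

instance : WellFoundedLT T := ⟨InvImage.wf key wellFounded_lt⟩

/-- well-formed terms: parameters have smaller levels -/
def WF : T → Prop
  | mk a _ _ v => ∀ i, (v i).lev < a ∧ WF (v i)

/-- the constructible set named by a term -/
noncomputable def val : T → ZFSet.{0}
  | mk a _ φ v => dset a φ fun i => val (v i)

end Tm

open Classical in
/-- the least name of an element of the set named by `t` (and `t` if that set is empty) -/
noncomputable def S (t : T) : T :=
  if h : {u : T | u.WF ∧ u.val ∈ t.val}.Nonempty then wellFounded_lt.min _ h else t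

/-- the least well-formed term of level `c` -/
noncomputable def first (c : Ordinal.{0}) : T :=
  wellFounded_lt.min {u : T | u.WF ∧ u.lev = c}
    ⟨.mk c 0 (.eq 0 0) Fin.elim0, fun i => i.elim0, rfl⟩

/-- `N` is closed under the rules below `r` -/
def Cl (r : T) (N : Set Ordinal.{0}) : Prop :=
  ∀ t : T, t.WF → t < r → (t.supp : Set Ordinal.{0}) ⊆ N → ((S t).supp : Set Ordinal.{0}) ⊆ N

/-- the closure of `A` under the rules below `r` -/
def hull (r : T) (A : Set Ordinal.{0}) : Set Ordinal.{0} :=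
  {x | ∀ N, Cl r N → A ⊆ N → x ∈ N}

/-- `e` is an embedding on `N` of the rules below `r` into the rules below `r'` -/
def IsEmb (e : Ordinal.{0} → Ordinal.{0}) (N : Set Ordinal.{0}) (r r' : T) : Prop :=
  StrictMonoOn e N ∧ ∀ t : T, t.WF → t < r → (t.supp : Set Ordinal.{0}) ⊆ N →
    t.map e < r' ∧ S (t.map e) = (S t).map e

/-- limit locations -/
def IsLim (r : T) : Prop :=
  (∃ t : T, t.WF ∧ t < r) ∧ ∀ t : T, t.WF → t < r → ∃ t' : T, t'.WF ∧ t < t' ∧ t' < r

/-- the data of a condensation: `c` collapses `H` onto `Iio ρ` with inverse `σ`, and the rules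
below `r` over `H` correspond to the rules below `r'`. -/
structure Cond (r : T) (H : Set Ordinal.{0}) (ρ : Ordinal.{0}) (c σ : Ordinal.{0} → Ordinal.{0})
    (r' : T) : Prop where
  wf : r'.WF
  c_lt : ∀ x ∈ H, c x < ρ
  σ_mem : ∀ x < ρ, σ x ∈ H
  σ_c : ∀ x ∈ H, σ (c x) = x
  c_σ : ∀ x < ρ, c (σ x) = x
  emb_c : IsEmb c H r r'
  emb_σ : IsEmb σ (Set.Iio ρ) r' r
  over : ∀ t : T, t.WF → t < r' → (t.supp : Set Ordinal.{0}) ⊆ Set.Iio ρ
  le : r.WF → r' ≤ r
  lev_le : r'.lev ≤ ρ
  supp_le : (r'.supp : Set Ordinal.{0}) ⊆ Set.Iic ρ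
  fix : ∀ γ, Set.Iio γ ⊆ H → ∀ x < γ, c x = x

/-- the covering property at `κ` -/
def Cov (κ : Cardinal.{0}) : Prop :=
  ∀ (θ : Ordinal.{0}) (Y : Set Ordinal.{0}), Y ⊆ Set.Iio θ → #Y < Cardinal.lift.{1} κ →
    ∃ ν < κ.ord, ∃ (s : T) (p : Finset Ordinal.{0}), s.WF ∧ Y ⊆ hull s (Set.Iio ν ∪ p)

/-- `S` is stationary below `l`, in terms of closure points -/
def Stat (l : Ordinal.{0}) (S : Set Ordinal.{0}) : Prop :=
  ∀ f : Ordinal.{0} → Ordinal.{0}, (∀ β < l, f β < l) →
    ∃ δ ∈ S, 0 < δ ∧ δ < l ∧ ∀ β < δ, f β < δ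

/-- accumulation points -/
def Acc' (C : Set Ordinal.{0}) (β : Ordinal.{0}) : Prop :=
  0 < β ∧ ∀ ξ < β, ∃ γ ∈ C, ξ < γ ∧ γ < β

/-- countable cofinality -/
def CofW (δ : Ordinal.{0}) : Prop :=
  ∃ b : ℕ → Ordinal.{0}, (∀ n, b n < δ) ∧ ∀ ξ < δ, ∃ n, ξ < b n

/-- a coherent sequence of clubs below `l` whose accumulation points avoid `S` -/
structure Coh (l : Ordinal.{0}) (C : Ordinal.{0} → Set Ordinal.{0}) (S : Set Ordinal.{0}) :
    Prop where
  sub : ∀ α < l, Order.IsSuccLimit α → C α ⊆ Set.Iio α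
  unb : ∀ α < l, Order.IsSuccLimit α → Acc' (C α) α
  closed : ∀ α < l, Order.IsSuccLimit α → ∀ β < α, Acc' (C α) β → β ∈ C α
  coh : ∀ α < l, Order.IsSuccLimit α → ∀ β < α, Acc' (C α) β → β ∉ S ∧ C β = C α ∩ Set.Iio β

end Pool.Agent.Lib.Sharp
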