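import Pool.Agent.Lib.Sharp.Iface
import Mathlib.SetTheory.Cardinal.Regular
import Mathlib.SetTheory.Cardinal.Arithmetic

/-!
Diamond on a stationary set of points of countable cofinality (Gregory, Kunen).
-/

namespace Pool.Agent.Lib.Sharp

open Cardinal Set Tm Pool.Agent.Work.MP_667be6_lc

theorem Dia_enum {α : Type 1} {β : Type*} [Nonempty α] (W : Set α) (g : W ↪ β) :
    ∃ e : β → α, ∀ w : W, e (g w) = w :=
  ⟨Function.extend g Subtype.val fun _ => Classical.arbitrary α,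
    fun w => g.injective.extend_apply _ _ w⟩

theorem Dia_card {κ : Cardinal.{0}} {d : Ordinal.{0}} (hd : d < (Order.succ κ).ord) :
    #(Iio d) ≤ Cardinal.lift.{1} κ := by
  rw [mk_Iio_ordinal]
  exact lift_le.2 (Order.lt_succ_iff.1 (lt_ord.1 hd))

theorem Dia_nodes {κ : Cardinal.{0}} (hκ : ℵ₀ ≤ κ) (h2 : 2 ^ κ ≤ Order.succ κ) :
    #{t : Node | t.1 < (Order.succ κ).ord ∧ t.2 ⊆ Iio t.1} ≤
      Cardinal.lift.{1} (Order.succ κ) := by
  have h1 : {t : Node | t.1 < (Order.succ κ).ord ∧ t.2 ⊆ Iio t.1} ⊆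
      ⋃ a : Iio (Order.succ κ).ord, Prod.mk a.1 '' 𝒫 (Iio a.1) := fun t ht =>
    mem_iUnion.2 ⟨⟨t.1, ht.1⟩, t.2, ht.2, rfl⟩
  refine (mk_le_mk_of_subset h1).trans ((mk_iUnion_le _).trans ?_)
  rw [mk_Iio_ordinal, card_ord]
  refine (mul_le_mul_right (ciSup_le' fun a => ?_) _).trans
    (mul_eq_self (aleph0_le_lift.2 (hκ.trans (Order.le_succ κ)))).le
  refine mk_image_le.trans ?_
  rw [mk_powerset]
  refine (power_le_power_left two_ne_zero (Dia_card a.2)).trans ?_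
  rw [← lift_two_power]
  exact lift_le.2 h2

theorem Dia_seq {κ : Cardinal.{0}} (hω : κ ^ ℵ₀ ≤ κ) (d : Ordinal.{0}) :
    ∃ x : κ.out → ℕ → Ordinal.{0}, d < (Order.succ κ).ord →
      ∀ y : ℕ → Ordinal.{0}, (∀ n, y n < d) → ∃ i, x i = y := by
  by_cases hd : d < (Order.succ κ).ord
  · have h1 : #(range fun (z : ℕ → Iio d) n => (z n).1) ≤ Cardinal.lift.{1} #κ.out := by
      refine mk_range_le.trans ?_
      rw [mk_arrow, lift_uzero, mk_out]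
      refine (power_le_power_right (Dia_card hd)).trans ?_
      rw [← lift_power, mk_nat]
      exact lift_le.2 hω
    obtain ⟨g⟩ := lift_mk_le'.1 ((lift_uzero _).trans_le h1)
    obtain ⟨e, he⟩ := Dia_enum _ g
    exact ⟨e, fun _ y hy => ⟨_, he ⟨y, fun n => ⟨y n, hy n⟩, rfl⟩⟩⟩
  · exact ⟨fun _ _ => 0, fun h => absurd h hd⟩

theorem Dia_fam {κ : Cardinal.{0}} (hκ : ℵ₀ ≤ κ) (h2 : 2 ^ κ ≤ Order.succ κ) :
    ∃ e : Ordinal.{0} → κ.out → Set Node, ∀ z : κ.out → Set Node,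
      (∀ i, ∀ t ∈ z i, t.1 < (Order.succ κ).ord ∧ t.2 ⊆ Iio t.1) →
      (∀ i, #(z i) ≤ Cardinal.lift.{1} κ) → ∃ ξ < (Order.succ κ).ord, e ξ = z := by
  let U := {s : Set Node // s ⊆ {t : Node | t.1 < (Order.succ κ).ord ∧ t.2 ⊆ Iio t.1} ∧
    #s ≤ Cardinal.lift.{1} κ}
  have h0 : Order.succ κ ^ κ ≤ Order.succ κ := by
    refine (power_le_power_right (Order.succ_le_of_lt (cantor κ))).trans ?_
    rw [← power_mul, mul_eq_self hκ]
    exact h2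
  have hU : #U ≤ Cardinal.lift.{1} (Order.succ κ) := by
    refine (mk_bounded_subset_le _ _).trans ((power_le_power_right (max_le (Dia_nodes hκ h2)
      (aleph0_le_lift.2 (hκ.trans (Order.le_succ κ))))).trans ?_)
    rw [← lift_power]
    exact lift_le.2 h0
  have h1 : #(range fun (z : κ.out → U) i => (z i).1) ≤ #(Iio (Order.succ κ).ord) := by
    refine mk_range_le.trans ?_
    rw [mk_arrow, lift_uzero, mk_out, mk_Iio_ordinal, card_ord]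
    refine (power_le_power_right hU).trans ?_
    rw [← lift_power]
    exact lift_le.2 h0
  obtain ⟨g⟩ := (le_def _ _).1 h1
  obtain ⟨e, he⟩ := Dia_enum _ (g.trans (Function.Embedding.subtype _))
  exact ⟨e, fun z h h' => ⟨_, (g _).2, he ⟨z, fun i => ⟨z i, h i, h' i⟩, rfl⟩⟩⟩

theorem exists_dia {κ : Cardinal.{0}} (hκ : ℵ₀ ≤ κ) (hω : κ ^ ℵ₀ ≤ κ) (h2 : 2 ^ κ ≤ Order.succ κ)
    {S : Set Ordinal.{0}} (hS : Stat (Order.succ κ).ord S) (hcof : ∀ δ ∈ S, CofW δ) :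
    ∃ G, Dia κ S G := by
  obtain ⟨e, he⟩ := Dia_fam hκ h2
  choose x hx using Dia_seq hω
  by_contra hn
  have h1 : ∀ i : κ.out, ∃ (D : Set Node) (f : Ordinal.{0} → Ordinal.{0}),
      (∀ t ∈ D, t.1 < (Order.succ κ).ord ∧ t.2 ⊆ Iio t.1) ∧
      (∀ β < (Order.succ κ).ord, #{t | t ∈ D ∧ t.1 < β} ≤ Cardinal.lift.{1} κ) ∧
      (∀ β < (Order.succ κ).ord, f β < (Order.succ κ).ord) ∧
      ∀ δ ∈ S, 0 < δ → δ < (Order.succ κ).ord → (∀ β < δ, f β < δ) →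
        ⋃ n, e (x δ i n) i ≠ {t | t ∈ D ∧ t.1 < δ} := fun i => by
    by_contra h
    refine hn ⟨fun δ => ⋃ n, e (x δ i n) i, fun D a b f c => ?_⟩
    by_contra h'
    exact h ⟨D, f, a, b, c, fun δ hδ h0 h1 h2 h3 => h' ⟨δ, ⟨hδ, h3⟩, h0, h1, h2⟩⟩
  choose D f hD hD' hf H using h1
  have h3 : ∀ β, ∃ ξ, β < (Order.succ κ).ord →
      ξ < (Order.succ κ).ord ∧ e ξ = fun i => {t | t ∈ D i ∧ t.1 < β} := fun β => by
    by_cases hβ : β < (Order.succ κ).ord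
    · obtain ⟨ξ, h⟩ := he (fun i => {t | t ∈ D i ∧ t.1 < β}) (fun i t ht => hD i t ht.1)
        fun i => hD' i β hβ
      exact ⟨ξ, fun _ => h⟩
    · exact ⟨0, fun h => absurd h hβ⟩
  choose ξ hξ using h3
  obtain ⟨δ, hδ, h0, hl, hc⟩ := hS (fun β => max (ξ β) (⨆ i, f i β)) fun β hβ =>
    max_lt (hξ β hβ).1 (Ordinal.iSup_lt_of_lt_cof ((mk_out κ).trans_lt
      ((Order.lt_succ κ).trans_eq (isRegular_succ hκ).cof_ord.symm)) fun i => hf i β hβ)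
  obtain ⟨b, hb, hb'⟩ := hcof δ hδ
  obtain ⟨i, hi⟩ := hx δ hl (fun n => ξ (b n)) fun n => (le_max_left _ _).trans_lt (hc _ (hb n))
  refine H i δ hδ h0 hl (fun β hβ => ((Ordinal.le_iSup (fun i => f i β) i).trans
    (le_max_right _ _)).trans_lt (hc β hβ)) ?_
  ext t
  simp only [hi, fun n => (hξ _ ((hb n).trans hl)).2, mem_iUnion, mem_ofPred_eq]
  exact ⟨fun ⟨n, h, h'⟩ => ⟨h, h'.trans (hb n)⟩, fun ⟨h, h'⟩ => (hb' _ h').imp fun _ h' => ⟨h, h'⟩⟩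

end Pool.Agent.Lib.Sharp
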