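import Pool.Agent.Lib.Sharp.Term

/-!
Hulls and embeddings of the term machine.
-/

namespace Pool.Agent.Lib.Sharp

open Pool.Agent.Work.MP_667be6_lc Cardinal Set Tm

variable {r r' r'' : T} {A B N N' : Set Ordinal.{0}} {e e' : Ordinal.{0} → Ordinal.{0}}

theorem subset_hull (r : T) (A : Set Ordinal.{0}) : A ⊆ hull r A := fun _ hx _ _ h => h hx

theorem cl_hull (r : T) (A : Set Ordinal.{0}) : Cl r (hull r A) :=
  fun t ht htr hs _ hx N hN hA => hN t ht htr (fun _ hy => hs hy N hN hA) hx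

theorem hull_subset (hN : Cl r N) (hA : A ⊆ N) : hull r A ⊆ N := fun _ hx => hx N hN hA

theorem Cl.mono (hN : Cl r N) (h : r' ≤ r) : Cl r' N :=
  fun t ht htr => hN t ht (htr.trans_le h)

theorem hull_mono (h : r ≤ r') (hA : A ⊆ B) : hull r A ⊆ hull r' B :=
  hull_subset ((cl_hull r' B).mono h) (hA.trans (subset_hull _ _))

theorem hull_subset_hull (h : r ≤ r') (hA : A ⊆ hull r' B) : hull r A ⊆ hull r' B :=
  hull_subset ((cl_hull r' B).mono h) hA

/-- induction on hulls -/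
theorem hull_induction {P : Ordinal.{0} → Prop} (h0 : ∀ x ∈ A, P x)
    (h1 : ∀ t : T, t.WF → t < r → (t.supp : Set Ordinal.{0}) ⊆ hull r A →
      (∀ x ∈ t.supp, P x) → ∀ x ∈ (S t).supp, P x) : ∀ x ∈ hull r A, P x := by
  have : hull r A ⊆ {x | x ∈ hull r A ∧ P x} := by
    refine hull_subset (fun t ht htr hs x hx => ?_) fun x hx => ⟨subset_hull _ _ hx, h0 x hx⟩
    have hs' : (t.supp : Set Ordinal.{0}) ⊆ hull r A := fun y hy => (hs hy).1
    exact ⟨cl_hull r A t ht htr hs' hx, h1 t ht htr hs' (fun y hy => (hs hy).2) x hx⟩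
  exact fun x hx => (this hx).2

theorem hull_fin {x : Ordinal.{0}} (hx : x ∈ hull r A) :
    ∃ a : Finset Ordinal.{0}, (a : Set Ordinal.{0}) ⊆ A ∧ x ∈ hull r a := by
  classical
  refine hull_induction (P := fun x => ∃ a : Finset Ordinal.{0}, (a : Set Ordinal.{0}) ⊆ A ∧
    x ∈ hull r a) (fun x hx => ⟨{x}, by simpa, subset_hull _ _ (by simp)⟩) ?_ x hx
  intro t ht htr _ h x hx
  choose! a ha hxa using h
  refine ⟨t.supp.biUnion a, by simpa using ha, cl_hull _ _ t ht htr (fun y hy => ?_) hx⟩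
  refine hull_mono le_rfl (fun z hz => ?_) (hxa y hy)
  simp only [Finset.coe_biUnion, mem_iUnion]
  exact ⟨y, hy, hz⟩

theorem hull_fin' {q : Finset Ordinal.{0}} (hq : (q : Set Ordinal.{0}) ⊆ hull r A) :
    ∃ a : Finset Ordinal.{0}, (a : Set Ordinal.{0}) ⊆ A ∧ (q : Set Ordinal.{0}) ⊆ hull r a := by
  classical
  choose! a ha hxa using fun x (hx : x ∈ q) => hull_fin (hq hx)
  refine ⟨q.biUnion a, by simpa using ha, fun y hy => ?_⟩
  refine hull_mono le_rfl (fun z hz => ?_) (hxa y hy)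
  simp only [Finset.coe_biUnion, mem_iUnion]
  exact ⟨y, hy, hz⟩

theorem exists_bound_of_finset {P : Ordinal.{0} → T → Prop} (hr : ∃ t : T, t.WF ∧ t < r)
    (hP : ∀ x t t', t ≤ t' → P x t → P x t') (q : Finset Ordinal.{0})
    (h : ∀ x ∈ q, ∃ t : T, t.WF ∧ t < r ∧ P x t) : ∃ t : T, t.WF ∧ t < r ∧ ∀ x ∈ q, P x t := by
  classical
  induction q using Finset.induction_on with
  | empty => obtain ⟨t, ht, h⟩ := hr; exact ⟨t, ht, h, by simp⟩
  | insert a q _ ih =>
    obtain ⟨t, ht, htr, h1⟩ := ih fun x hx => h x (Finset.mem_insert_of_mem hx)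
    obtain ⟨t', ht', htr', h2⟩ := h a (Finset.mem_insert_self _ _)
    refine ⟨max t t', by rcases max_choice t t' with h | h <;> rwa [h], max_lt htr htr', ?_⟩
    intro x hx
    rcases Finset.mem_insert.1 hx with rfl | hx
    exacts [hP _ _ _ (le_max_right _ _) h2, hP _ _ _ (le_max_left _ _) (h1 x hx)]

/-- continuity of hulls at limit locations -/
theorem hull_cont (hr : IsLim r) {x : Ordinal.{0}} (hx : x ∈ hull r A) :
    ∃ t : T, t.WF ∧ t < r ∧ x ∈ hull t A := by
  refine hull_induction (P := fun x => ∃ t : T, t.WF ∧ t < r ∧ x ∈ hull t A) (fun x hx => ?_) ?_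
    x hx
  · obtain ⟨t, ht, h⟩ := hr.1
    exact ⟨t, ht, h, subset_hull _ _ hx⟩
  intro t ht htr _ h x hx
  obtain ⟨u, hu, hur, h⟩ := exists_bound_of_finset (P := fun x t => x ∈ hull t A) hr.1
    (fun x t t' h => hull_mono h le_rfl (a := x)) t.supp h
  obtain ⟨t', ht', htt', ht'r⟩ := hr.2 t ht htr
  refine ⟨max u t', by rcases max_choice u t' with h | h <;> rwa [h], max_lt hur ht'r, ?_⟩
  exact cl_hull _ _ t ht (htt'.trans_le (le_max_right _ _))
    (fun y hy => hull_mono (le_max_left _ _) le_rfl (h y hy)) hx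

theorem hull_cont' (hr : IsLim r) {q : Finset Ordinal.{0}}
    (hq : (q : Set Ordinal.{0}) ⊆ hull r A) :
    ∃ t : T, t.WF ∧ t < r ∧ (q : Set Ordinal.{0}) ⊆ hull t A :=
  exists_bound_of_finset (P := fun x t => x ∈ hull t A) hr.1
    (fun x _ _ h => hull_mono h le_rfl (a := x)) q fun _ hx => hull_cont hr (hq hx)

/-- if no rule in `[r', r)` applies, the hulls agree -/
theorem hull_subset_of_gap
    (h : ∀ t : T, t.WF → t < r → (t.supp : Set Ordinal.{0}) ⊆ hull r A → t < r') :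
    hull r A ⊆ hull r' A :=
  hull_induction (fun _ hx => subset_hull _ _ hx) fun t ht htr hs h' _ hx =>
    cl_hull r' A t ht (h t ht htr hs) h' hx

theorem hull_subset_union (r : T) (A : Set Ordinal.{0}) : hull r A ⊆ A ∪ Iio r.lev := by
  refine hull_induction (fun _ hx => Or.inl hx) fun t ht htr _ h x hx => ?_
  rcases S_cases t with h' | h'
  · rw [h'] at hx; exact h x hx
  · exact Or.inr (((S_wf ht).le_lev x hx).trans_lt (h'.trans_le (lev_le_of_le htr.le)))

/-- only the part of `A` in a set containing all relevant supports matters -/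
theorem hull_inter {U : Set Ordinal.{0}}
    (hU : ∀ t : T, t.WF → t < r → (t.supp : Set Ordinal.{0}) ⊆ U) :
    hull r A ∩ U ⊆ hull r (A ∩ U) := by
  rintro x ⟨hx, hxU⟩
  revert hxU
  refine hull_induction (P := fun x => x ∈ U → x ∈ hull r (A ∩ U))
    (fun x hx hxU => subset_hull _ _ ⟨hx, hxU⟩) ?_ x hx
  intro t ht htr _ h x hx _
  exact cl_hull _ _ t ht htr (fun y hy => h y hy (hU t ht htr hy)) hx

theorem card_terms_le (A : Set Ordinal.{0}) :
    #{t : T | (t.supp : Set Ordinal.{0}) ⊆ A} ≤ max #A ℵ₀ := by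
  refine le_trans ?_ (Tm.card_le A)
  refine le_trans (mk_le_mk_of_subset ?_) (mk_range_le (f := Tm.map (Subtype.val : A → _)))
  intro t ht
  classical
  have : Nonempty A := ⟨⟨t.lev, ht t.lev_mem_supp⟩⟩
  refine ⟨t.map fun a => if h : a ∈ A then ⟨a, h⟩ else Classical.arbitrary A, ?_⟩
  rw [map_map]
  exact map_eq_self fun a ha => by rw [dif_pos (ht ha)]

theorem card_hull_le' (r : T) (A : Set Ordinal.{0}) : #(hull r A) ≤ max #A ℵ₀ := by
  let F : Finset Ordinal.{0} → Set Ordinal.{0} := fun s =>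
    ⋃ t ∈ {t : T | (t.supp : Set Ordinal.{0}) ⊆ s}, ((S t).supp : Set Ordinal.{0})
  have hF : ∀ s, (F s).Countable := fun s => by
    refine Set.Countable.biUnion ?_ fun t _ => Finset.countable_toSet _
    rw [← le_aleph0_iff_set_countable]
    exact (card_terms_le _).trans (max_le mk_le_aleph0 le_rfl)
  obtain ⟨X, hX₀, hcard, hcl⟩ := exists_closure F hF A
  refine le_trans (mk_le_mk_of_subset (hull_subset (fun t _ _ hs => ?_) hX₀)) hcard
  exact subset_trans (subset_biUnion_of_mem (u := fun t : T => ((S t).supp : Set Ordinal.{0}))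
    (show t ∈ {u : T | (u.supp : Set Ordinal.{0}) ⊆ t.supp} from Subset.rfl)) (hcl t.supp hs)

/-- least locations at which a set is captured are limits -/
theorem isLim_of_min {𝒜 : Set (Set Ordinal.{0})} {s : T}
    (h𝒜 : ∀ A ∈ 𝒜, ∀ q : Finset Ordinal.{0}, A ∪ q ∈ 𝒜) (hB : ∀ A ∈ 𝒜, ¬ B ⊆ A)
    (hs : ∃ A ∈ 𝒜, B ⊆ hull s A)
    (hmin : ∀ t : T, t.WF → t < s → ∀ A ∈ 𝒜, ¬ B ⊆ hull t A) : IsLim s := by
  obtain ⟨A, hA, hs⟩ := hs
  constructor
  · by_contra h
    exact hB A hA (hs.trans (hull_subset (fun t ht hts => (h ⟨t, ht, hts⟩).elim) le_rfl))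
  · intro t ht hts
    by_contra h
    refine hmin t ht hts _ (h𝒜 A hA (S t).supp) (hs.trans (hull_subset ?_ ?_))
    · intro u hu hus hsu
      rcases lt_trichotomy u t with h' | rfl | h'
      · exact cl_hull _ _ u hu h' hsu
      · exact subset_union_right.trans (subset_hull _ _)
      · exact (h ⟨u, hu, h', hus⟩).elim
    · exact subset_union_left.trans (subset_hull _ _)

theorem IsEmb.mono (h : IsEmb e N r r') (hN : N' ⊆ N) : IsEmb e N' r r' :=
  ⟨h.1.mono hN, fun t ht htr hs => h.2 t ht htr (hs.trans hN)⟩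

theorem IsEmb.mono_loc {u u' : T} (h : IsEmb e N r r') (hu : u ≤ r) (hu' : r' ≤ u') :
    IsEmb e N u u' :=
  ⟨h.1, fun t ht htr hs => ⟨(h.2 t ht (htr.trans_le hu) hs).1.trans_le hu',
    (h.2 t ht (htr.trans_le hu) hs).2⟩⟩

theorem IsEmb.restrict {u : T} (h : IsEmb e N r r') (hu : u ≤ r)
    (hs : (u.supp : Set Ordinal.{0}) ⊆ N) : IsEmb e N u (u.map e) :=
  ⟨h.1, fun t ht htr hs' => ⟨map_lt_map (h.1.mono (union_subset hs' hs)) htr,
    (h.2 t ht (htr.trans_le hu) hs').2⟩⟩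

theorem IsEmb.congr (h : IsEmb e N r r') (hN : Cl r N) (he : EqOn e e' N) : IsEmb e' N r r' := by
  refine ⟨h.1.congr he, fun t ht htr hs => ?_⟩
  rw [← map_congr (f := e) fun a ha => he (hs ha),
    ← map_congr (f := e) fun a ha => he (hN t ht htr hs ha)]
  exact h.2 t ht htr hs

theorem IsEmb.comp (h' : IsEmb e' N' r' r'') (h : IsEmb e N r r') (hm : MapsTo e N N') :
    IsEmb (fun a => e' (e a)) N r r'' := by
  refine ⟨h'.1.comp h.1 hm, fun t ht htr hs => ?_⟩
  have h1 := h.2 t ht htr hs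
  have h2 := h'.2 (t.map e) (ht.map (h.1.mono hs)) h1.1
    (by rw [coe_supp_map]; exact (image_mono hs).trans hm.image_subset)
  rw [← map_map e' e, ← map_map e' e, ← h1.2]
  exact h2

theorem isEmb_id (N : Set Ordinal.{0}) (r : T) : IsEmb (fun a => a) N r r :=
  ⟨strictMonoOn_id, fun t _ h _ => by
    rw [map_eq_self fun _ _ => rfl, map_eq_self fun _ _ => rfl]; exact ⟨h, rfl⟩⟩

theorem IsEmb.mapsTo_hull (h : IsEmb e (hull r A) r r') (hN' : Cl r' N') (hA : MapsTo e A N') :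
    MapsTo e (hull r A) N' := by
  refine hull_induction (P := fun x => e x ∈ N') hA fun t ht htr hs hP x hx => ?_
  have h1 := h.2 t ht htr hs
  have := hN' _ (ht.map (h.1.mono hs)) h1.1 (by
    rw [coe_supp_map]; rintro _ ⟨a, ha, rfl⟩; exact hP a ha)
  rw [h1.2, coe_supp_map] at this
  exact this ⟨x, hx, rfl⟩

theorem IsEmb.image_hull (h : IsEmb e N r r') (hN : Cl r N) (hA : A ⊆ N) :
    MapsTo e (hull r A) (hull r' (e '' A)) :=
  (h.mono (hull_subset hN hA)).mapsTo_hull (cl_hull _ _)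
    fun _ hx => subset_hull _ _ (mem_image_of_mem _ hx)

/-- embeddings are determined by their values on generators -/
theorem IsEmb.eqOn_hull (h : IsEmb e (hull r A) r r') (h' : IsEmb e' (hull r A) r r'')
    (hA : EqOn e e' A) : EqOn e e' (hull r A) := by
  refine hull_induction (P := fun x => e x = e' x) hA fun t ht htr hs hP => ?_
  apply eq_of_map_eq
  rw [← (h.2 t ht htr hs).2, ← (h'.2 t ht htr hs).2, map_congr hP]

/-- finite character of the existence of an embedding with given values on generators -/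
theorem exists_emb_of_finite {g : Ordinal.{0} → Ordinal.{0}}
    (h : ∀ a : Finset Ordinal.{0}, (a : Set Ordinal.{0}) ⊆ A →
      ∃ e, IsEmb e (hull r (a ∪ B)) r r' ∧ EqOn e g (a ∪ B)) :
    ∃ e, IsEmb e (hull r (A ∪ B)) r r' ∧ EqOn e g (A ∪ B) := by
  classical
  choose! E hE hEg using h
  have hfin : ∀ q : Finset Ordinal.{0}, (q : Set Ordinal.{0}) ⊆ hull r (A ∪ B) →
      ∃ a : Finset Ordinal.{0}, (a : Set Ordinal.{0}) ⊆ A ∧
        (q : Set Ordinal.{0}) ⊆ hull r (a ∪ B) := by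
    intro q hq
    obtain ⟨a, ha, h⟩ := hull_fin' hq
    refine ⟨a.filter (· ∈ A), fun x hx => (Finset.mem_filter.1 hx).2,
      h.trans (hull_mono le_rfl fun x hx => ?_)⟩
    rcases ha hx with h | h
    exacts [Or.inl (Finset.mem_filter.2 ⟨hx, h⟩), Or.inr h]
  have hcoh : ∀ a a' : Finset Ordinal.{0}, (a : Set Ordinal.{0}) ⊆ A →
      (a' : Set Ordinal.{0}) ⊆ A → ∀ x, x ∈ hull r (a ∪ B) → x ∈ hull r (a' ∪ B) →
      E a x = E a' x := by
    have key : ∀ a a' : Finset Ordinal.{0}, (a' : Set Ordinal.{0}) ⊆ A → a ⊆ a' →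
        EqOn (E a) (E a') (hull r (a ∪ B)) := by
      intro a a' ha' haa'
      have ha : (a : Set Ordinal.{0}) ⊆ A := subset_trans haa' ha'
      have hs : (a : Set Ordinal.{0}) ∪ B ⊆ a' ∪ B := union_subset_union_left _ haa'
      exact (hE a ha).eqOn_hull ((hE a' ha').mono (hull_mono le_rfl hs))
        fun x hx => (hEg a ha hx).trans (hEg a' ha' (hs hx)).symm
    intro a a' ha ha' x hx hx'
    have h2 : ((a ∪ a' : Finset _) : Set Ordinal.{0}) ⊆ A := by
      rw [Finset.coe_union]; exact union_subset ha ha'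
    exact (key a _ h2 Finset.subset_union_left hx).trans
      (key a' _ h2 Finset.subset_union_right hx').symm
  choose! c hc hcx using fun x (hx : x ∈ hull r (A ∪ B)) => hfin {x} (by simpa using hx)
  have hE' : ∀ a : Finset Ordinal.{0}, (a : Set Ordinal.{0}) ⊆ A → ∀ x ∈ hull r (a ∪ B),
      E (c x) x = E a x := by
    intro a ha x hx
    have hx' : x ∈ hull r (A ∪ B) := hull_mono le_rfl (union_subset_union_left _ ha) hx
    exact hcoh _ _ (hc x hx') ha x (hcx x hx' (by simp)) hx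
  refine ⟨fun x => E (c x) x, ⟨fun x hx y hy hxy => ?_, fun t ht htr hs => ?_⟩, fun x hx => ?_⟩
  · obtain ⟨a, ha, h⟩ := hfin {x, y} (by simpa [insert_subset_iff] using ⟨hx, hy⟩)
    have hx' := h (show x ∈ _ by simp)
    have hy' := h (show y ∈ _ by simp)
    simp only [hE' a ha x hx', hE' a ha y hy']
    exact (hE a ha).1 hx' hy' hxy
  · obtain ⟨a, ha, h⟩ := hfin t.supp hs
    rw [map_congr (g := E a) fun x hx => hE' a ha x (h hx),
      map_congr (t := S t) (g := E a) fun x hx => hE' a ha x (cl_hull _ _ t ht htr h hx)]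
    exact (hE a ha).2 t ht htr h
  · rcases hx with hx | hx
    · have h1 : (({x} : Finset _) : Set Ordinal.{0}) ⊆ A := by simpa
      have h2 : x ∈ (({x} : Finset _) : Set Ordinal.{0}) ∪ B := Or.inl (by simp)
      exact (hE' _ h1 x (subset_hull _ _ h2)).trans (hEg _ h1 h2)
    · have h2 : x ∈ (↑(∅ : Finset Ordinal.{0}) : Set Ordinal.{0}) ∪ B := Or.inr hx
      exact (hE' _ (by simp) x (subset_hull _ _ h2)).trans (hEg _ (by simp) h2)

end Pool.Agent.Lib.Sharp
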