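import Pool.Agent.Lib.Sharp.Hull

/-!
Interfaces between the parts of the proof, and simple consequences of condensation.
-/

namespace Pool.Agent.Lib.Sharp

open Cardinal Set Tm

/-- the condensation lemma (proved in `Cond.lean`) -/
def HasCond : Prop :=
  ∀ (r : T) (H : Set Ordinal.{0}) (β : Ordinal.{0}), Cl r H → H ⊆ Iio β →
    ∃ ρ c σ r', Cond r H ρ c σ r'

/-- every ordinal below `κ⁺` is captured by a hull of `κ` and finitely many points -/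
def Capt (κ : Cardinal.{0}) : Prop :=
  ∀ η < (Order.succ κ).ord, ∃ (s : T) (p : Finset Ordinal.{0}), s.WF ∧
    Iio η ⊆ hull s (Iio κ.ord ∪ p)

/-- the raw coherent system read off from the machine -/
def PreCoh (κ : Cardinal.{0}) : Prop :=
  ∃ (D P : Ordinal.{0} → Set Ordinal.{0}) (k : Ordinal.{0} → Ordinal.{0}),
    (∀ β < (Order.succ κ).ord, k β < (Order.succ κ).ord) ∧
    ∀ α < (Order.succ κ).ord, 0 < α → (∀ β < α, k β < α) →
      D α ⊆ Iio α ∧ Acc' (D α) α ∧ (∀ β < α, Acc' (D α) β → D β = D α ∩ Iio β) ∧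
      (∀ ν < κ.ord, #{β | β < α ∧ Acc' (D α) β ∧ β ∈ P ν} < Cardinal.lift.{1} κ) ∧
      (CofW α → ∃ ν < κ.ord, α ∈ P ν)

/-- nodes of sequence trees: a height and the set of coordinates with value one -/
abbrev Node := Ordinal.{0} × Set Ordinal.{0}

/-- a diamond sequence on `S` that guesses sets of nodes with small levels -/
def Dia (κ : Cardinal.{0}) (S : Set Ordinal.{0}) (G : Ordinal.{0} → Set Node) : Prop :=
  ∀ D : Set Node, (∀ t ∈ D, t.1 < (Order.succ κ).ord ∧ t.2 ⊆ Iio t.1) →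
    (∀ β < (Order.succ κ).ord, #{t | t ∈ D ∧ t.1 < β} ≤ Cardinal.lift.{1} κ) →
    Stat (Order.succ κ).ord {δ | δ ∈ S ∧ G δ = {t | t ∈ D ∧ t.1 < δ}}

/-- an abstract tree `N` with a set `Y` of branches (`cone t` = the branches through `t`) -/
structure Good {N : Type 1} [PartialOrder N] {Y : Type} (cone : N → Set Y) : Prop where
  anti : ∀ a b, a ≤ b → cone b ⊆ cone a
  cmp : ∀ a b y, y ∈ cone a → y ∈ cone b → a ≤ b ∨ b ≤ a
  sep : ∀ y y', y ≠ y' → ∃ a, y ∈ cone a ∧ y' ∉ cone a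
  cover : ∀ y, ∃ a, y ∈ cone a
  two : ∀ a, ∃ y ∈ cone a, ∃ y' ∈ cone a, y ≠ y'
  sealed : ∀ D : Set N, IsUpperSet D → (∀ a, ∃ d ∈ D, a ≤ d) →
    ∃ (B : Set N) (h : N → ℕ), IsLowerSet B ∧ MonotoneOn h B ∧
      (∀ a ∉ B, ∃ b ∈ B ∩ D, b ≤ a) ∧
      ∀ y, (∀ a, y ∈ cone a → a ∈ B) → ∀ n, ∃ a, y ∈ cone a ∧ n < h a
  baire : ∀ D : ℕ → Set N, (∀ n, IsUpperSet (D n)) → (∀ n a, ∃ d ∈ D n, a ≤ d) →
    ∃ a, ∀ n, a ∈ D n

namespace Cond
variable {r r' : T} {H : Set Ordinal.{0}} {ρ : Ordinal.{0}} {c σ : Ordinal.{0} → Ordinal.{0}}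

theorem card (h : Cond r H ρ c σ r') : Cardinal.lift.{1} ρ.card = #H := by
  rw [← mk_Iio_ordinal]
  exact mk_congr ⟨fun x => ⟨σ x, h.σ_mem x x.2⟩, fun x => ⟨c x, h.c_lt x x.2⟩,
    fun x => Subtype.ext (h.c_σ x x.2), fun x => Subtype.ext (h.σ_c x x.2)⟩

theorem cl (h : Cond r H ρ c σ r') : Cl r' (Iio ρ) := fun t ht htr _ =>
  (S_wf ht).supp_lt ((lev_le_of_le (S_le t)).trans_lt (h.over t ht htr t.lev_mem_supp))

theorem c_hull (h : Cond r H ρ c σ r') (hH : Cl r H) {A : Set Ordinal.{0}} (hA : A ⊆ H) :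
    MapsTo c (hull r A) (hull r' (c '' A)) := h.emb_c.image_hull hH hA

theorem σ_hull (h : Cond r H ρ c σ r') {A : Set Ordinal.{0}} (hA : A ⊆ Iio ρ) :
    MapsTo σ (hull r' A) (hull r (σ '' A)) := h.emb_σ.image_hull h.cl hA

theorem σ_fix (h : Cond r H ρ c σ r') {γ : Ordinal.{0}} (hγ : Iio γ ⊆ H) {x : Ordinal.{0}}
    (hx : x < γ) : x < ρ ∧ σ x = x := by
  have h1 := h.fix γ hγ x hx
  exact ⟨h1 ▸ h.c_lt x (hγ hx), by simpa [h1] using h.σ_c x (hγ hx)⟩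

theorem le_ρ (h : Cond r H ρ c σ r') {γ : Ordinal.{0}} (hγ : Iio γ ⊆ H) : γ ≤ ρ :=
  le_of_forall_lt fun _ hx => (h.σ_fix hγ hx).1

/-- the collapse of a hull is the hull of the collapsed generators -/
theorem Iio_subset_hull {A : Set Ordinal.{0}} (h : Cond r (hull r A) ρ c σ r') :
    Iio ρ ⊆ hull r' (c '' A) := fun x hx => by
  have := h.c_hull (cl_hull r A) (subset_hull r A) (h.σ_mem x hx)
  rwa [h.c_σ x hx] at this

theorem map_σ_c (h : Cond r H ρ c σ r') {t : T} (ht : (t.supp : Set Ordinal.{0}) ⊆ H) :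
    (t.map c).map σ = t := by
  rw [map_map]; exact map_eq_self fun a ha => h.σ_c a (ht ha)

theorem map_c_σ (h : Cond r H ρ c σ r') {t : T} (ht : (t.supp : Set Ordinal.{0}) ⊆ Iio ρ) :
    (t.map σ).map c = t := by
  rw [map_map]; exact map_eq_self fun a ha => h.c_σ a (ht ha)

theorem supp_σ (h : Cond r H ρ c σ r') {t : T} (ht : (t.supp : Set Ordinal.{0}) ⊆ Iio ρ) :
    ((t.map σ).supp : Set Ordinal.{0}) ⊆ H := by
  rw [coe_supp_map]; rintro _ ⟨a, ha, rfl⟩; exact h.σ_mem a (ht ha)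

theorem supp_c (h : Cond r H ρ c σ r') {t : T} (ht : (t.supp : Set Ordinal.{0}) ⊆ H) :
    ((t.map c).supp : Set Ordinal.{0}) ⊆ Iio ρ := by
  rw [coe_supp_map]; rintro _ ⟨a, ha, rfl⟩; exact h.c_lt a (ht ha)

end Cond

end Pool.Agent.Lib.Sharp
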