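import Pool.Agent.Lib.Sharp.Iface

/-!
The limit lemma: a directed family of closed sets, mapped compatibly onto an initial segment of
the ordinals, is mapped elementarily, and the maps commute with `S`.
-/

namespace Pool.Agent.Lib.Sharp

open Pool.Agent.Work.MP_667be6_lc Cardinal Set Tm

/-- extension of a renaming of variables under a binder -/
def up {n m : ℕ} (g : Fin n → Fin m) : Fin (n + 1) → Fin (m + 1) :=
  Fin.cases 0 fun i => (g i).succ

/-- renaming of variables -/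
def rename : {n m : ℕ} → (Fin n → Fin m) → Fml n → Fml m
  | _, _, g, .mem i j => .mem (g i) (g j)
  | _, _, g, .eq i j => .eq (g i) (g j)
  | _, _, g, .neg φ => .neg (rename g φ)
  | _, _, g, .and φ ψ => .and (rename g φ) (rename g ψ)
  | _, _, g, .ex φ => .ex (rename (up g) φ)

theorem cons_up {n m : ℕ} (g : Fin n → Fin m) (a : ZFSet.{0}) (w : Fin m → ZFSet.{0}) :
    (fun i => (Fin.cons a w : Fin (m + 1) → ZFSet.{0}) (up g i)) =
      Fin.cons a fun i => w (g i) := by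
  funext i
  refine Fin.cases ?_ (fun i => ?_) i <;> simp [up]

theorem sat_rename {M : ZFSet.{0}} {n : ℕ} (φ : Fml n) {m : ℕ} (g : Fin n → Fin m)
    (w : Fin m → ZFSet.{0}) : Sat M (rename g φ) w ↔ Sat M φ fun i => w (g i) := by
  induction φ generalizing m with
  | mem i j => rfl
  | eq i j => rfl
  | neg φ ih => exact not_congr (ih g w)
  | and φ ψ ih ih' => exact and_congr (ih g w) (ih' g w)
  | ex φ ih =>
    simp only [rename, sat_ex, ih, cons_up]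

/-- `∀ x, (φ x ↔ ψ x)` -/
def allIff {n : ℕ} (φ ψ : Fml (n + 1)) : Fml n :=
  .and (.neg (.ex (.and φ (.neg ψ)))) (.neg (.ex (.and ψ (.neg φ))))

theorem sat_allIff {M : ZFSet.{0}} {n : ℕ} {φ ψ : Fml (n + 1)} {w : Fin n → ZFSet.{0}} :
    Sat M (allIff φ ψ) w ↔ ∀ a ∈ M, Sat M φ (Fin.cons a w) ↔ Sat M ψ (Fin.cons a w) := by
  simp only [allIff, sat_and, sat_neg, sat_ex, not_exists, not_and, not_not]
  exact ⟨fun h a ha => ⟨h.1 a ha, h.2 a ha⟩, fun h => ⟨fun a ha => (h a ha).1,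
    fun a ha => (h a ha).2⟩⟩

/-- equality of two definable sets -/
def eqF {n m : ℕ} (φ : Fml (n + 1)) (ψ : Fml (m + 1)) : Fml (n + m) :=
  allIff (rename (up (Fin.castAdd m)) φ) (rename (up (Fin.natAdd n)) ψ)

theorem sat_eqF {γ : Ordinal.{0}} {n m : ℕ} (φ : Fml (n + 1)) (ψ : Fml (m + 1))
    (w : Fin (n + m) → ZFSet.{0}) : Sat (L γ) (eqF φ ψ) w ↔
      dset γ φ (fun i => w (Fin.castAdd m i)) = dset γ ψ fun i => w (Fin.natAdd n i) := by
  simp only [eqF, sat_allIff, sat_rename, cons_up, ZFSet.ext_iff, mem_dset]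
  exact forall_congr' fun a => by tauto

/-- membership of a definable set in another one -/
def memF {n m : ℕ} (φ : Fml (n + 1)) (ψ : Fml (m + 1)) : Fml (n + m) :=
  .ex (.and (allIff (.mem 0 1) (rename (up fun i => (Fin.castAdd m i).succ) φ))
    (rename (up (Fin.natAdd n)) ψ))

theorem sat_memF {γ : Ordinal.{0}} {n m : ℕ} (φ : Fml (n + 1)) (ψ : Fml (m + 1))
    (w : Fin (n + m) → ZFSet.{0}) : Sat (L γ) (memF φ ψ) w ↔
      dset γ φ (fun i => w (Fin.castAdd m i)) ∈ dset γ ψ fun i => w (Fin.natAdd n i) := by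
  simp only [memF, sat_ex, sat_and, sat_allIff, sat_rename, cons_up, sat_mem, Fin.cons_succ,
    Fin.cons_zero, Fin.cons_one]
  constructor
  · rintro ⟨y, hy, h1, h2⟩
    have : dset γ φ (fun i => w (Fin.castAdd m i)) = y := by
      ext a
      rw [mem_dset]
      exact ⟨fun h => (h1 a h.1).2 h.2, fun h => ⟨L_trans hy h, (h1 a (L_trans hy h)).1 h⟩⟩
    rw [this, mem_dset]
    exact ⟨hy, h2⟩
  · intro h
    rw [mem_dset] at h
    exact ⟨_, h.1, fun a ha => by rw [mem_dset]; tauto, h.2⟩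

/-- a parameter below `γ` over `N` -/
def Arg (N : Set Ordinal.{0}) (γ : Ordinal.{0}) (u : T) : Prop :=
  u.WF ∧ u.lev < γ ∧ (u.supp : Set Ordinal.{0}) ⊆ N

/-- `τ` preserves `φ` at level `γ` for parameters over `N` -/
def El (N : Set Ordinal.{0}) (τ : Ordinal.{0} → Ordinal.{0}) (γ : Ordinal.{0}) {n : ℕ}
    (φ : Fml n) : Prop :=
  ∀ v : Fin n → T, (∀ k, Arg N γ (v k)) →
    (Sat (L γ) φ (fun k => (v k).val) ↔ Sat (L (τ γ)) φ fun k => ((v k).map τ).val)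

variable {N : Set Ordinal.{0}} {τ : Ordinal.{0} → Ordinal.{0}} {γ : Ordinal.{0}}

theorem Arg.map {u : T} (h : Arg N γ u) (hτ : StrictMonoOn τ N) (hγ : γ ∈ N) :
    (u.map τ).WF ∧ (u.map τ).lev < τ γ :=
  ⟨h.1.map (hτ.mono h.2.2), by rw [lev_map]; exact hτ (h.2.2 u.lev_mem_supp) hγ h.2.1⟩

theorem present (hτ : StrictMonoOn τ N) (hγ : γ ∈ N) {u : T} (hu : u.WF) (hl : u.lev ≤ γ)
    (hs : (u.supp : Set Ordinal.{0}) ⊆ N) :
    ∃ (n : ℕ) (φ : Fml (n + 1)) (v : Fin n → T), (∀ k, Arg N γ (v k)) ∧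
      u.val = dset γ φ (fun k => (v k).val) ∧
      (u.map τ).val = dset (τ γ) φ fun k => ((v k).map τ).val := by
  rcases hl.eq_or_lt with hl | hl
  · obtain ⟨a, n, φ, v⟩ := u
    obtain rfl : a = γ := hl
    exact ⟨n, φ, v, fun k => ⟨(hu k).2, (hu k).1, (supp_arg k).trans hs⟩, rfl, rfl⟩
  · have ha : Arg N γ u := ⟨hu, hl, hs⟩
    have h1 := dset_fmem (L_trans (hu.val_mem hl))
    have h2 := dset_fmem (L_trans ((ha.map hτ hγ).1.val_mem (ha.map hτ hγ).2))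
    refine ⟨1, fmem, fun _ => u, fun _ => ha, ?_, ?_⟩
    · rw [← h1]; congr 1; funext i; simp
    · rw [← h2]; congr 1; funext i; simp

theorem atom (hτ : StrictMonoOn τ N) (hγ : γ ∈ N) (h : ∀ (n : ℕ) (φ : Fml n), El N τ γ φ)
    {u u' : T} (hu : u.WF) (hl : u.lev ≤ γ) (hs : (u.supp : Set Ordinal.{0}) ⊆ N)
    (hu' : u'.WF) (hl' : u'.lev ≤ γ) (hs' : (u'.supp : Set Ordinal.{0}) ⊆ N) :
    (u.val ∈ u'.val ↔ (u.map τ).val ∈ (u'.map τ).val) ∧
      (u.val = u'.val ↔ (u.map τ).val = (u'.map τ).val) := by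
  obtain ⟨n, φ, v, hv, h1, h2⟩ := present hτ hγ hu hl hs
  obtain ⟨m, ψ, v', hv', h1', h2'⟩ := present hτ hγ hu' hl' hs'
  have ha : ∀ k, Arg N γ (Fin.append v v' k) := fun k => by
    refine Fin.addCases (fun k => ?_) (fun k => ?_) k
    · rw [Fin.append_left]; exact hv k
    · rw [Fin.append_right]; exact hv' k
  have e1 := h _ (memF φ ψ) _ ha
  have e2 := h _ (eqF φ ψ) _ ha
  simp only [sat_memF, sat_eqF, Fin.append_left, Fin.append_right] at e1 e2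
  rw [h1, h2, h1', h2']
  exact ⟨e1, e2⟩

theorem El.mem_val {n : ℕ} {φ : Fml (n + 1)} (h : El N τ γ φ) (hτ : StrictMonoOn τ N)
    (hγ : γ ∈ N) {v : Fin n → T} (hv : ∀ k, Arg N γ (v k)) {u : T} (hu : Arg N γ u) :
    u.val ∈ (Tm.mk γ n φ v).val ↔ (u.map τ).val ∈ ((Tm.mk γ n φ v).map τ).val := by
  have := h (Fin.cons u v) fun k => Fin.cases hu hv k
  have e1 : (fun k => ((Fin.cons u v : Fin (n + 1) → T) k).val) =
      Fin.cons u.val fun k => (v k).val := by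
    funext k; exact Fin.cases rfl (fun _ => rfl) k
  have e2 : (fun k => (((Fin.cons u v : Fin (n + 1) → T) k).map τ).val) =
      Fin.cons (u.map τ).val fun k => ((v k).map τ).val := by
    funext k; exact Fin.cases rfl (fun _ => rfl) k
  rw [e1, e2] at this
  simp only [Tm.val, Tm.map, mem_dset]
  exact and_congr (iff_of_true (hu.1.val_mem hu.2.1)
    ((hu.map hτ hγ).1.val_mem (hu.map hτ hγ).2)) this

/-- a directed family of closed sets with compatible maps onto an initial segment -/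
structure Sys {ι : Type*} (N : ι → Set Ordinal.{0}) (r : ι → T)
    (τ : ι → Ordinal.{0} → Ordinal.{0}) : Prop where
  cl : ∀ i, Cl (r i) (N i)
  mono : ∀ i, StrictMonoOn (τ i) (N i)
  dir : ∀ i, ∀ x ∈ N i, ∀ b : Finset Ordinal.{0}, (∀ ξ ∈ b, ξ < τ i x) →
    ∃ j e, IsEmb e (N i) (r i) (r j) ∧ MapsTo e (N i) (N j) ∧ (∀ y ∈ N i, τ j (e y) = τ i y) ∧
      (b : Set Ordinal.{0}) ⊆ τ j '' N j

/-- the rules of level `γ` and depth below `d` are available -/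
def Ok (N : Set Ordinal.{0}) (r : T) (γ : Ordinal.{0}) (d : ℕ) : Prop :=
  ∃ t : T, t.WF ∧ t < r ∧ (t.supp : Set Ordinal.{0}) ⊆ N ∧ t.lev = γ ∧ d ≤ t.dep

theorem Ok.mem {r : T} {d : ℕ} (h : Ok N r γ d) : γ ∈ N := by
  obtain ⟨t, -, -, hs, rfl, -⟩ := h
  exact hs t.lev_mem_supp

theorem Ok.mono {r : T} {d d' : ℕ} (h : Ok N r γ d) (hd : d' ≤ d) : Ok N r γ d' := by
  obtain ⟨t, h1, h2, h3, h4, h5⟩ := h
  exact ⟨t, h1, h2, h3, h4, hd.trans h5⟩

theorem exists_depth (d : ℕ) : ∃ φ : Fml (0 + 1), depth φ = d := by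
  induction d with
  | zero => exact ⟨.eq 0 0, rfl⟩
  | succ d ih => obtain ⟨φ, rfl⟩ := ih; exact ⟨.neg φ, rfl⟩

theorem ok_of_lt {r : T} (hγ : γ ∈ N) (h : γ < r.lev) (d : ℕ) : Ok N r γ d := by
  obtain ⟨φ, rfl⟩ := exists_depth d
  refine ⟨.mk γ 0 φ Fin.elim0, fun i => i.elim0, lt_of_lev_lt h, fun b hb => ?_, rfl, le_rfl⟩
  rcases mem_supp.1 hb with rfl | ⟨i, -⟩
  exacts [hγ, i.elim0]

theorem mk_good {n : ℕ} (φ : Fml (n + 1)) {v : Fin n → T} (hγ : γ ∈ N)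
    (hv : ∀ k, Arg N γ (v k)) :
    (Tm.mk γ n φ v).WF ∧ ((Tm.mk γ n φ v).supp : Set Ordinal.{0}) ⊆ N := by
  refine ⟨fun k => ⟨(hv k).2.1, (hv k).1⟩, fun b hb => ?_⟩
  rcases mem_supp.1 hb with rfl | ⟨i, hi⟩
  exacts [hγ, (hv i).2.2 hi]

namespace Sys
variable {ι : Type*} {N : ι → Set Ordinal.{0}} {r : ι → T} {τ : ι → Ordinal.{0} → Ordinal.{0}}

theorem pull (h : Sys N r τ) {i : ι} {n : ℕ} {φ : Fml (n + 1)} {v : Fin n → T}
    (hok : Ok (N i) (r i) γ (depth φ)) (hv : ∀ k, Arg (N i) γ (v k))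
    (hEl : ∀ j γ', τ j γ' = τ i γ → Ok (N j) (r j) γ' (depth φ) → El (N j) (τ j) γ' φ)
    {u : T} (hu : u.WF) (hl : u.lev < τ i γ) (hm : u.val ∈ ((Tm.mk γ n φ v).map (τ i)).val) :
    ∃ j e, ∃ u' : T, IsEmb e (N i) (r i) (r j) ∧ MapsTo e (N i) (N j) ∧
      (∀ y ∈ N i, τ j (e y) = τ i y) ∧ u'.WF ∧ (u'.supp : Set Ordinal.{0}) ⊆ N j ∧
      u'.map (τ j) = u ∧ u'.val ∈ ((Tm.mk γ n φ v).map e).val := by
  obtain ⟨j, e, he, hm', hc, hb⟩ := h.dir i γ hok.mem u.supp (hu.supp_lt hl)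
  obtain ⟨u', hs', rfl⟩ := exists_map_eq hb
  have hw : u'.WF := hu.of_map ((h.mono j).mono hs')
  refine ⟨j, e, u', he, hm', hc, hw, hs', rfl, ?_⟩
  have hγ := hok.mem
  have hok' : Ok (N j) (r j) (e γ) (depth φ) := by
    obtain ⟨t, h1, h2, h3, h4, h5⟩ := hok
    refine ⟨t.map e, h1.map (he.1.mono h3), (he.2 t h1 h2 h3).1, ?_, by simp [h4], by simpa⟩
    rw [coe_supp_map]; exact (image_mono h3).trans hm'.image_subset
  have hl' : u'.lev < e γ := by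
    rw [lev_map, ← hc γ hγ] at hl
    exact ((h.mono j).lt_iff_lt (hs' u'.lev_mem_supp) (hm' hγ)).1 hl
  have hv' : ∀ k, Arg (N j) (e γ) ((v k).map e) := fun k =>
    ⟨((hv k).map he.1 hγ).1, ((hv k).map he.1 hγ).2, by
      rw [coe_supp_map]; exact (image_mono (hv k).2.2).trans hm'.image_subset⟩
  refine ((hEl j (e γ) (hc γ hγ) hok').mem_val (h.mono j) (hm' hγ) hv' ⟨hw, hl', hs'⟩).2 ?_
  have : (Tm.mk (e γ) n φ fun k => (v k).map e).map (τ j) = (Tm.mk γ n φ v).map (τ i) :=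
    (map_map (τ j) e (Tm.mk γ n φ v)).trans
      (map_congr fun a ha => hc a ((mk_good φ hγ hv).2 ha))
  rwa [this]

theorem el (h : Sys N r τ) (ξ : Ordinal.{0}) : ∀ {n : ℕ} (φ : Fml n) (i : ι) (γ : Ordinal.{0}),
    τ i γ = ξ → Ok (N i) (r i) γ (depth φ) → El (N i) (τ i) γ φ := by
  induction ξ using WellFoundedLT.induction with
  | ind ξ ih =>
  have hat : ∀ i γ d, τ i γ = ξ → Ok (N i) (r i) γ d → ∀ u u', Arg (N i) γ u → Arg (N i) γ u' →
      (u.val ∈ u'.val ↔ (u.map (τ i)).val ∈ (u'.map (τ i)).val) ∧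
      (u.val = u'.val ↔ (u.map (τ i)).val = (u'.map (τ i)).val) := by
    intro i γ d hξ hok u u' hu hu'
    have hm : max u.lev u'.lev ∈ N i := by
      rcases max_choice u.lev u'.lev with h | h <;> rw [h]
      exacts [hu.2.2 u.lev_mem_supp, hu'.2.2 u'.lev_mem_supp]
    have hlt : max u.lev u'.lev < γ := max_lt hu.2.1 hu'.2.1
    refine atom (h.mono i) hm (fun n φ => ih _ (hξ ▸ h.mono i hm hok.mem hlt) φ i _ rfl ?_)
      hu.1 (le_max_left _ _) hu.2.2 hu'.1 (le_max_right _ _) hu'.2.2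
    obtain ⟨t, -, h2, -, h4, -⟩ := hok
    exact ok_of_lt hm (hlt.trans_le (h4 ▸ lev_le_of_le h2.le)) _
  intro n φ
  induction φ with
  | mem a b => exact fun i γ hξ hok v hv => (hat i γ _ hξ hok _ _ (hv a) (hv b)).1
  | eq a b => exact fun i γ hξ hok v hv => (hat i γ _ hξ hok _ _ (hv a) (hv b)).2
  | neg φ ihφ =>
    exact fun i γ hξ hok v hv => not_congr (ihφ i γ hξ (hok.mono (Nat.le_succ _)) v hv)
  | and φ ψ ihφ ihψ =>
    exact fun i γ hξ hok v hv => and_congr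
      (ihφ i γ hξ (hok.mono ((le_max_left _ _).trans (Nat.le_succ _))) v hv)
      (ihψ i γ hξ (hok.mono ((le_max_right _ _).trans (Nat.le_succ _))) v hv)
  | @ex n φ ihφ =>
    intro i γ hξ hok v hv
    have hγ := hok.mem
    have hok' : Ok (N i) (r i) γ (depth φ) := hok.mono (Nat.le_succ _)
    obtain ⟨hw, hs⟩ := mk_good φ hγ hv
    have hlt : Tm.mk γ n φ v < r i := by
      obtain ⟨t, -, h2, -, h4, h5⟩ := hok
      exact (lt_of_dep_lt (t := Tm.mk γ n φ v) h4.symm h5).trans h2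
    simp only [sat_ex, ← mem_dset]
    constructor
    · rintro ⟨a, ha⟩
      obtain ⟨h1, h2, h3, -⟩ := S_spec (t := Tm.mk γ n φ v) ha
      exact ⟨_, ((ihφ i γ hξ hok').mem_val (h.mono i) hγ hv
        ⟨h1, h3, h.cl i _ hw hlt hs⟩).1 h2⟩
    · rintro ⟨b, hb⟩
      obtain ⟨u, hu, hl, rfl⟩ := exists_val (dset_subset _ _ hb)
      obtain ⟨j, e, u', he, -, -, -, -, -, hm⟩ := h.pull hok' hv
        (fun j γ' h1 h2 => ihφ j γ' (h1.trans hξ) h2) hu hl hb
      by_contra hn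
      have h1 : S (Tm.mk γ n φ v) = Tm.mk γ n φ v := S_of_empty fun x hx => hn ⟨x, hx⟩
      have h2 := (he.2 _ hw hlt hs).2
      rw [h1] at h2
      exact S_eq_iff.1 h2 _ hm

theorem S_map (h : Sys N r τ) (i : ι) {t : T} (hw : t.WF) (hlt : t < r i)
    (hs : (t.supp : Set Ordinal.{0}) ⊆ N i) : S (t.map (τ i)) = (S t).map (τ i) := by
  obtain ⟨γ, n, φ, v⟩ := t
  have hok : Ok (N i) (r i) γ (depth φ) := ⟨_, hw, hlt, hs, rfl, le_rfl⟩
  have hv : ∀ k, Arg (N i) γ (v k) := fun k => ⟨(hw k).2, (hw k).1, (supp_arg k).trans hs⟩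
  have hpull := fun (u : T) (hu : u.WF) (hl : u.lev < τ i γ) =>
    h.pull hok hv (fun j γ' h1 h2 => h.el _ φ j γ' h1 h2) hu hl
  by_cases hx : ∃ x, x ∈ (Tm.mk γ n φ v).val
  · obtain ⟨x, hx⟩ := hx
    obtain ⟨h1, h2, h3, -⟩ := S_spec hx
    have ha : Arg (N i) γ (S (Tm.mk γ n φ v)) := ⟨h1, h3, h.cl i _ hw hlt hs⟩
    have h4 := ((h.el _ φ i γ rfl hok).mem_val (h.mono i) hok.mem hv ha).1 h2
    obtain ⟨g1, g2, g3, g4⟩ := S_spec h4
    refine le_antisymm (g4 _ (ha.map (h.mono i) hok.mem).1 h4) ?_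
    obtain ⟨j, e, u', he, hm, hc, hw', hs', hu', hm'⟩ := hpull _ g1 g3 g2
    have k1 := (S_spec hm').2.2.2 u' hw' hm'
    rw [(he.2 _ hw hlt hs).2] at k1
    have k2 := map_le_map (f := τ j) ((h.mono j).mono (union_subset (by
      rw [coe_supp_map]; exact (image_mono ha.2.2).trans hm.image_subset) hs')) k1
    rwa [hu', map_map, map_congr fun a ha' => hc a (ha.2.2 ha')] at k2
  · have h1 : S (Tm.mk γ n φ v) = Tm.mk γ n φ v := S_of_empty fun x h => hx ⟨x, h⟩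
    rw [h1]
    refine S_of_empty fun b hb => ?_
    obtain ⟨u, hu, hl, rfl⟩ := exists_val (val_subset _ hb)
    obtain ⟨j, e, u', he, -, -, -, -, -, hm⟩ := hpull u hu hl hb
    have h2 := (he.2 _ hw hlt hs).2
    rw [h1] at h2
    exact S_eq_iff.1 h2 _ hm

end Sys

end Pool.Agent.Lib.Sharp
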