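import Pool.Agent.Lib.Sharp.Cover
import Pool.Agent.Lib.Sharp.Card

/-!
If `0♯` does not exist, the singular cardinals hypothesis holds at strong limits.
-/

namespace Pool.Agent.Lib.Sharp

open Cardinal

theorem aleph0_lt_of_singular {κ : Cardinal.{0}} (hκ : κ.IsStrongLimit) (hs : κ.ord.cof < κ) :
    ℵ₀ < κ := by
  refine hκ.aleph0_le.lt_of_ne ?_
  rintro rfl
  rw [isRegular_aleph0.cof_ord] at hs
  exact lt_irrefl _ hs

theorem sch (hz : ¬ ZeroSharp) {κ : Cardinal.{0}} (hκ : κ.IsStrongLimit) (hs : κ.ord.cof < κ) :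
    2 ^ κ = Order.succ κ :=
  le_antisymm (two_pow_le_of_cov hasCond hκ hs (cov hz hκ (aleph0_lt_of_singular hκ hs)))
    (Order.succ_le_of_lt (cantor κ))

theorem zeroSharp_of_polarized {κ : Cardinal.{0}} (hκ : κ.IsStrongLimit) (hs : κ.ord.cof < κ)
    (h : ∀ μ : Cardinal.{0}, κ < μ → μ ≤ 2 ^ κ → ∀ c : μ.out × κ.out → Bool,
      ∃ (A : Set μ.out) (B : Set κ.out) (i : Bool), #A = μ ∧ #B = κ ∧
        ∀ a ∈ A, ∀ b ∈ B, c (a, b) = i) : ZeroSharp := by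
  by_contra hz
  obtain ⟨c, hc⟩ := ehr hκ.aleph0_le (sch hz hκ hs).le
  obtain ⟨A, B, i, hA, hB, h⟩ := h _ (Order.lt_succ κ) (Order.succ_le_of_lt (cantor κ)) c
  obtain ⟨a, ha, b, hb, h'⟩ := hc A B hA hB i
  exact h' (h a ha b hb)

end Pool.Agent.Lib.Sharp
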