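import Pool.Agent.Lib.Sharp.Sq1A

/-!
The coherent system read off from the machine.
-/

namespace Pool.Agent.Lib.Sharp

open Cardinal Set Tm Pool.Agent.Work.MP_667be6_lc

namespace Sq1

variable {m a b x ν : Ordinal.{0}} {r s t : T} {p q : Finset Ordinal.{0}} {A : Set Ordinal.{0}}
  {μ : Cardinal.{1}}

instance nonemptyT : Nonempty T := ⟨first 0⟩

theorem small_union (hμ : ℵ₀ < μ) (h : #A < μ) (p : Finset Ordinal.{0}) :
    #(A ∪ p : Set Ordinal.{0}) < μ :=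
  (mk_union_le _ _).trans_lt (add_lt_of_lt hμ.le h (p.finite_toSet.lt_aleph0.trans hμ))

theorem small_H (hμ : ℵ₀ < μ) (h : Cardinal.lift.{1} m.card < μ) : #(H m r p) < μ :=
  (card_hull_le' _ _).trans_lt (max_lt (small_union hμ (by rwa [mk_Iio_ordinal]) p) hμ)

theorem fact1 (hc : HasCond) {κ : Cardinal.{0}} (hκ : ℵ₀ ≤ κ) (hA : Capt κ)
    (hb : b < (Order.succ κ).ord) :
    ∃ s p, IsS κ.ord b s ∧ IsP κ.ord s p ∧ s.lev < (Order.succ κ).ord := by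
  obtain ⟨s, ⟨h1, p, hp⟩, h2⟩ := wellFounded_lt.has_min
    {s : T | s.WF ∧ ∃ p, Iio b ⊆ H κ.ord s p} (by
      obtain ⟨s, p, h⟩ := hA b hb
      exact ⟨s, h.1, p, h.2⟩)
  obtain ⟨ρ, c, σ, s', h⟩ := exists_cond hc κ.ord s p
  obtain rfl : s' = s := (h.le h1).antisymm (not_lt.1
    (h2 s' ⟨h.wf, _, (Iio_subset_Iio (h.le_ρ hp)).trans (cond_Iio h)⟩))
  obtain ⟨q, hq⟩ := exists_isP ((cond_U h).trans (cond_Iio h))
  refine ⟨s', q, ⟨h1, ⟨p, hp⟩, fun t ht h3 p h4 => h2 t ⟨ht, p, h4⟩ h3⟩, hq,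
    h.lev_le.trans_lt (lt_ord.2 ?_)⟩
  rw [← lift_lt.{0, 1}, h.card]
  refine small_H (by simpa using hκ) ?_
  rw [card_ord, lift_lt]
  exact Order.lt_succ κ

theorem IsS.isLim (hs : IsS m a s) (ha : Lim m a) : IsLim s := by
  refine isLim_of_min (𝒜 := {A | ∃ q : Finset Ordinal.{0}, A = Iio m ∪ q}) (B := Iio a) ?_ ?_ ?_ ?_
  · rintro _ ⟨p, rfl⟩ q
    exact ⟨p ∪ q, by rw [Finset.coe_union, union_assoc]⟩
  · rintro _ ⟨p, rfl⟩ h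
    exact ha.nc ha.1 (h.trans subset_union_left)
  · obtain ⟨p, hp⟩ := hs.2.1
    exact ⟨_, ⟨p, rfl⟩, hp⟩
  · rintro t ht h _ ⟨p, rfl⟩
    exact hs.2.2 t ht h p

theorem IsS.le_lev (hs : IsS m a s) (ha : Lim m a) : a ≤ s.lev :=
  hs.2.1.elim fun _ h => ha.le_lev h

/-- the situation at a closure point -/
structure Ctx (m a : Ordinal.{0}) (s : T) (p : Finset Ordinal.{0}) : Prop where
  lim : Lim m a
  isS : IsS m a s
  isP : IsP m s p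
  low : ∀ ξ < a, ∃ (t : T) (q : Finset Ordinal.{0}), t.WF ∧ t.lev < a ∧ Iio (Order.succ ξ) ⊆ H m t q

namespace Ctx
variable (h : Ctx m a s p)
include h

theorem cap : Iio a ⊆ H m s p := (lev_U (h.isS.le_lev h.lim)).trans h.isP.1

theorem below {ξ : Ordinal.{0}} (hξ : ξ < a) :
    ∃ r : T, r.WF ∧ r < s ∧ Iio (Order.succ ξ) ⊆ H m r p := by
  obtain ⟨t, q, h1, h2, h3⟩ := h.low ξ hξ
  have h4 := h.isS.le_lev h.lim
  have h5 := lt_of_lev_lt (h2.trans_le h4)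
  obtain ⟨u, u1, u2, u3⟩ := absorb (h.isS.isLim h.lim) ((cut_sub (p := q)).trans h.isP.1) h1 h5
  exact ⟨u, u1, u2, (H_cut_U h5.le (lev_U ((h.lim.2 ξ hξ).le.trans h4)) h3).trans u3⟩

theorem sub : Dd m s p ⊆ Iio a := by
  rintro x ⟨r, h1, h2, hx⟩
  exact hx.lt_iff.2 (h.isS.2.2 r h1 h2 p)

theorem acc : Acc' (Dd m s p) a := by
  refine ⟨zero_le.trans_lt h.lim.1, fun ξ hξ => ?_⟩
  obtain ⟨r, h1, h2, h3⟩ := h.below hξ
  obtain ⟨x, h4, hx⟩ := exists_X (h.isS.2.2 r h1 h2 p)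
  exact ⟨x, ⟨r, h1, h2, hx⟩, Order.succ_le_iff.1 (not_lt.1 fun h5 => hx.lt_iff.1 h5 h3), h4⟩

theorem pp (hm : ∀ x < m, Order.succ x < m) (h0 : 0 < m) (hcof : ¬ CofW m) (ha : CofW a) :
    ∃ ν < m, Pp ν s p := by
  obtain ⟨ξ, h1, h2⟩ := ha
  choose r r1 r2 r3 using fun n => h.below (h1 n)
  choose e e1 e2 using fun n => hull_fin' ((supp_U (r1 n) (r2 n)).trans h.isP.1)
  choose y y1 y2 using fun n => sup_lt h0 hm (e n)
  obtain ⟨ν, hν, h3⟩ : ∃ ν < m, ∀ n, y n ≤ ν := by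
    by_contra h3
    push Not at h3
    exact hcof ⟨y, y1, h3⟩
  refine ⟨ν, hν, fun t ht h4 => ?_⟩
  obtain ⟨x, h5, hx⟩ := exists_X (h.isS.2.2 t ht h4 p)
  obtain ⟨n, hn⟩ := h2 x h5
  refine ⟨r n, r1 n, not_lt.1 fun h6 => hx.2 (H_mono h6.le p_H (r3 n ?_)), r2 n,
    (e2 n).trans (hull_mono le_rfl fun z hz => ?_)⟩
  · exact hn.trans (Order.lt_succ _)
  · exact (e1 n hz).imp_left fun h6 => (y2 n z hz h6).trans_le (h3 n)

theorem exists_r (hb : b < a) : ∃ r, IsR m b p r ∧ r ≤ s := by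
  have h1 := (Iio_subset_Iio hb.le).trans h.cap
  obtain ⟨r, hr⟩ := exists_isR h.isS.1 h1
  exact ⟨r, hr, hr.le h.isS.1 h1⟩

end Ctx

theorem IsR.inter (hr : IsR m b p r) (h : r ≤ s) : Dd m s p ∩ Iio b = Dd m r p := by
  ext x
  constructor
  · rintro ⟨⟨t, h1, -, hx⟩, h2⟩
    exact ⟨t, h1, not_le.1 fun h3 => hx.lt_iff.1 h2 (hr.2.1.trans (H_mono h3 p_H)), hx⟩
  · rintro ⟨t, h1, h2, hx⟩
    exact ⟨⟨t, h1, h2.trans_le h, hx⟩, hx.lt_iff.2 (hr.2.2 t h1 h2)⟩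

theorem lim_of_acc (hb : Acc' (Dd m s p) b) : Lim m b := by
  constructor
  · obtain ⟨x, ⟨t, -, -, hx⟩, -, h1⟩ := hb.2 0 hb.1
    exact (not_lt.1 fun h2 => hx.2 (K_H h2)).trans_lt h1
  · intro x hx
    obtain ⟨y, -, h1, h2⟩ := hb.2 x hx
    exact (Order.succ_le_of_lt h1).trans_lt h2

theorem IsR.step (hr : IsR m b p r) (h : r ≤ s) (hb : Acc' (Dd m s p) b) (hx : x < b) :
    ∃ t : T, t.WF ∧ t < r ∧ Iio (Order.succ x) ⊆ H m t p := by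
  obtain ⟨y, h1, h2, h3⟩ := hb.2 x hx
  obtain ⟨t, t1, t2, t3⟩ := (hr.inter h).subset ⟨h1, h3⟩
  exact ⟨t, t1, t2, (Iio_subset_Iio (Order.succ_le_of_lt h2)).trans t3.1⟩

theorem IsR.isLim (hr : IsR m b p r) (h : r ≤ s) (hb : Acc' (Dd m s p) b) : IsLim r := by
  constructor
  · obtain ⟨t, t1, t2, -⟩ := hr.step h hb hb.1
    exact ⟨t, t1, t2⟩
  · intro t ht h1
    obtain ⟨x, h2, hx⟩ := exists_X (hr.2.2 t ht h1)
    obtain ⟨u, u1, u2, u3⟩ := hr.step h hb h2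
    exact ⟨u, u1, not_le.1 fun h3 => hx.2 (H_mono h3 p_H (u3 (Order.lt_succ x))), u2⟩

theorem key (hc : HasCond) (hp : IsP m s p) (hr : IsR m b p r) (h : r ≤ s)
    (hb : Acc' (Dd m s p) b) : ∃ r' q, IsS m b r' ∧ IsP m r' q ∧ Dd m r' q = Dd m r p ∧
      ∀ ν ≤ m, Pp ν r' q → Pp ν r p := by
  have h1 : Iio b ⊆ U r := lev_U ((lim_of_acc hb).le_lev hr.2.1)
  have h2 : ∀ t : T, H m t (cut (U r) p) ⊆ H m t p := fun t =>
    H_mono le_rfl fun _ hx => p_H (cut_le hx)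
  have hr' : IsR m b (cut (U r) p) r :=
    ⟨hr.1, H_cut_U le_rfl h1 hr.2.1, fun t ht h3 h4 => hr.2.2 t ht h3 (h4.trans (h2 t))⟩
  obtain ⟨ρ, c, σ, r', hC⟩ := exists_cond hc m r (cut (U r) p)
  refine ⟨r', _, key_S hC hr' (hr.isLim h hb), key_P hC hp h, (key_D hC hr').trans ?_,
    fun ν hν h3 t ht h4 => ?_⟩
  · have e : ∀ t : T, t < r → ∀ y < b, y ∈ H m t (cut (U r) p) ↔ y ∈ H m t p := fun t ht y hy =>
      ⟨fun h => h2 t h, fun h => H_cut_U ht.le (singleton_subset_iff.2 (h1 hy))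
        (singleton_subset_iff.2 h) rfl⟩
    ext x
    exact ⟨fun ⟨t, t1, t2, t3⟩ => ⟨t, t1, t2, t3.congr (hr.2.2 t t1 t2) (e t t2)⟩,
      fun ⟨t, t1, t2, t3⟩ => ⟨t, t1, t2, t3.congr (hr'.2.2 t t1 t2) fun y hy => (e t t2 y hy).symm⟩⟩
  · obtain ⟨u, u1, u2, u3, u4⟩ := key_Pp hC hr' hν h3 t ht h4
    exact ⟨u, u1, u2, u3, u4.trans (H_mono le_rfl fun _ hx => p_H (cut_le hx))⟩

theorem count (hμ : ℵ₀ < μ) (hν : Cardinal.lift.{1} ν.card < μ) {B : Set Ordinal.{0}}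
    (hB : ∀ b ∈ B, Acc' (Dd m s p) b ∧ ∃ r, IsR m b p r ∧ r ≤ s ∧ Pp ν r p) : #B < μ := by
  choose! R R1 R2 R3 using fun b hb => (hB b hb).2
  have h1 : ∀ b ∈ B, ∃ u ∈ {u : T | (u.supp : Set Ordinal.{0}) ⊆ H ν s p ∪ s.supp ∧ R b ≤ u},
      ∀ v ∈ {u : T | (u.supp : Set Ordinal.{0}) ⊆ H ν s p ∪ s.supp ∧ R b ≤ u}, ¬ v < u :=
    fun b hb => wellFounded_lt.has_min _ ⟨s, subset_union_right, R2 b hb⟩
  choose! f f1 f2 using h1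
  have h2 : StrictMonoOn f B := fun b hb b' hb' h => by
    obtain ⟨t, t1, t2, t3⟩ := (R1 b' hb').step (R2 b' hb') (hB b' hb').1 h
    obtain ⟨u, -, u2, u3, u4⟩ := R3 b' hb' t t1 t2
    have h3 : R b ≤ u := ((R1 b hb).le t1 ((Iio_subset_Iio (Order.le_succ b)).trans t3)).trans u2
    exact (not_lt.1 (f2 b hb u ⟨(u4.trans (H_mono (R2 b' hb') p_H)).trans subset_union_left,
      h3⟩)).trans_lt (u3.trans_le (f1 b' hb').2)
  refine (mk_le_of_injective (f := fun b : B => (⟨f b, (f1 b b.2).1⟩ :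
    {u : T | (u.supp : Set Ordinal.{0}) ⊆ H ν s p ∪ s.supp})) fun b b' h => ?_).trans_lt
    ((card_terms_le _).trans_lt (max_lt (small_union hμ (small_H hμ hν) _) hμ))
  exact Subtype.ext (h2.injOn b.2 b'.2 (congrArg Subtype.val h))

/-- the raw club -/
def DD (m b : Ordinal.{0}) : Set Ordinal.{0} :=
  {x | ∃ s p, IsS m b s ∧ IsP m s p ∧ x ∈ Dd m s p}

/-- the types -/
def PP (m ν : Ordinal.{0}) : Set Ordinal.{0} := {b | ∃ s p, IsS m b s ∧ IsP m s p ∧ Pp ν s p}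

theorem DD_eq (hs : IsS m b s) (hp : IsP m s p) : DD m b = Dd m s p := by
  refine Subset.antisymm ?_ fun x hx => ⟨s, p, hs, hp, hx⟩
  rintro x ⟨s', p', h1, h2, hx⟩
  obtain rfl := hs.uniq h1
  obtain rfl := hp.uniq h2
  exact hx

theorem mem_PP (hs : IsS m b s) (hp : IsP m s p) : b ∈ PP m ν ↔ Pp ν s p := by
  refine ⟨?_, fun hx => ⟨s, p, hs, hp, hx⟩⟩
  rintro ⟨s', p', h1, h2, hx⟩
  obtain rfl := hs.uniq h1
  obtain rfl := hp.uniq h2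
  exact hx

end Sq1

open Sq1 in
theorem preCoh (hc : HasCond) {κ : Cardinal.{0}} (hκ : ℵ₀ < κ) (hcof : ¬ CofW κ.ord)
    (hA : Capt κ) : PreCoh κ := by
  have hl := isSuccLimit_ord (hκ.le.trans (Order.le_succ κ))
  have hm := isSuccLimit_ord hκ.le
  choose! S S1 using fun b (hb : b < (Order.succ κ).ord) => fact1 hc hκ.le hA (hl.succ_lt hb)
  refine ⟨DD κ.ord, PP κ.ord, fun b => max (max (Order.succ b) κ.ord) (S b).lev, fun b hb => ?_,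
    fun a ha h0 hk => ?_⟩
  · obtain ⟨p, -, -, h⟩ := S1 b hb
    exact max_lt (max_lt (hl.succ_lt hb) (ord_lt_ord.2 (Order.lt_succ κ))) h
  obtain ⟨s, p, hs, hp, -⟩ := fact1 hc hκ.le hA ha
  have h : Ctx κ.ord a s p := by
    refine ⟨⟨(max_lt_iff.1 (max_lt_iff.1 (hk 0 h0)).1).2,
      fun x hx => (max_lt_iff.1 (max_lt_iff.1 (hk x hx)).1).1⟩, hs, hp, fun ξ hξ => ?_⟩
    obtain ⟨-, ⟨h1, ⟨q, h2⟩, -⟩, -⟩ := S1 ξ (hξ.trans ha)
    exact ⟨S ξ, q, h1, (max_lt_iff.1 (hk ξ hξ)).2, h2⟩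
  rw [DD_eq hs hp]
  refine ⟨h.sub, h.acc, fun b hb h1 => ?_, fun ν hν => count (by simpa using hκ)
    (lift_lt.2 (lt_ord.1 hν)) (m := κ.ord) (s := s) (p := p) fun b ⟨hb, h1, h2⟩ => ⟨h1, ?_⟩,
    fun h1 => ?_⟩
  · obtain ⟨r, hr, hrs⟩ := h.exists_r hb
    obtain ⟨r', q, k1, k2, k3, -⟩ := key hc hp hr hrs h1
    rw [DD_eq k1 k2, k3, hr.inter hrs]
  · obtain ⟨r, hr, hrs⟩ := h.exists_r hb
    obtain ⟨r', q, k1, k2, -, k4⟩ := key hc hp hr hrs h1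
    exact ⟨r, hr, hrs, k4 ν hν.le ((mem_PP k1 k2).1 h2)⟩
  · obtain ⟨ν, hν, h2⟩ := h.pp (fun x hx => hm.succ_lt hx) hm.bot_lt hcof h1
    exact ⟨ν, hν, (mem_PP hs hp).2 h2⟩

end Pool.Agent.Lib.Sharp
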