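import Pool.Agent.Lib.Sharp.Iface

/-!
The coherent system read off from the machine: basic facts and the collapse.
-/

namespace Pool.Agent.Lib.Sharp

open Cardinal Set Tm Pool.Agent.Work.MP_667be6_lc

namespace Sq1

variable {m a b x ρ ν : Ordinal.{0}} {r r' s t : T} {p q : Finset Ordinal.{0}}
  {A B N N' V : Set Ordinal.{0}} {c σ : Ordinal.{0} → Ordinal.{0}}

/-- the hull of an initial segment and finitely many points -/
abbrev H (m : Ordinal.{0}) (r : T) (p : Finset Ordinal.{0}) : Set Ordinal.{0} :=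
  hull r (Iio m ∪ p)

/-- the levels that are used below `s` -/
def U (s : T) : Set Ordinal.{0} := {c | first c < s}

theorem supp_U (ht : t.WF) (h : t < s) : (t.supp : Set Ordinal.{0}) ⊆ U s := fun x hx =>
  (first_le ht (ht.le_lev x hx)).trans_lt h

theorem lev_U (h : a ≤ s.lev) : Iio a ⊆ U s := fun x hx =>
  lt_of_lev_lt (by rw [first_lev]; exact hx.trans_le h)

theorem H_U (hm : m ≤ s.lev) (hp : (p : Set Ordinal.{0}) ⊆ U s) : H m s p ⊆ U s :=
  (hull_subset_union _ _).trans (union_subset (union_subset (lev_U hm) hp) (lev_U le_rfl))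

theorem K_H : Iio m ⊆ H m r p := subset_union_left.trans (subset_hull _ _)

theorem p_H : (p : Set Ordinal.{0}) ⊆ H m r p := subset_union_right.trans (subset_hull _ _)

theorem H_mono (h : r ≤ s) (hp : (p : Set Ordinal.{0}) ⊆ H m s q) : H m r p ⊆ H m s q :=
  hull_subset_hull h (union_subset K_H hp)

open Classical in
/-- the part of `p` in `V` -/
noncomputable def cut (V : Set Ordinal.{0}) (p : Finset Ordinal.{0}) : Finset Ordinal.{0} :=
  p.filter (· ∈ V)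

theorem mem_cut : x ∈ cut V p ↔ x ∈ p ∧ x ∈ V := by
  simp [cut]

theorem cut_sub : (cut V p : Set Ordinal.{0}) ⊆ V := fun _ h => (mem_cut.1 h).2

theorem cut_le : cut V p ⊆ p := fun _ h => (mem_cut.1 h).1

theorem H_cut (hV : ∀ t : T, t.WF → t < r → (t.supp : Set Ordinal.{0}) ⊆ V) (hB : B ⊆ V)
    (h : B ⊆ H m r p) : B ⊆ H m r (cut V p) := fun _ hx =>
  hull_mono le_rfl (fun _ hy => hy.1.imp_right fun h => mem_cut.2 ⟨h, hy.2⟩)
    (hull_inter hV ⟨h hx, hB hx⟩)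

theorem H_cut_U (hr : r ≤ s) (hB : B ⊆ U s) (h : B ⊆ H m r p) : B ⊆ H m r (cut (U s) p) :=
  H_cut (fun _ ht h => supp_U ht (h.trans_le hr)) hB h

theorem absorb (hs : IsLim s) (hq : (q : Set Ordinal.{0}) ⊆ H m s p) (ht : t.WF) (h : t < s) :
    ∃ u : T, u.WF ∧ u < s ∧ H m t q ⊆ H m u p := by
  obtain ⟨u, hu, hus, h1⟩ := hull_cont' hs hq
  rcases le_total t u with h2 | h2
  · exact ⟨u, hu, hus, H_mono h2 h1⟩
  · exact ⟨t, ht, h, H_mono le_rfl (h1.trans (H_mono h2 p_H))⟩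

/-- limits above `m` -/
def Lim (m a : Ordinal.{0}) : Prop := m < a ∧ ∀ x < a, Order.succ x < a

theorem sup_lt (h0 : 0 < a) (h : ∀ x < a, Order.succ x < a) (q : Finset Ordinal.{0}) :
    ∃ y < a, ∀ x ∈ q, x < a → x < y := by
  refine ⟨(cut (Iio a) q).sup Order.succ, (Finset.sup_lt_iff h0).2 fun x hx => h x (cut_sub hx),
    fun x hx hxa => ?_⟩
  exact (Order.lt_succ x).trans_le (Finset.le_sup (f := Order.succ) (mem_cut.2 ⟨hx, hxa⟩))

theorem Lim.nc (h : Lim m a) {g : Ordinal.{0}} (hg : g < a) : ¬ Iio a ⊆ Iio m ∪ q ∪ Iio g := by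
  intro hs
  obtain ⟨y, hy, h1⟩ := sup_lt (zero_le.trans_lt hg) h.2 q
  have h2 : max (max m g) y < a := max_lt (max_lt h.1 hg) hy
  rcases hs h2 with (h3 | h3) | h3
  · exact absurd (mem_Iio.1 h3) (not_lt.2 ((le_max_left _ _).trans (le_max_left _ _)))
  · exact absurd (h1 _ h3 h2) (not_lt.2 (le_max_right _ _))
  · exact absurd (mem_Iio.1 h3) (not_lt.2 ((le_max_right _ _).trans (le_max_left _ _)))

theorem Lim.le_lev (h : Lim m a) (h1 : Iio a ⊆ H m r p) : a ≤ r.lev :=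
  not_lt.1 fun h2 => h.nc h2 (h1.trans (hull_subset_union _ _))

/-- `x` is the least ordinal outside `N` -/
def X (N : Set Ordinal.{0}) (x : Ordinal.{0}) : Prop := Iio x ⊆ N ∧ x ∉ N

theorem X.lt_iff (h : X N x) : x < b ↔ ¬ Iio b ⊆ N :=
  ⟨fun h1 h2 => h.2 (h2 h1), fun h1 => not_le.1 fun h2 => h1 ((Iio_subset_Iio h2).trans h.1)⟩

theorem exists_X (h : ¬ Iio b ⊆ N) : ∃ x < b, X N x := by
  obtain ⟨y, -, hy⟩ := not_subset.1 h
  obtain ⟨x, hx, h1⟩ := wellFounded_lt.has_min Nᶜ ⟨y, hy⟩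
  have h2 : X N x := ⟨fun z hz => not_not.1 fun h => h1 z h hz, hx⟩
  exact ⟨x, h2.lt_iff.2 h, h2⟩

theorem X.congr (h : X N x) (hb : ¬ Iio b ⊆ N') (e : ∀ y < b, y ∈ N ↔ y ∈ N') : X N' x := by
  have h1 : x < b := h.lt_iff.2 fun h2 => hb fun y hy => (e y hy).1 (h2 hy)
  exact ⟨fun y hy => (e y (hy.trans h1)).1 (h.1 hy), fun h2 => h.2 ((e x h1).2 h2)⟩

/-- the set of first gaps -/
def Dd (m : Ordinal.{0}) (s : T) (p : Finset Ordinal.{0}) : Set Ordinal.{0} :=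
  {x | ∃ r : T, r.WF ∧ r < s ∧ X (H m r p) x}

/-- small supports are cofinal below `s` -/
def Pp (ν : Ordinal.{0}) (s : T) (p : Finset Ordinal.{0}) : Prop :=
  ∀ t : T, t.WF → t < s → ∃ u : T, u.WF ∧ t ≤ u ∧ u < s ∧ (u.supp : Set Ordinal.{0}) ⊆ H ν s p

/-- `s` is the least location capturing `b` -/
def IsS (m b : Ordinal.{0}) (s : T) : Prop :=
  s.WF ∧ (∃ p, Iio b ⊆ H m s p) ∧ ∀ t : T, t.WF → t < s → ∀ p, ¬ Iio b ⊆ H m t p

/-- `p` is the least parameter for `s` -/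
def IsP (m : Ordinal.{0}) (s : T) (p : Finset Ordinal.{0}) : Prop :=
  U s ⊆ H m s p ∧ ∀ q, toColex q < toColex p → ¬ U s ⊆ H m s q

/-- `r` is the least location capturing `b` with the parameter `p` -/
def IsR (m b : Ordinal.{0}) (p : Finset Ordinal.{0}) (r : T) : Prop :=
  r.WF ∧ Iio b ⊆ H m r p ∧ ∀ t : T, t.WF → t < r → ¬ Iio b ⊆ H m t p

theorem IsS.uniq (h : IsS m b s) (h' : IsS m b t) : s = t := by
  obtain ⟨p, hp⟩ := h.2.1
  obtain ⟨q, hq⟩ := h'.2.1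
  exact le_antisymm (not_lt.1 fun h1 => h.2.2 t h'.1 h1 q hq)
    (not_lt.1 fun h1 => h'.2.2 s h.1 h1 p hp)

theorem IsP.uniq (h : IsP m s p) (h' : IsP m s q) : p = q :=
  toColex_inj.1 (le_antisymm (not_lt.1 fun h1 => h.2 q h1 h'.1) (not_lt.1 fun h1 => h'.2 p h1 h.1))

theorem IsR.le (h : IsR m b p r) (ht : t.WF) (h1 : Iio b ⊆ H m t p) : r ≤ t :=
  not_lt.1 fun h2 => h.2.2 t ht h2 h1

theorem exists_isR (ht : t.WF) (h1 : Iio b ⊆ H m t p) : ∃ r, IsR m b p r := by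
  obtain ⟨r, hr, h2⟩ := wellFounded_lt.has_min {r : T | r.WF ∧ Iio b ⊆ H m r p} ⟨t, ht, h1⟩
  exact ⟨r, hr.1, hr.2, fun t ht h3 h4 => h2 t ⟨ht, h4⟩ h3⟩

theorem exists_isP (h : U s ⊆ H m s p) : ∃ p, IsP m s p := by
  obtain ⟨q, hq, h2⟩ := wellFounded_lt.has_min
    {q : Colex (Finset Ordinal.{0}) | U s ⊆ H m s (ofColex q)} ⟨toColex p, h⟩
  exact ⟨ofColex q, hq, fun q' h3 h4 => h2 (toColex q') h4 h3⟩

theorem exists_cond (hc : HasCond) (m : Ordinal.{0}) (r : T) (p : Finset Ordinal.{0}) :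
    ∃ ρ c σ r', Cond r (H m r p) ρ c σ r' := by
  refine hc r _ (max (max m (p.sup Order.succ)) r.lev) (cl_hull _ _)
    ((hull_subset_union _ _).trans ?_)
  rintro x ((h | h) | h)
  · exact mem_Iio.2 (lt_max_of_lt_left (lt_max_of_lt_left (mem_Iio.1 h)))
  · exact mem_Iio.2 <| lt_max_of_lt_left (lt_max_of_lt_right
      ((Order.lt_succ x).trans_le (Finset.le_sup (f := Order.succ) h)))
  · exact mem_Iio.2 (lt_max_of_lt_right (mem_Iio.1 h))

theorem image_fix {f : Ordinal.{0} → Ordinal.{0}} (h : ∀ x < ν, f x = x) (p : Finset Ordinal.{0}) :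
    f '' (Iio ν ∪ p) = Iio ν ∪ (p.image f : Finset Ordinal.{0}) := by
  rw [image_union, Finset.coe_image, image_congr (s := Iio ν) (g := fun x => x) h, image_id']

section cond
variable (h : Cond r (H m r q) ρ c σ r')
include h

theorem cond_Iio : Iio ρ ⊆ H m r' (q.image c) := by
  rw [H, ← image_fix (h.fix m K_H)]
  exact h.Iio_subset_hull

theorem cond_U : U r' ⊆ Iio ρ := fun x hx =>
  h.over _ (first_wf x) hx (by simp [first_supp])

theorem cond_qb : (q.image c : Set Ordinal.{0}) ⊆ Iio ρ := by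
  rw [Finset.coe_image]
  rintro _ ⟨x, hx, rfl⟩
  exact h.c_lt x (p_H hx)

theorem cond_back : (q.image c).image σ = q := by
  rw [Finset.image_image, Finset.image_congr (f := σ ∘ c) (g := id) fun x hx => h.σ_c x (p_H hx),
    Finset.image_id]

theorem cond_σq (hp : (p : Set Ordinal.{0}) ⊆ Iio ρ) :
    (p.image σ : Set Ordinal.{0}) ⊆ H m r q := by
  rw [Finset.coe_image]
  rintro _ ⟨x, hx, rfl⟩
  exact h.σ_mem x (hp hx)

theorem cond_up (ht : t.WF) (h1 : t < r') : (t.map σ).WF ∧ t.map σ < r ∧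
    ((t.map σ).supp : Set Ordinal.{0}) ⊆ H m r q :=
  ⟨ht.map (h.emb_σ.1.mono (h.over t ht h1)), (h.emb_σ.2 t ht h1 (h.over t ht h1)).1,
    h.supp_σ (h.over t ht h1)⟩

theorem cond_down (ht : t.WF) (h1 : t < r) (h2 : (t.supp : Set Ordinal.{0}) ⊆ H m r q) :
    (t.map c).WF ∧ t.map c < r' :=
  ⟨ht.map (h.emb_c.1.mono h2), (h.emb_c.2 t ht h1 h2).1⟩

theorem cond_σH (ht : t.WF) (h1 : t < r') (hp : (p : Set Ordinal.{0}) ⊆ Iio ρ) :
    MapsTo σ (H m t p) (H m (t.map σ) (p.image σ)) := by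
  rw [H, H, ← image_fix fun x hx => (h.σ_fix K_H hx).2]
  exact (h.emb_σ.restrict h1.le (h.over t ht h1)).image_hull (h.cl.mono h1.le)
    (union_subset (Iio_subset_Iio (h.le_ρ K_H)) hp)

theorem cond_agree (hb : Iio b ⊆ H m r q) (ht : t.WF) (h1 : t < r)
    (h2 : (t.supp : Set Ordinal.{0}) ⊆ H m r q) (y : Ordinal.{0}) (hy : y < b) :
    y ∈ H m t q ↔ y ∈ H m (t.map c) (q.image c) := by
  constructor
  · intro h3
    have := (h.emb_c.restrict h1.le h2).image_hull ((cl_hull _ _).mono h1.le)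
      (subset_hull _ _) h3
    rwa [image_fix (h.fix m K_H), h.fix b hb y hy] at this
  · intro h3
    obtain ⟨h4, h5⟩ := cond_down h ht h1 h2
    have := cond_σH h h4 h5 (cond_qb h) h3
    rwa [h.map_σ_c h2, cond_back h, (h.σ_fix hb hy).2] at this

end cond

theorem IsR.gap (hr : IsR m b q r) (ht : t.WF) (h1 : t < r) : ∃ u : T, u.WF ∧ t ≤ u ∧ u < r ∧
    (u.supp : Set Ordinal.{0}) ⊆ H m r q ∧ H m u q ⊆ H m t q := by
  have h2 : {u : T | u.WF ∧ t ≤ u ∧ u < r ∧ (u.supp : Set Ordinal.{0}) ⊆ H m r q}.Nonempty := by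
    by_contra h3
    refine hr.2.2 t ht h1 (hr.2.1.trans (hull_subset_of_gap fun u hu h4 h5 => ?_))
    exact not_le.1 fun h6 => h3 ⟨u, hu, h6, h4, h5⟩
  obtain ⟨u, ⟨u1, u2, u3, u4⟩, h3⟩ := wellFounded_lt.has_min _ h2
  refine ⟨u, u1, u2, u3, u4, hull_subset_of_gap fun v hv h4 h5 => not_le.1 fun h6 => ?_⟩
  exact h3 v ⟨hv, h6, h4.trans u3, h5.trans (H_mono u3.le p_H)⟩ h4

section key
variable (h : Cond r (H m r q) ρ c σ r') (hr : IsR m b q r)
include h hr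

theorem key_S (hl : IsLim r) : IsS m b r' := by
  refine ⟨h.wf, ⟨_, (Iio_subset_Iio (h.le_ρ hr.2.1)).trans (cond_Iio h)⟩, fun t ht h1 p hp => ?_⟩
  have h2 := H_cut (fun u hu h2 => h.over u hu (h2.trans h1)) (Iio_subset_Iio (h.le_ρ hr.2.1)) hp
  obtain ⟨h3, h4, -⟩ := cond_up h ht h1
  obtain ⟨u, hu, h5, h6⟩ := absorb hl (cond_σq h (cut_sub (p := p))) h3 h4
  refine hr.2.2 u hu h5 fun y hy => h6 ?_
  have := cond_σH h ht h1 cut_sub (h2 hy)
  rwa [(h.σ_fix hr.2.1 hy).2] at this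

theorem key_D : Dd m r' (q.image c) = Dd m r q := by
  ext x
  constructor
  · rintro ⟨t, ht, h1, hx⟩
    obtain ⟨h3, h4, h5⟩ := cond_up h ht h1
    refine ⟨_, h3, h4, hx.congr (hr.2.2 _ h3 h4) fun y hy => ?_⟩
    rw [cond_agree h hr.2.1 h3 h4 h5 y hy, h.map_c_σ (h.over t ht h1)]
  · rintro ⟨t, ht, h1, hx⟩
    obtain ⟨u, u1, u2, u3, u4, u5⟩ := hr.gap ht h1
    obtain ⟨h3, h4⟩ := cond_down h u1 u3 u4
    have e := cond_agree h hr.2.1 u1 u3 u4
    rw [← u5.antisymm (H_mono u2 p_H)] at hx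
    exact ⟨_, h3, h4, hx.congr (fun h5 => hr.2.2 u u1 u3 fun y hy => (e y hy).2 (h5 hy)) e⟩

theorem key_Pp (hν : ν ≤ m) (hp : Pp ν r' (q.image c)) : Pp ν r q := by
  intro t ht h1
  obtain ⟨u, u1, u2, u3, u4, -⟩ := hr.gap ht h1
  obtain ⟨h3, h4⟩ := cond_down h u1 u3 u4
  obtain ⟨v, v1, v2, v3, v4⟩ := hp _ h3 h4
  obtain ⟨h5, h6, -⟩ := cond_up h v1 v3
  refine ⟨_, h5, u2.trans ?_, h6, ?_⟩
  · rw [← h.map_σ_c u4]
    exact map_le_map (h.emb_σ.1.mono (union_subset (h.over _ h3 h4) (h.over _ v1 v3))) v2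
  · rw [coe_supp_map]
    rintro _ ⟨y, hy, rfl⟩
    have := h.σ_hull (union_subset (Iio_subset_Iio (hν.trans (h.le_ρ K_H))) (cond_qb h)) (v4 hy)
    rwa [image_fix fun x hx => (h.σ_fix K_H (hx.trans_le hν)).2, cond_back h] at this

end key

theorem key_P (h : Cond r (H m r (cut (U r) p)) ρ c σ r') (hs : IsP m s p) (hrs : r ≤ s) :
    IsP m r' ((cut (U r) p).image c) := by
  refine ⟨(cond_U h).trans (cond_Iio h), fun q hq h1 => ?_⟩
  have h2 : (q : Set Ordinal.{0}) ⊆ Iio ρ := Finset.Colex.forall_lt_mono hq.le (cond_qb h)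
  have h3 : toColex (q.image σ) < toColex (cut (U r) p) := by
    refine colex_image_lt (h.emb_σ.1.mono (union_subset h2 (cond_qb h))) (fun _ => Finset.mem_image)
      (fun y => ?_) hq
    rw [← Finset.mem_image, cond_back h]
  have h4 : (cut (U r) p : Set Ordinal.{0}) ⊆ H m r (q.image σ) := by
    intro y hy
    have h5 : c y ∈ U r' := by
      have := (cond_down h (first_wf y) (cut_sub hy) (by
        rw [first_supp, Finset.coe_singleton, singleton_subset_iff]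
        exact p_H hy)).2
      rwa [first_map] at this
    have := h.σ_hull (union_subset (Iio_subset_Iio (h.le_ρ K_H)) h2) (h1 h5)
    rwa [image_fix fun x hx => (h.σ_fix K_H hx).2, h.σ_c y (p_H hy)] at this
  refine hs.2 (q.image σ ∪ cut (U r)ᶜ p) ?_ (hs.1.trans (H_mono le_rfl fun y hy => ?_))
  · obtain ⟨y, y1, y2, y3⟩ := Finset.Colex.toColex_lt_toColex_iff_exists_forall_lt.1 h3
    refine Finset.Colex.toColex_lt_toColex_iff_exists_forall_lt.2 ⟨y, cut_le y1, fun h5 => ?_,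
      fun z hz h5 => ?_⟩
    · exact (Finset.mem_union.1 h5).elim y2 fun h6 => cut_sub h6 (cut_sub y1)
    · exact (Finset.mem_union.1 hz).elim (fun h6 => y3 z h6 fun h7 => h5 (cut_le h7))
        fun h6 => absurd (cut_le h6) h5
  · by_cases h5 : y ∈ U r
    · exact H_mono hrs (fun z hz => p_H (Finset.mem_union_left _ hz)) (h4 (mem_cut.2 ⟨hy, h5⟩))
    · exact p_H (Finset.mem_union_right _ (mem_cut.2 ⟨hy, h5⟩))

end Sq1

end Pool.Agent.Lib.Sharp
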