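import Pool.Agent.Lib.Sharp.Iface
import Mathlib.SetTheory.Cardinal.Regular

/-!
A coherent sequence of clubs whose accumulation points avoid a stationary set.
-/

namespace Pool.Agent.Lib.Sharp

open Cardinal Set Tm Pool.Agent.Work.MP_667be6_lc

namespace Sq2

theorem acc_mono {X Y : Set Ordinal.{0}} {b : Ordinal.{0}} (h : Acc' X b)
    (hXY : ∀ x ∈ X, x < b → x ∈ Y) : Acc' Y b :=
  ⟨h.1, fun ξ hξ => by
    obtain ⟨γ, hγ, h1, h2⟩ := h.2 ξ hξ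
    exact ⟨γ, hXY γ hγ h2, h1, h2⟩⟩

theorem acc_acc {X Y : Set Ordinal.{0}} {b : Ordinal.{0}} (h : Acc' X b)
    (hXY : ∀ x ∈ X, x < b → Acc' Y x) : Acc' Y b :=
  ⟨h.1, fun ξ hξ => by
    obtain ⟨γ, hγ, h1, h2⟩ := h.2 ξ hξ
    obtain ⟨δ, hδ, h3, h4⟩ := (hXY γ hγ h2).2 ξ h1
    exact ⟨δ, hδ, h3, h4.trans h2⟩⟩

theorem acc_congr {X Y : Set Ordinal.{0}} {a b : Ordinal.{0}} (h : Y = X ∩ Iio a) (hb : b ≤ a) :
    Acc' Y b ↔ Acc' X b :=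
  ⟨fun h' => acc_mono h' fun _ hx _ => (h ▸ hx : _ ∈ X ∩ Iio a).1,
    fun h' => acc_mono h' fun _ hx hxb => h ▸ ⟨hx, hxb.trans_le hb⟩⟩

theorem col_congr {X Y : Set Ordinal.{0}} (β : Ordinal.{0}) (h : ∀ x < β, x ∈ X ↔ x ∈ Y) :
    col X β = col Y β := by
  induction β using WellFoundedLT.induction with
  | ind β ih =>
    have h' : ∀ α < β, col X α = col Y α := fun α hα => ih α hα fun x hx => h x (hx.trans hα)
    refine eq_of_forall_lt_iff fun γ => ?_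
    rw [lt_col_iff, lt_col_iff]
    exact ⟨fun ⟨α, h1, h2, h3⟩ => ⟨α, (h α h2).1 h1, h2, h' α h2 ▸ h3⟩,
      fun ⟨α, h1, h2, h3⟩ => ⟨α, (h α h2).2 h1, h2, (h' α h2).symm ▸ h3⟩⟩

theorem exists_seq {a x0 : Ordinal.{0}} {R : Ordinal.{0} → Ordinal.{0} → Prop} (h0 : x0 < a)
    (step : ∀ x < a, ∃ y < a, x < y ∧ R x y) :
    ∃ x : ℕ → Ordinal.{0}, x 0 = x0 ∧ StrictMono x ∧ (∀ n, x n < a) ∧
      ∀ n, R (x n) (x (n + 1)) := by
  choose g hg using step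
  let x : ℕ → {y // y < a} := fun n => Nat.rec ⟨x0, h0⟩ (fun _ y => ⟨g y.1 y.2, (hg _ _).1⟩) n
  exact ⟨fun n => (x n).1, rfl, strictMono_nat_of_lt_succ fun n => (hg _ (x n).2).2.1,
    fun n => (x n).2, fun n => (hg _ (x n).2).2.2⟩

variable {κ : Cardinal.{0}}

theorem bdd (hκ : ℵ₀ ≤ κ) {β : Ordinal.{0}} (hβ : β < (Order.succ κ).ord)
    {f : Ordinal.{0} → Ordinal.{0}} (hf : ∀ x < β, f x < (Order.succ κ).ord) :
    ∃ γ < (Order.succ κ).ord, ∀ x < β, f x < γ := by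
  have hlim := isSuccLimit_ord (hκ.trans (Order.le_succ κ))
  have h1 : ⨆ i : β.ToType, f (Ordinal.typein (α := β.ToType) (· < ·) i) < (Order.succ κ).ord := by
    refine Ordinal.iSup_lt_of_lt_cof ?_ fun i => hf _ (Ordinal.typein_lt_self i)
    rw [(isRegular_succ hκ).cof_ord, mk_toType]
    exact lt_ord.1 hβ
  refine ⟨_, hlim.succ_lt h1, fun x hx => Order.lt_succ_of_le ?_⟩
  obtain ⟨i, rfl⟩ := Ordinal.typein_surj (α := β.ToType) (· < ·) (o := x) (by simpa using hx)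
  exact Ordinal.le_iSup (fun i : β.ToType => f (Ordinal.typein (α := β.ToType) (· < ·) i)) i

theorem stat_cofW (hκ : ℵ₀ ≤ κ) {k : Ordinal.{0} → Ordinal.{0}}
    (hk : ∀ β < (Order.succ κ).ord, k β < (Order.succ κ).ord) :
    Stat (Order.succ κ).ord
      {a | (a < (Order.succ κ).ord ∧ 0 < a ∧ ∀ b < a, k b < a) ∧ CofW a} := by
  intro f hf
  have hlim := isSuccLimit_ord (hκ.trans (Order.le_succ κ))
  obtain ⟨x, -, hm, hx, hR⟩ := exists_seq (R := fun x y => ∀ b < x, f b < y ∧ k b < y) hlim.bot_lt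
    (fun x hx => by
      obtain ⟨γ, hγ, h⟩ := bdd hκ hx (f := fun b => max (f b) (k b)) fun b hb =>
        max_lt (hf b (hb.trans hx)) (hk b (hb.trans hx))
      refine ⟨max γ (Order.succ x), max_lt hγ (hlim.succ_lt hx),
        lt_max_of_lt_right (Order.lt_succ x), fun b hb => ?_⟩
      exact ⟨lt_max_of_lt_left ((le_max_left _ _).trans_lt (h b hb)),
        lt_max_of_lt_left ((le_max_right _ _).trans_lt (h b hb))⟩)
  have hl : ⨆ n, x n < (Order.succ κ).ord := by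
    refine Ordinal.iSup_lt_of_lt_cof ?_ hx
    rw [(isRegular_succ hκ).cof_ord, mk_nat]
    exact hκ.trans_lt (Order.lt_succ κ)
  have hlt : ∀ n, x n < ⨆ n, x n := fun n =>
    (hm (Nat.lt_succ_self n)).trans_le (Ordinal.le_iSup x (n + 1))
  have hcl : ∀ b < ⨆ n, x n, f b < ⨆ n, x n ∧ k b < ⨆ n, x n := by
    intro b hb
    obtain ⟨n, hn⟩ := Ordinal.lt_iSup_iff.1 hb
    exact ⟨(hR n b hn).1.trans (hlt _), (hR n b hn).2.trans (hlt _)⟩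
  have h0 : 0 < ⨆ n, x n := (zero_le : 0 ≤ x 0).trans_lt (hlt 0)
  exact ⟨_, ⟨⟨hl, h0, fun b hb => (hcl b hb).2⟩, x, hlt, fun ξ hξ => Ordinal.lt_iSup_iff.1 hξ⟩,
    h0, hl, fun b hb => (hcl b hb).1⟩

theorem pigeon (hκ : ℵ₀ ≤ κ) {S : Set Ordinal.{0}} (hS : Stat (Order.succ κ).ord S)
    {Q : Ordinal.{0} → Ordinal.{0} → Prop} (hQ : ∀ δ ∈ S, ∃ ν < κ.ord, Q δ ν) :
    ∃ ν < κ.ord, Stat (Order.succ κ).ord {δ | δ ∈ S ∧ Q δ ν} := by
  by_contra hc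
  simp only [Stat, not_exists, not_and, not_forall] at hc
  choose! f hf1 hf2 using hc
  have hκl : κ.ord < (Order.succ κ).ord := ord_lt_ord.2 (Order.lt_succ κ)
  have h1 : ∀ β < (Order.succ κ).ord, ∃ γ < (Order.succ κ).ord, ∀ ν < κ.ord, f ν β < γ :=
    fun β hβ => bdd hκ hκl (f := fun ν => f ν β) fun ν hν => hf1 ν hν β hβ
  choose! g hg1 hg2 using h1
  obtain ⟨δ, hδ, h0, hl, hcl⟩ := hS g hg1
  obtain ⟨ν, hν, hq⟩ := hQ δ hδ
  obtain ⟨β, hβ, h⟩ := hf2 ν hν δ ⟨hδ, hq⟩ h0 hl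
  exact h ((hg2 β (hβ.trans hl) ν hν).trans (hcl β hβ))

/-- a cofinal set of order type `ω` -/
theorem exists_omega {K X : Set Ordinal.{0}} {a : Ordinal.{0}} (hK : Acc' K a) (hX : Acc' X a)
    (h : ¬ Acc' {b | b < a ∧ Acc' K b ∧ Acc' X b} a) :
    ∃ W : Set Ordinal.{0}, W ⊆ Iio a ∧ Acc' W a ∧ ∀ b < a, ¬ Acc' W b := by
  obtain ⟨ξ, hξ, hno⟩ : ∃ ξ < a, ∀ b < a, Acc' K b → Acc' X b → b ≤ ξ := by
    by_contra hc
    push Not at hc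
    refine h ⟨hK.1, fun ξ hξ => ?_⟩
    obtain ⟨b, hb, h1, h2, h3⟩ := hc ξ hξ
    exact ⟨b, ⟨hb, h1, h2⟩, h3, hb⟩
  obtain ⟨x, hx0, hm, hx, hR⟩ := exists_seq
    (R := fun x y => (∃ γ ∈ K, x < γ ∧ γ ≤ y) ∧ ∃ γ ∈ X, x < γ ∧ γ ≤ y) hξ (fun x hx => by
      obtain ⟨γ, hγ, h1, h2⟩ := hK.2 x hx
      obtain ⟨γ', hγ', h1', h2'⟩ := hX.2 x hx
      exact ⟨max γ γ', max_lt h2 h2', lt_max_of_lt_left h1, ⟨γ, hγ, h1, le_max_left _ _⟩,
        γ', hγ', h1', le_max_right _ _⟩)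
  have hlt : ∀ n, x n < ⨆ n, x n := fun n =>
    (hm (Nat.lt_succ_self n)).trans_le (Ordinal.le_iSup x (n + 1))
  have h0 : 0 < ⨆ n, x n := (zero_le : 0 ≤ x 0).trans_lt (hlt 0)
  have hsup : ⨆ n, x n = a := by
    refine (Ordinal.iSup_le fun n => (hx n).le).eq_or_lt.resolve_right fun hl => ?_
    refine absurd (hno _ hl ⟨h0, fun y hy => ?_⟩ ⟨h0, fun y hy => ?_⟩) (not_le.2 (hx0 ▸ hlt 0))
    · obtain ⟨n, hn⟩ := Ordinal.lt_iSup_iff.1 hy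
      obtain ⟨γ, hγ, h1, h2⟩ := (hR n).1
      exact ⟨γ, hγ, hn.trans h1, h2.trans_lt (hlt _)⟩
    · obtain ⟨n, hn⟩ := Ordinal.lt_iSup_iff.1 hy
      obtain ⟨γ, hγ, h1, h2⟩ := (hR n).2
      exact ⟨γ, hγ, hn.trans h1, h2.trans_lt (hlt _)⟩
  refine ⟨range x, by rintro _ ⟨n, rfl⟩; exact hx n, ⟨hK.1, fun y hy => ?_⟩, fun b hb hacc => ?_⟩
  · obtain ⟨n, hn⟩ := Ordinal.lt_iSup_iff.1 (hsup ▸ hy : y < ⨆ n, x n)
    exact ⟨_, ⟨n, rfl⟩, hn, hx n⟩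
  · have : ∀ n, x n < b := by
      intro n
      induction n with
      | zero =>
        obtain ⟨_, ⟨m, rfl⟩, -, h2⟩ := hacc.2 0 hacc.1
        exact (hm.monotone (Nat.zero_le m)).trans_lt h2
      | succ n ih =>
        obtain ⟨_, ⟨m, rfl⟩, h1, h2⟩ := hacc.2 _ ih
        exact (hm.monotone (Nat.succ_le_of_lt (hm.lt_iff_lt.1 h1))).trans_lt h2
    exact absurd (hsup ▸ Ordinal.iSup_le fun n => (this n).le : a ≤ b) (not_le.2 hb)

/-- from a coherent system on a closed set to a coherent system on all limit ordinals -/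
theorem extend {l : Ordinal.{0}} {K S : Set Ordinal.{0}} {D : Ordinal.{0} → Set Ordinal.{0}}
    (hK : ∀ b < l, Acc' K b → b ∈ K) (hS : S ⊆ K) (h1 : ∀ a ∈ K, Acc' (D a) a)
    (h2 : ∀ a ∈ K, ∀ b < a, Acc' (D a) b → b ∉ S ∧ D b = D a ∩ Iio b) :
    ∃ C, Coh l C S := by
  classical
  let A : Ordinal.{0} → Set Ordinal.{0} := fun a => {b | b < a ∧ b ∈ K ∧ Acc' (D a) b}
  let N : Ordinal.{0} → Set Ordinal.{0} := fun a => {x | x < a ∧ ∀ y ∈ K, y < a → y < x}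
  have hW : ∀ a, ∃ W : Set Ordinal.{0}, a < l → Acc' K a → ¬ Acc' (A a) a →
      W ⊆ Iio a ∧ Acc' W a ∧ ∀ b < a, ¬ Acc' W b := by
    intro a
    by_cases h : a < l ∧ Acc' K a ∧ ¬ Acc' (A a) a
    · obtain ⟨W, hW⟩ := exists_omega h.2.1 (h1 a (hK a h.1 h.2.1)) fun hc => h.2.2
        (acc_mono hc fun x hx _ => ⟨hx.1, hK x (hx.1.trans h.1) hx.2.1, hx.2.2⟩)
      exact ⟨W, fun _ _ _ => hW⟩
    · exact ⟨∅, fun h1 h2 h3 => absurd ⟨h1, h2, h3⟩ h⟩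
  choose W hW using hW
  let C : Ordinal.{0} → Set Ordinal.{0} := fun a =>
    if Acc' (A a) a then A a else if Acc' K a then W a else N a
  have hAK : ∀ a b, Acc' (A a) b → Acc' K b := fun a b h => acc_mono h fun x hx _ => hx.2.1
  have key : ∀ a < l, Order.IsSuccLimit a → C a ⊆ Iio a ∧ Acc' (C a) a ∧
      ∀ b < a, Acc' (C a) b → b ∈ C a ∧ b ∉ S ∧ C b = C a ∩ Iio b := by
    intro a ha hlim
    by_cases hA : Acc' (A a) a
    · have hC : C a = A a := if_pos hA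
      have haK := hK a ha (hAK a a hA)
      rw [hC]
      refine ⟨fun x hx => hx.1, hA, fun b hb hacc => ?_⟩
      have hD : Acc' (D a) b := acc_acc hacc fun x hx _ => hx.2.2
      have hAb : A b = A a ∩ Iio b := by
        ext x
        exact ⟨fun hx => ⟨⟨hx.1.trans hb, hx.2.1, (acc_congr (h2 a haK b hb hD).2 hx.1.le).1 hx.2.2⟩,
          hx.1⟩, fun hx => ⟨hx.2, hx.1.2.1, (acc_congr (h2 a haK b hb hD).2 hx.2.le).2 hx.1.2.2⟩⟩
      refine ⟨⟨hb, hK b (hb.trans ha) (hAK a b hacc), hD⟩, (h2 a haK b hb hD).1, ?_⟩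
      rw [← hAb]
      exact if_pos ((acc_congr hAb le_rfl).2 hacc)
    by_cases hKa : Acc' K a
    · have hC : C a = W a := (if_neg hA).trans (if_pos hKa)
      obtain ⟨w1, w2, w3⟩ := hW a ha hKa hA
      rw [hC]
      exact ⟨w1, w2, fun b hb hacc => absurd hacc (w3 b hb)⟩
    have hC : C a = N a := (if_neg hA).trans (if_neg hKa)
    rw [hC]
    refine ⟨fun x hx => hx.1, ⟨hlim.bot_lt, fun y hy => ?_⟩, fun b hb hacc => ?_⟩
    · obtain ⟨ξ, hξ, hno⟩ : ∃ ξ < a, ∀ b ∈ K, b < a → b ≤ ξ := by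
        by_contra hc
        push Not at hc
        refine hKa ⟨hlim.bot_lt, fun ξ hξ => ?_⟩
        obtain ⟨b, hb, h1, h2⟩ := hc ξ hξ
        exact ⟨b, hb, h2, h1⟩
      have hlt : Order.succ (max y ξ) < a := hlim.succ_lt (max_lt hy hξ)
      exact ⟨_, ⟨hlt, fun z hz hza => Order.lt_succ_of_le ((hno z hz hza).trans (le_max_right _ _))⟩,
        Order.lt_succ_of_le (le_max_left _ _), hlt⟩
    · obtain ⟨γ, hγ, -, hγb⟩ := hacc.2 0 hacc.1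
      have hbK : b ∉ K := fun h => lt_asymm (hγ.2 b h hb) hγb
      have hKb : ¬ Acc' K b := fun h => hbK (hK b (hb.trans ha) h)
      refine ⟨⟨hb, fun y hy hya => (hγ.2 y hy hya).trans hγb⟩, fun h => hbK (hS h), ?_⟩
      refine ((if_neg fun h => hKb (hAK b b h)).trans (if_neg hKb)).trans ?_
      ext x
      exact ⟨fun hx => ⟨⟨hx.1.trans hb, fun y hy hya => hx.2 y hy ((hγ.2 y hy hya).trans hγb)⟩,
        hx.1⟩, fun hx => ⟨hx.2, fun y hy hyb => hx.1.2 y hy (hyb.trans hb)⟩⟩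
  exact ⟨C, fun a ha h => (key a ha h).1, fun a ha h => (key a ha h).2.1,
    fun a ha h b hb hacc => ((key a ha h).2.2 b hb hacc).1,
    fun a ha h b hb hacc => ((key a ha h).2.2 b hb hacc).2⟩

/-- removing the unique accumulation point in `S` -/
theorem thin {K S : Set Ordinal.{0}} {D : Ordinal.{0} → Set Ordinal.{0}}
    (h1 : ∀ a ∈ K, Acc' (D a) a) (h2 : ∀ a ∈ K, ∀ b < a, Acc' (D a) b → D b = D a ∩ Iio b)
    (hU : ∀ d' ∈ S, ∀ d < d', Acc' (D d') d → d ∉ S) :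
    ∃ D' : Ordinal.{0} → Set Ordinal.{0}, (∀ a ∈ K, Acc' (D' a) a) ∧
      ∀ a ∈ K, ∀ b < a, Acc' (D' a) b → b ∉ S ∧ D' b = D' a ∩ Iio b := by
  refine ⟨fun a => {x | x ∈ D a ∧ ∀ d < a, d ∈ S → Acc' (D a) d → d < x}, fun a ha => ?_,
    fun a ha b hb hacc => ?_⟩
  · refine ⟨(h1 a ha).1, fun ξ hξ => ?_⟩
    by_cases h : ∃ d < a, d ∈ S ∧ Acc' (D a) d
    · obtain ⟨d, hd, hdS, hdA⟩ := h
      obtain ⟨γ, hγ, h3, h4⟩ := (h1 a ha).2 _ (max_lt hξ hd)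
      refine ⟨γ, ⟨hγ, fun e he heS heA => ?_⟩, (le_max_left _ _).trans_lt h3, h4⟩
      refine (le_of_not_gt fun hde => ?_).trans_lt ((le_max_right _ _).trans_lt h3)
      exact hU e heS d hde ((acc_congr (h2 a ha e he heA) hde.le).2 hdA) hdS
    · obtain ⟨γ, hγ, h3, h4⟩ := (h1 a ha).2 _ hξ
      exact ⟨γ, ⟨hγ, fun e he heS heA => absurd ⟨e, he, heS, heA⟩ h⟩, h3, h4⟩
  · have hD : Acc' (D a) b := acc_mono hacc fun x hx _ => hx.1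
    have hDb := h2 a ha b hb hD
    obtain ⟨γ, hγ, -, hγb⟩ := hacc.2 0 hacc.1
    refine ⟨fun h => lt_asymm (hγ.2 b hb h hD) hγb, ?_⟩
    ext x
    constructor
    · intro hx
      have hx1 : x ∈ D a ∩ Iio b := hDb ▸ hx.1
      refine ⟨⟨hx1.1, fun d hd hdS hdA => ?_⟩, hx1.2⟩
      have hdb := (hγ.2 d hd hdS hdA).trans hγb
      exact hx.2 d hdb hdS ((acc_congr hDb hdb.le).2 hdA)
    · intro hx
      exact ⟨hDb ▸ ⟨hx.1.1, hx.2⟩, fun d hd hdS hdA =>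
        hx.1.2 d (hd.trans hb) hdS ((acc_congr hDb hd.le).1 hdA)⟩

end Sq2

theorem coh_of_preCoh {κ : Cardinal.{0}} (hκ : ℵ₀ ≤ κ) (h : PreCoh κ) :
    ∃ (S : Set Ordinal.{0}) (C : Ordinal.{0} → Set Ordinal.{0}),
      Stat (Order.succ κ).ord S ∧ (∀ δ ∈ S, CofW δ) ∧ Coh (Order.succ κ).ord C S := by
  obtain ⟨D, P, k, hk, h⟩ := h
  let K : Set Ordinal.{0} := {a | a < (Order.succ κ).ord ∧ 0 < a ∧ ∀ b < a, k b < a}
  have hK : ∀ b < (Order.succ κ).ord, Acc' K b → b ∈ K := fun b hb hacc =>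
    ⟨hb, hacc.1, fun c hc => by
      obtain ⟨γ, hγ, h1, h2⟩ := hacc.2 c hc
      exact (hγ.2.2 c h1).trans h2⟩
  have h' := fun a (ha : a ∈ K) => h a ha.1 ha.2.1 ha.2.2
  obtain ⟨ν, hν, hS1⟩ := Sq2.pigeon hκ (Sq2.stat_cofW hκ hk) (Q := fun δ ν => δ ∈ P ν)
    fun δ hδ => (h' δ hδ.1).2.2.2.2 hδ.2
  let E : Ordinal.{0} → Set Ordinal.{0} := fun a => {β | β < a ∧ Acc' (D a) β ∧ β ∈ P ν}
  obtain ⟨ξ, -, hS⟩ := Sq2.pigeon hκ hS1 (Q := fun δ ξ => col (E δ) δ = ξ) fun δ hδ =>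
    ⟨_, lt_ord.2 (Cardinal.lift_lt.1
      ((card_col_le (E δ) δ).trans_lt ((h' δ hδ.1.1).2.2.2.1 ν hν))), rfl⟩
  obtain ⟨D', g1, g2⟩ := Sq2.thin (K := K) (D := D)
    (S := {δ | ((δ ∈ K ∧ CofW δ) ∧ δ ∈ P ν) ∧ col (E δ) δ = ξ}) (fun a ha => (h' a ha).2.1)
    (fun a ha => (h' a ha).2.2.1) fun d' hd' d hd hacc hdS => by
      have hD := (h' d' hd'.1.1.1).2.2.1 d hd hacc
      have e : col (E d) d = col (E d') d := Sq2.col_congr d fun x hx =>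
        ⟨fun hx' => ⟨hx.trans hd, (Sq2.acc_congr hD hx.le).1 hx'.2.1, hx'.2.2⟩,
          fun hx' => ⟨hx, (Sq2.acc_congr hD hx.le).2 hx'.2.1, hx'.2.2⟩⟩
      have hlt : col (E d') d < col (E d') d' := col_lt_col ⟨hd, hacc, hdS.1.2⟩ hd
      rw [← e, hdS.2, hd'.2] at hlt
      exact lt_irrefl _ hlt
  obtain ⟨C, hC⟩ := Sq2.extend hK (fun _ hx => hx.1.1.1) g1 g2
  exact ⟨_, C, hS, fun δ hδ => hδ.1.1.2, hC⟩

end Pool.Agent.Lib.Sharp
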