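import Pool.Agent.Lib.Sharp.Clos

/-!
Lifting a directed system of collapses along the inverse collapse of a reflecting set.
-/

namespace Pool.Agent.Lib.Sharp

open Pool.Agent.Work.MP_667be6_lc Cardinal Set Tm

/-- the data for lifting -/
structure Ctx where
  (θ θb Λ : Ordinal.{0})
  X : Set Ordinal.{0}
  (c π : Ordinal.{0} → Ordinal.{0})
  Θb : T
  R : Set T
  refl : Refl θ X
  cond : Cond (first θ) X θb c π Θb
  hΛ : θb ≤ Λ
  hR : ∀ r ∈ R, r.WF ∧ r.lev < Λ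
  nc : ∀ r ∈ R, ∀ r' : T, r'.WF → r' ≤ r → ∀ γ < θb, ∀ q : Finset Ordinal.{0},
    ¬ Iio θb ⊆ hull r' (Iio γ ∪ q)

namespace Ctx
variable (C : Ctx)

/-- indices of the system -/
structure Idx where
  r : T
  γ : Ordinal.{0}
  u : T
  hr : r ∈ C.R
  hγ : γ < C.θb
  hu : (u.supp : Set Ordinal.{0}) ⊆ Iio C.Λ

variable {C}

instance : Small.{0} C.Idx :=
  small_of_injective (β := {t : T | (t.supp : Set Ordinal.{0}) ⊆ Iio C.Λ} × Iio C.θb ×
      {t : T | (t.supp : Set Ordinal.{0}) ⊆ Iio C.Λ})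
    (f := fun i => (⟨i.r, (C.hR _ i.hr).1.supp_lt (C.hR _ i.hr).2⟩, ⟨i.γ, i.hγ⟩, ⟨i.u, i.hu⟩)) (by
      rintro ⟨_, _, _, _, _, _⟩ ⟨_, _, _, _, _, _⟩ h
      simp only [Prod.mk.injEq, Subtype.mk.injEq] at h
      obtain ⟨rfl, rfl, rfl⟩ := h
      rfl)

instance : Preorder C.Idx where
  le i j := i.r ≤ j.r ∧ i.γ ≤ j.γ ∧ (i.u.supp : Set Ordinal.{0}) ⊆ j.u.supp
  le_refl _ := ⟨le_rfl, le_rfl, Subset.rfl⟩
  le_trans _ _ _ h h' := ⟨h.1.trans h'.1, h.2.1.trans h'.2.1, h.2.2.trans h'.2.2⟩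

/-- a term whose support is the union of two supports -/
def pair (u u' : T) : T := .mk u.lev 2 (.eq 0 0) ![u, u']

theorem supp_pair (u u' : T) :
    ((pair u u').supp : Set Ordinal.{0}) = (u.supp : Set Ordinal.{0}) ∪ u'.supp := by
  ext b
  simp only [pair, Finset.mem_coe, mem_supp, Fin.exists_fin_two, Matrix.cons_val_zero,
    Matrix.cons_val_one, mem_union]
  exact ⟨fun h => h.elim (fun h => Or.inl (h ▸ u.lev_mem_supp)) id, Or.inr⟩

theorem exists_ge (i j : C.Idx) : ∃ k, i ≤ k ∧ j ≤ k :=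
  ⟨⟨max i.r j.r, max i.γ j.γ, pair i.u j.u,
    by rcases max_choice i.r j.r with h | h <;> rw [h]; exacts [i.hr, j.hr],
    max_lt i.hγ j.hγ, by rw [supp_pair]; exact union_subset i.hu j.hu⟩,
    ⟨le_max_left _ _, le_max_left _ _, by rw [supp_pair]; exact subset_union_left⟩,
    ⟨le_max_right _ _, le_max_right _ _, by rw [supp_pair]; exact subset_union_right⟩⟩

namespace Idx
variable (i j k : C.Idx)

/-- the hull downstairs -/
def H : Set Ordinal.{0} := hull i.r (Iio i.γ ∪ i.u.supp)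

theorem exists_cond : ∃ p : Ordinal.{0} × (Ordinal.{0} → Ordinal.{0}) ×
    (Ordinal.{0} → Ordinal.{0}) × T, Cond i.r i.H p.1 p.2.1 p.2.2.1 p.2.2.2 := by
  obtain ⟨ρ, c, σ, r', h⟩ := hasCond i.r i.H C.Λ (cl_hull _ _) ((hull_subset_union _ _).trans
    (union_subset (union_subset (Iio_subset_Iio (i.hγ.le.trans C.hΛ)) i.hu)
      (Iio_subset_Iio (C.hR _ i.hr).2.le)))
  exact ⟨(ρ, c, σ, r'), h⟩

/-- collapse data -/
noncomputable def ρ : Ordinal.{0} := i.exists_cond.choose.1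
/-- collapse data -/
noncomputable def c : Ordinal.{0} → Ordinal.{0} := i.exists_cond.choose.2.1
/-- collapse data -/
noncomputable def σ : Ordinal.{0} → Ordinal.{0} := i.exists_cond.choose.2.2.1
/-- collapse data -/
noncomputable def rb : T := i.exists_cond.choose.2.2.2

theorem cond : Cond i.r i.H i.ρ i.c i.σ i.rb := i.exists_cond.choose_spec

theorem γ_sub : Iio i.γ ⊆ i.H := subset_union_left.trans (subset_hull _ _)
theorem u_sub : (i.u.supp : Set Ordinal.{0}) ⊆ i.H := subset_union_right.trans (subset_hull _ _)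

theorem Iio_ρ : Iio i.ρ ⊆ hull i.rb (Iio i.γ ∪ (i.u.map i.c).supp) := by
  refine i.cond.Iio_subset_hull.trans (hull_mono le_rfl ?_)
  rw [image_union, coe_supp_map]
  refine union_subset_union_left _ ?_
  rintro _ ⟨x, hx, rfl⟩
  rwa [i.cond.fix _ i.γ_sub x hx]

theorem ρ_lt : i.ρ < C.θb := not_le.1 fun h =>
  C.nc _ i.hr _ i.cond.wf (i.cond.le (C.hR _ i.hr).1) _ i.hγ _ ((Iio_subset_Iio h).trans i.Iio_ρ)

theorem rb_supp : (i.rb.supp : Set Ordinal.{0}) ⊆ Iio C.θb :=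
  i.cond.supp_le.trans (Iic_subset_Iio.2 i.ρ_lt)

/-- the lifted location -/
noncomputable def R : T := i.rb.map C.π
/-- the lifted parameters -/
noncomputable def U : T := (i.u.map j.c).map C.π
/-- the lifted hull -/
def N : Set Ordinal.{0} := hull i.R (Iio (C.π i.γ) ∪ (U i i).supp)

theorem R_supp : (i.R.supp : Set Ordinal.{0}) ⊆ C.X := C.cond.supp_σ i.rb_supp

theorem R_lt : i.R < first C.θ := lt_of_lev_lt (by
  simpa using C.refl.sub (i.R_supp i.R.lev_mem_supp))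

theorem emb_π : IsEmb C.π (Iio C.θb) i.rb i.R := by
  refine C.cond.emb_σ.restrict ?_ i.rb_supp
  have := (C.cond.emb_c.2 i.R (i.cond.wf.map (C.cond.emb_σ.1.mono i.rb_supp)) i.R_lt i.R_supp).1
  rw [R, C.cond.map_c_σ i.rb_supp] at this
  exact this.le

theorem emb_cX : IsEmb C.c C.X i.R i.rb := by
  have := C.cond.emb_c.restrict i.R_lt.le i.R_supp
  rwa [show i.R.map C.c = i.rb from C.cond.map_c_σ i.rb_supp] at this

variable {i j k}

theorem H_mono (h : i ≤ j) : i.H ⊆ j.H :=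
  hull_mono h.1 (union_subset_union (Iio_subset_Iio h.2.1) h.2.2)

theorem uc_supp (h : i ≤ j) : ((i.u.map j.c).supp : Set Ordinal.{0}) ⊆ Iio j.ρ :=
  j.cond.supp_c (i.u_sub.trans (H_mono h))

theorem U_supp (h : i ≤ j) : ((U i j).supp : Set Ordinal.{0}) ⊆ C.X :=
  C.cond.supp_σ ((uc_supp h).trans (Iio_subset_Iio j.ρ_lt.le))

theorem U_mono (h : i ≤ j) : ((U i j).supp : Set Ordinal.{0}) ⊆ (U j j).supp := by
  simp only [U, coe_supp_map]
  exact image_mono (image_mono h.2.2)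

theorem c_lt_γ {x : Ordinal.{0}} (hx : x ∈ Iio (C.π i.γ) ∩ C.X) : C.c x < i.γ := by
  have := C.cond.emb_c.1 hx.2 (C.cond.σ_mem _ i.hγ) hx.1
  rwa [C.cond.c_σ _ i.hγ] at this

theorem hull_X : hull i.R (Iio (C.π i.γ) ∩ C.X ∪ (U i i).supp) ⊆ C.X :=
  hull_subset (C.refl.cl.mono i.R_lt.le) (union_subset inter_subset_right (U_supp le_rfl))

theorem c_hull : MapsTo C.c (hull i.R (Iio (C.π i.γ) ∩ C.X ∪ (U i i).supp)) (Iio i.ρ) := by
  refine (i.emb_cX.mono hull_X).mapsTo_hull i.cond.cl ?_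
  rintro x (hx | hx)
  · exact (c_lt_γ hx).trans_le (i.cond.le_ρ i.γ_sub)
  · rw [U, coe_supp_map] at hx
    obtain ⟨y, hy, rfl⟩ := hx
    have := uc_supp le_rfl hy
    rwa [C.cond.c_σ y (lt_trans this i.ρ_lt)]

theorem via_X (h : i ≤ j) : Via (fun x => C.π (j.c (i.σ (C.c x)))) i.R (Iio (C.π i.γ) ∩ C.X)
    (U i i) (U i j) j.R := by
  refine ⟨?_, fun x hx => ?_, ?_⟩
  · have h1 := i.cond.emb_σ.comp (i.emb_cX.mono hull_X) c_hull
    have h2 := (j.cond.emb_c.mono_loc h.1 le_rfl).comp h1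
      fun x hx => H_mono h (i.cond.σ_mem _ (c_hull hx))
    exact j.emb_π.comp h2 fun x hx =>
      lt_trans (j.cond.c_lt _ (H_mono h (i.cond.σ_mem _ (c_hull hx)))) j.ρ_lt
  · have h1 := c_lt_γ hx
    simp only [(i.cond.σ_fix i.γ_sub h1).2, j.cond.fix _ j.γ_sub _ (h1.trans_le h.2.1),
      C.cond.σ_c x hx.2]
  · simp only [U, map_map]
    refine map_congr fun z hz => ?_
    rw [C.cond.c_σ _ ((i.cond.c_lt z (i.u_sub hz)).trans i.ρ_lt), i.cond.σ_c z (i.u_sub hz)]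

theorem exists_via (h : i ≤ j) : ∃ e, Via e i.R (Iio (C.π i.γ)) (U i i) (U i j) j.R :=
  C.refl.via _ _ _ _ _ i.R_supp (U_supp le_rfl) (U_supp h) j.R_supp (C.cond.σ_mem _ i.hγ)
    ⟨_, via_X h⟩

variable (i j) in
open Classical in
/-- the lifted maps -/
noncomputable def τ : Ordinal.{0} → Ordinal.{0} :=
  if h : i ≤ j then (exists_via h).choose else id

theorem via (h : i ≤ j) : Via (τ i j) i.R (Iio (C.π i.γ)) (U i i) (U i j) j.R := by
  rw [τ, dif_pos h]; exact (exists_via h).choose_spec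

theorem π_mono (h : i ≤ j) : C.π i.γ ≤ C.π j.γ :=
  C.cond.emb_σ.1.monotoneOn i.hγ j.hγ h.2.1

theorem τ_emb (h : i ≤ j) : IsEmb (τ i j) i.N i.R j.R := (via h).1

theorem τ_u (h : i ≤ j) {z : Ordinal.{0}} (hz : z ∈ i.u.supp) :
    τ i j (C.π (i.c z)) = C.π (j.c z) := by
  have := (via h).2.2
  simp only [U, map_map] at this
  exact eq_of_map_eq this z hz

theorem τ_maps (h : i ≤ j) : MapsTo (τ i j) i.N j.N := by
  refine (τ_emb h).mapsTo_hull (cl_hull _ _) ?_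
  rintro x (hx | hx)
  · rw [(via h).2.1 x hx]
    exact subset_hull _ _ (Or.inl (lt_of_lt_of_le hx (π_mono h)))
  · refine subset_hull _ _ (Or.inr (U_mono h ?_))
    rw [← (via h).2.2, coe_supp_map]
    exact mem_image_of_mem _ hx

theorem τ_comp (h : i ≤ j) (h' : j ≤ k) {x : Ordinal.{0}} (hx : x ∈ i.N) :
    τ j k (τ i j x) = τ i k x := by
  refine ((τ_emb h').comp (τ_emb h) (τ_maps h)).eqOn_hull (τ_emb (h.trans h')) ?_ hx
  rintro x (hx | hx)
  · simp only [(via h).2.1 x hx, (via h').2.1 x (lt_of_lt_of_le hx (π_mono h)),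
      (via (h.trans h')).2.1 x hx]
  · simp only [U, map_map, coe_supp_map] at hx
    obtain ⟨z, hz, rfl⟩ := hx
    simp only [τ_u h hz, τ_u h' (h.2.2 hz), τ_u (h.trans h') hz]

theorem N_sub : i.N ⊆ Iio C.θ := by
  refine (hull_subset_union _ _).trans (union_subset (union_subset ?_ ?_) ?_)
  · exact Iio_subset_Iio (le_of_lt (C.refl.sub (C.cond.σ_mem _ i.hγ)))
  · exact (U_supp le_rfl).trans C.refl.sub
  · exact Iio_subset_Iio (by simpa using lev_le_of_le i.R_lt.le)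

theorem πc_maps : MapsTo (fun x => C.π (i.c x)) i.H i.N := by
  intro x hx
  have h1 := i.Iio_ρ (i.cond.c_lt x hx)
  have hcl : Cl i.rb (Iio C.θb) := fun t ht htr _ =>
    (i.cond.cl t ht htr (i.cond.over t ht htr)).trans (Iio_subset_Iio i.ρ_lt.le)
  refine hull_mono le_rfl ?_ (i.emb_π.image_hull hcl (union_subset (Iio_subset_Iio i.hγ.le)
    ((uc_supp le_rfl).trans (Iio_subset_Iio i.ρ_lt.le))) h1)
  rw [image_union, U, coe_supp_map C.π]
  refine union_subset_union_left _ ?_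
  rintro _ ⟨y, hy, rfl⟩
  exact C.cond.emb_σ.1 (lt_trans hy i.hγ) i.hγ hy

/-- there is no descending thread -/
theorem no_thread (k : ℕ → C.Idx) (hk : ∀ n, k n ≤ k (n + 1)) (y : ℕ → Ordinal.{0})
    (hy : ∀ n, y n ∈ (k n).N) : ¬ ∀ n, y (n + 1) < τ (k n) (k (n + 1)) (y n) := by
  intro h
  obtain ⟨z, e, hz⟩ := C.refl.thr (fun n => (k n).R) (fun n => U (k n) (k n))
    (fun n => U (k n) (k (n + 1))) (fun n => (k (n + 1)).R) (fun n => C.π (k n).γ)
    (fun n => (k n).R_supp) (fun n => U_supp le_rfl) (fun n => U_supp (hk n))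
    (fun n => (k (n + 1)).R_supp) (fun n => C.cond.σ_mem _ (k n).hγ)
    ⟨y, fun n => τ (k n) (k (n + 1)), fun n => ⟨via (hk n), hy n, h n⟩⟩
  refine (wellFounded_iff_isEmpty_descending_chain.1 (wellFounded_lt (α := Ordinal.{0}))).elim
    ⟨fun n => (k n).σ (C.c (z n)), fun n => ?_⟩
  obtain ⟨h1, h2, h3⟩ := hz n
  have h4 := (hz (n + 1)).2.1
  have hv := via_X (hk n)
  have h1' := h1.mono (inter_subset_left (t := C.X))
  have he : e n (z n) = _ := h1'.1.eqOn_hull hv.1 (by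
    rintro x (hx | hx)
    · exact (h1'.2.1 x hx).trans (hv.2.1 x hx).symm
    · exact eq_of_map_eq (h1'.2.2.trans hv.2.2.symm) x hx) h2
  rw [he] at h3
  have h5 : (k n).σ (C.c (z n)) ∈ (k (n + 1)).H := H_mono (hk n) ((k n).cond.σ_mem _ (c_hull h2))
  have h6 := (k (n + 1)).cond.c_lt _ h5
  have h7 := C.cond.emb_c.1 (hull_X h4) (C.cond.σ_mem _ (h6.trans (k (n + 1)).ρ_lt)) h3
  rw [C.cond.c_σ _ (h6.trans (k (n + 1)).ρ_lt)] at h7
  have h8 := (k (n + 1)).cond.emb_σ.1 (c_hull h4) h6 h7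
  rwa [(k (n + 1)).cond.σ_c _ h5] at h8

end Idx

open Idx

variable (C) in
/-- points of the direct limit -/
def Pt : Type 1 := {p : C.Idx × Iio C.θ // p.2.1 ∈ p.1.N}

instance : Small.{0} C.Pt := by unfold Pt; infer_instance

/-- the order of the direct limit -/
def Lt (a b : C.Pt) : Prop :=
  ∃ m, a.1.1 ≤ m ∧ b.1.1 ≤ m ∧ τ a.1.1 m a.1.2 < τ b.1.1 m b.1.2

theorem lt_iff {a b : C.Pt} {m : C.Idx} (ha : a.1.1 ≤ m) (hb : b.1.1 ≤ m) :
    Lt a b ↔ τ a.1.1 m a.1.2 < τ b.1.1 m b.1.2 := by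
  refine ⟨fun ⟨m₀, ha₀, hb₀, h⟩ => ?_, fun h => ⟨m, ha, hb, h⟩⟩
  obtain ⟨k, h1, h2⟩ := exists_ge m m₀
  have := (τ_emb h2).1 (τ_maps ha₀ a.2) (τ_maps hb₀ b.2) h
  rw [τ_comp ha₀ h2 a.2, τ_comp hb₀ h2 b.2, ← τ_comp ha h1 a.2, ← τ_comp hb h1 b.2] at this
  exact ((τ_emb h1).1.lt_iff_lt (τ_maps ha a.2) (τ_maps hb b.2)).1 this

theorem lt_trans' (a b c : C.Pt) (h : Lt a b) (h' : Lt b c) : Lt a c := by
  obtain ⟨k, h1, h2⟩ := exists_ge a.1.1 b.1.1
  obtain ⟨m, h3, h4⟩ := exists_ge k c.1.1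
  rw [lt_iff (h1.trans h3) (h2.trans h3)] at h
  rw [lt_iff (h2.trans h3) h4] at h'
  exact ⟨m, h1.trans h3, h4, h.trans h'⟩

theorem lt_wf : WellFounded (Lt (C := C)) := by
  refine wellFounded_iff_isEmpty_descending_chain.2 ⟨fun ⟨a, ha⟩ => ?_⟩
  choose J h1 h2 using exists_ge (C := C)
  let k : ℕ → C.Idx := fun n => Nat.rec (a 0).1.1 (fun n x => J x (a (n + 1)).1.1) n
  have hk : ∀ n, k n ≤ k (n + 1) := fun n => h1 _ _
  have hak : ∀ n, (a n).1.1 ≤ k n := fun n => by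
    cases n
    exacts [le_rfl, h2 _ _]
  refine no_thread k hk (fun n => τ (a n).1.1 (k n) (a n).1.2) (fun n => τ_maps (hak n) (a n).2)
    fun n => ?_
  rw [τ_comp (hak n) (hk n) (a n).2]
  exact (lt_iff (hak (n + 1)) ((hak n).trans (hk n))).1 (ha n)

/-- a point of the limit -/
def pt (i : C.Idx) {x : Ordinal.{0}} (hx : x ∈ i.N) : C.Pt := ⟨(i, ⟨x, N_sub hx⟩), hx⟩

theorem exists_lim : ∃ (t : C.Idx → Ordinal.{0} → Ordinal.{0}) (s : T), s.WF ∧
    (∀ i, IsEmb (t i) i.N i.R s) ∧ (∀ i j, i ≤ j → ∀ x ∈ i.N, t j (τ i j x) = t i x) ∧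
    ∀ i, ∀ x < C.π i.γ, t i x = x := by
  classical
  obtain ⟨ρ, hρ, hρ'⟩ := exists_rank Lt (lt_wf (C := C)) lt_trans'
  let t : C.Idx → Ordinal.{0} → Ordinal.{0} := fun i x => if h : x ∈ i.N then ρ (pt i h) else 0
  have ht : ∀ i x (h : x ∈ i.N), t i x = ρ (pt i h) := fun i x h => dif_pos h
  have hle : ∀ a b, (∀ c, Lt c a → Lt c b) → ρ a ≤ ρ b := fun a b h =>
    le_of_forall_lt fun ξ hξ => by
      obtain ⟨c, hc, rfl⟩ := hρ' a ξ hξ
      exact hρ _ _ (h c hc)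
  have hcomp : ∀ i j, i ≤ j → ∀ x ∈ i.N, t j (τ i j x) = t i x := by
    intro i j h x hx
    rw [ht _ _ hx, ht _ _ (τ_maps h hx)]
    have : ∀ c, Lt c (pt j (τ_maps h hx)) ↔ Lt c (pt i hx) := fun c => by
      obtain ⟨m, h1, h2⟩ := exists_ge c.1.1 j
      rw [lt_iff (b := pt j (τ_maps h hx)) h1 h2, lt_iff (b := pt i hx) h1 (h.trans h2)]
      exact Iff.of_eq (congrArg _ (τ_comp h h2 hx))
    exact le_antisymm (hle _ _ fun c => (this c).1) (hle _ _ fun c => (this c).2)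
  have hmono : ∀ i, StrictMonoOn (t i) i.N := fun i x hx y hy hxy => by
    rw [ht _ _ hx, ht _ _ hy]
    exact hρ _ _ ⟨i, le_rfl, le_rfl, (τ_emb le_rfl).1 hx hy hxy⟩
  have hpt : ∀ a : C.Pt, ρ a = t a.1.1 a.1.2 := fun a => (ht _ _ a.2).symm
  have hsys : Sys (fun i : C.Idx => i.N) (fun i => i.R) t := by
    refine ⟨fun i => cl_hull _ _, hmono, fun i x hx b hb => ?_⟩
    suffices ∃ j, i ≤ j ∧ (b : Set Ordinal.{0}) ⊆ t j '' j.N by
      obtain ⟨j, h, hj⟩ := this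
      exact ⟨j, τ i j, τ_emb h, τ_maps h, hcomp i j h, hj⟩
    induction b using Finset.induction_on with
    | empty => exact ⟨i, le_rfl, by simp⟩
    | insert ξ b _ ih =>
      obtain ⟨j, h, hj⟩ := ih fun ζ hζ => hb ζ (Finset.mem_insert_of_mem hζ)
      obtain ⟨a, -, ha⟩ := hρ' _ ξ (ht _ _ hx ▸ hb ξ (Finset.mem_insert_self _ _))
      obtain ⟨m, h1, h2⟩ := exists_ge j a.1.1
      refine ⟨m, h.trans h1, ?_⟩
      rw [Finset.coe_insert]
      refine insert_subset ⟨_, τ_maps h2 a.2, by rw [hcomp _ _ h2 _ a.2, ← hpt, ha]⟩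
        (hj.trans ?_)
      rintro _ ⟨y, hy, rfl⟩
      exact ⟨_, τ_maps h1 hy, hcomp _ _ h1 _ hy⟩
  refine ⟨t, first (⨆ a, ρ a + 1), first_wf _, fun i => ⟨hmono i, fun u hu hur hs =>
    ⟨lt_of_lev_lt ?_, hsys.S_map i hu hur hs⟩⟩, hcomp, fun i x => ?_⟩
  · rw [lev_map, first_lev, ht _ _ (hs u.lev_mem_supp), Ordinal.lt_iSup_iff]
    exact ⟨_, lt_add_one _⟩
  · have hN : ∀ x < C.π i.γ, x ∈ i.N := fun x hx => subset_hull _ _ (Or.inl hx)
    induction x using WellFoundedLT.induction with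
    | ind x ih =>
      intro hx
      refine le_antisymm (le_of_forall_lt fun ξ hξ => ?_) (le_of_forall_lt fun ξ hξ => ?_)
      · obtain ⟨a, ha, rfl⟩ := hρ' _ ξ (ht _ _ (hN x hx) ▸ hξ)
        obtain ⟨m, h1, h2⟩ := exists_ge a.1.1 i
        have h3 : τ a.1.1 m a.1.2 < x :=
          ((lt_iff (b := pt i (hN x hx)) h1 h2).1 ha).trans_eq ((via h2).2.1 x hx)
        have h4 := hcomp i m h2 _ (hN _ (h3.trans hx))
        rw [(via h2).2.1 _ (h3.trans hx), hcomp _ _ h1 _ a.2, ih _ h3 (h3.trans hx)] at h4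
        rwa [hpt, h4]
      · rw [← ih ξ hξ (hξ.trans hx)]
        exact hmono i (hN _ (hξ.trans hx)) (hN x hx) hξ

/-- the lifting theorem -/
theorem lift (C : Ctx) (hne : C.R.Nonempty) (h0 : 0 < C.θb) :
    ∃ (j : Ordinal.{0} → Ordinal.{0}) (s : T), s.WF ∧
      (∀ r ∈ C.R, IsEmb j (Iio C.Λ) r s) ∧ ∀ x < C.θb, j x = C.π x := by
  classical
  obtain ⟨t, s, hs, hemb, hcomp, hid⟩ := exists_lim (C := C)
  obtain ⟨r₀, hr₀⟩ := hne
  have hf : ∀ z < C.Λ, ((first z).supp : Set Ordinal.{0}) ⊆ Iio C.Λ := fun z hz => by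
    simpa [first_supp] using hz
  let I : ∀ z < C.Λ, C.Idx := fun z hz => ⟨r₀, 0, first z, hr₀, h0, hf z hz⟩
  let j : Ordinal.{0} → Ordinal.{0} := fun z =>
    if h : z < C.Λ then t (I z h) (C.π ((I z h).c z)) else 0
  have hj : ∀ (i : C.Idx), ∀ z ∈ i.u.supp, j z = t i (C.π (i.c z)) := by
    intro i z hz
    have hΛ : z < C.Λ := i.hu hz
    have hz' : z ∈ (I z hΛ).u.supp := by simp [I, first_supp]
    obtain ⟨m, h1, h2⟩ := exists_ge i (I z hΛ)
    simp only [j, dif_pos hΛ]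
    rw [← hcomp _ _ h1 _ (πc_maps (i.u_sub hz)), ← hcomp _ _ h2 _ (πc_maps ((I z hΛ).u_sub hz')),
      τ_u h1 hz, τ_u h2 hz']
  have hE : ∀ i : C.Idx, IsEmb (fun x => t i (C.π (i.c x))) i.H i.r s := fun i =>
    (hemb i).comp (i.emb_π.comp i.cond.emb_c fun x hx => lt_trans (i.cond.c_lt x hx) i.ρ_lt)
      πc_maps
  refine ⟨j, s, hs, fun r hr => ⟨fun x hx y hy hxy => ?_, fun u hu hur hsu => ?_⟩, fun x hx => ?_⟩
  · let i : C.Idx := ⟨r₀, 0, pair (first x) (first y), hr₀, h0, by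
      rw [supp_pair]; exact union_subset (hf x hx) (hf y hy)⟩
    have hx' : x ∈ (i.u.supp : Set Ordinal.{0}) := by simp [i, supp_pair, first_supp]
    have hy' : y ∈ (i.u.supp : Set Ordinal.{0}) := by simp [i, supp_pair, first_supp]
    rw [hj i x hx', hj i y hy']
    exact (hE i).1 (i.u_sub hx') (i.u_sub hy') hxy
  · let i : C.Idx := ⟨r, 0, pair u (S u), hr, h0, by
      rw [supp_pair]
      exact union_subset hsu ((S_wf hu).supp_lt
        ((lev_le_of_le (S_le u)).trans_lt (hsu u.lev_mem_supp)))⟩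
    have h1 : (u.supp : Set Ordinal.{0}) ⊆ i.u.supp := by simp [i, supp_pair]
    have h2 : ((S u).supp : Set Ordinal.{0}) ⊆ i.u.supp := by simp [i, supp_pair]
    rw [map_congr fun a ha => hj i a (h1 ha), map_congr (t := S u) fun a ha => hj i a (h2 ha)]
    exact (hE i).2 u hu hur (h1.trans i.u_sub)
  · have hx1 : x + 1 < C.θb := by
      refine not_le.1 fun h => C.nc _ hr₀ _ (C.hR _ hr₀).1 le_rfl x hx {x} fun y hy => ?_
      refine subset_hull _ _ ?_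
      rcases (Order.lt_add_one_iff.1 (lt_of_lt_of_le hy h)).eq_or_lt with h | h
      exacts [Or.inr (by simpa using h), Or.inl h]
    let i : C.Idx := ⟨r₀, x + 1, first x, hr₀, hx1, hf x (hx.trans_le C.hΛ)⟩
    rw [hj i x (by simp [i, first_supp]), i.cond.fix _ i.γ_sub x (lt_add_one x)]
    exact hid i _ (C.cond.emb_σ.1 hx hx1 (lt_add_one x))

end Ctx

end Pool.Agent.Lib.Sharp
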