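import Pool.Agent.Lib.Sharp.Defs

/-!
Basic facts on terms: order invariance, well-formedness, values, the operation `S`.
-/

namespace Pool.Agent.Lib.Sharp

open Pool.Agent.Work.MP_667be6_lc Cardinal Set

namespace Tm

theorem lev_le_of_le {t t' : T} (h : t ≤ t') : t.lev ≤ t'.lev := by
  have : key t ≤ key t' := h
  simp only [key, Prod.Lex.toLex_le_toLex] at this
  rcases this with h | h
  exacts [h.le, h.1.le]

theorem lt_of_lev_lt {t t' : T} (h : t.lev < t'.lev) : t < t' := by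
  rw [lt_def]; simp only [key, Prod.Lex.toLex_lt_toLex]; exact Or.inl h

theorem lt_of_dep_lt {t t' : T} (h : t.lev = t'.lev) (h' : t.dep < t'.dep) : t < t' := by
  rw [lt_def]; simp only [key, Prod.Lex.toLex_lt_toLex]; exact Or.inr ⟨h, Or.inl h'⟩

theorem shape_map {f : Ordinal.{0} → Ordinal.{0}} {t : T} (hf : StrictMonoOn f t.supp) :
    (t.map f).map (pos (t.map f).supp) = t.map (pos t.supp) := by
  classical
  rw [map_map]
  refine map_congr fun a ha => ?_
  have : (t.map f).supp.filter (· < f a) = (t.supp.filter (· < a)).image f := by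
    ext b
    simp only [Finset.mem_filter, mem_supp_map, Finset.mem_image]
    constructor
    · rintro ⟨⟨c, hc, rfl⟩, h⟩
      exact ⟨c, ⟨hc, (hf.lt_iff_lt hc ha).1 h⟩, rfl⟩
    · rintro ⟨c, ⟨hc, h⟩, rfl⟩
      exact ⟨⟨c, hc, rfl⟩, hf hc ha h⟩
  rw [pos, this, Finset.card_image_of_injOn, pos]
  exact hf.injOn.mono fun x hx => (Finset.mem_filter.1 hx).1

theorem colex_image_lt {f : Ordinal.{0} → Ordinal.{0}} {s s' u u' : Finset Ordinal.{0}}
    (hf : StrictMonoOn f (s ∪ s' : Set Ordinal.{0})) (hu : ∀ b, b ∈ u ↔ ∃ a ∈ s, f a = b)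
    (hu' : ∀ b, b ∈ u' ↔ ∃ a ∈ s', f a = b) (h : toColex s < toColex s') :
    toColex u < toColex u' := by
  rw [Finset.Colex.toColex_lt_toColex_iff_exists_forall_lt] at h ⊢
  obtain ⟨a, ha', ha, h⟩ := h
  refine ⟨f a, (hu' _).2 ⟨a, ha', rfl⟩, fun h' => ?_, fun b hb hb' => ?_⟩
  · obtain ⟨c, hc, hca⟩ := (hu _).1 h'
    exact ha (hf.injOn (Or.inl hc) (Or.inr ha') hca ▸ hc)
  · obtain ⟨c, hc, rfl⟩ := (hu _).1 hb
    exact hf (Or.inl hc) (Or.inr ha') (h c hc fun hc' => hb' ((hu' _).2 ⟨c, hc', rfl⟩))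

theorem map_lt_map {f : Ordinal.{0} → Ordinal.{0}} {t t' : T}
    (hf : StrictMonoOn f (t.supp ∪ t'.supp : Set Ordinal.{0})) (h : t < t') :
    t.map f < t'.map f := by
  rw [lt_def] at h ⊢
  simp only [key, Prod.Lex.toLex_lt_toLex, shape_map (hf.mono subset_union_left),
    shape_map (hf.mono subset_union_right), lev_map, dep_map] at h ⊢
  rcases h with h | ⟨h1, h⟩
  · exact Or.inl (hf (Or.inl t.lev_mem_supp) (Or.inr t'.lev_mem_supp) h)
  refine Or.inr ⟨by rw [h1], ?_⟩
  rcases h with h | ⟨h2, h⟩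
  · exact Or.inl h
  refine Or.inr ⟨h2, ?_⟩
  rcases h with h | ⟨h3, h⟩
  · exact Or.inl (colex_image_lt hf (fun _ => mem_supp_map) (fun _ => mem_supp_map) h)
  refine Or.inr ⟨?_, h⟩
  rw [toColex_inj] at h3 ⊢
  ext b
  simp only [mem_supp_map, h3]

theorem map_lt_map_iff {f : Ordinal.{0} → Ordinal.{0}} {t t' : T}
    (hf : StrictMonoOn f (t.supp ∪ t'.supp : Set Ordinal.{0})) :
    t.map f < t'.map f ↔ t < t' := by
  refine ⟨fun h => ?_, map_lt_map hf⟩
  rcases lt_trichotomy t t' with h' | rfl | h'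
  · exact h'
  · exact absurd h (lt_irrefl _)
  · exact absurd (map_lt_map (by rwa [union_comm]) h') h.asymm

theorem map_le_map {f : Ordinal.{0} → Ordinal.{0}} {t t' : T}
    (hf : StrictMonoOn f (t.supp ∪ t'.supp : Set Ordinal.{0})) (h : t ≤ t') :
    t.map f ≤ t'.map f := by
  rcases h.eq_or_lt with rfl | h
  exacts [le_rfl, (map_lt_map hf h).le]

theorem supp_arg {a : Ordinal.{0}} {n : ℕ} {φ : Fml (n + 1)} {v : Fin n → T} (i : Fin n) :
    ((v i).supp : Set Ordinal.{0}) ⊆ (mk a n φ v).supp :=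
  fun _ hb => mem_supp.2 (Or.inr ⟨i, hb⟩)

theorem WF.le_lev {t : T} (h : t.WF) : ∀ b ∈ t.supp, b ≤ t.lev := by
  induction t with
  | mk a n φ v ih =>
    intro b hb
    rcases mem_supp.1 hb with rfl | ⟨i, hi⟩
    · exact le_rfl
    · exact (ih i (h i).2 b hi).trans (h i).1.le

theorem WF.supp_lt {t : T} (h : t.WF) {ρ : Ordinal.{0}} (hρ : t.lev < ρ) :
    (t.supp : Set Ordinal.{0}) ⊆ Iio ρ := fun b hb => (h.le_lev b hb).trans_lt hρ

theorem WF.map {f : Ordinal.{0} → Ordinal.{0}} {t : T} (h : t.WF)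
    (hf : StrictMonoOn f t.supp) : (t.map f).WF := by
  induction t with
  | mk a n φ v ih =>
    intro i
    refine ⟨?_, ih i (h i).2 (hf.mono (supp_arg i))⟩
    rw [lev_map]
    exact hf (supp_arg i (v i).lev_mem_supp) (lev_mem_supp (mk a n φ v)) (h i).1

theorem WF.of_map {f : Ordinal.{0} → Ordinal.{0}} {t : T} (h : (t.map f).WF)
    (hf : StrictMonoOn f t.supp) : t.WF := by
  induction t with
  | mk a n φ v ih =>
    intro i
    refine ⟨?_, ih i (h i).2 (hf.mono (supp_arg i))⟩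
    have := (h i).1
    rw [lev_map] at this
    exact (hf.lt_iff_lt (supp_arg i (v i).lev_mem_supp) (lev_mem_supp (mk a n φ v))).1 this

/-- renaming by a strictly monotone map on an initial segment does not decrease terms -/
theorem WF.le_map {e : Ordinal.{0} → Ordinal.{0}} {ρ : Ordinal.{0}} (he : StrictMonoOn e (Iio ρ))
    {t : T} (h : t.WF) (hρ : t.lev < ρ) : t ≤ t.map e := by
  induction t using WellFoundedLT.induction with
  | ind t ih =>
    by_contra hlt
    push Not at hlt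
    have hw : (t.map e).WF := h.map (he.mono (h.supp_lt hρ))
    have hl : (t.map e).lev < ρ := (lev_le_of_le hlt.le).trans_lt hρ
    exact (ih _ hlt hw hl).not_gt
      (map_lt_map (he.mono (union_subset (hw.supp_lt hl) (h.supp_lt hρ))) hlt)

theorem val_subset (t : T) : t.val ⊆ L t.lev := by
  cases t; exact dset_subset _ _

theorem WF.val_mem {t : T} (h : t.WF) {β : Ordinal.{0}} (hβ : t.lev < β) : t.val ∈ L β := by
  induction t generalizing β with
  | mk a n φ v ih => exact dset_mem_L hβ φ fun i => ih i (h i).2 (h i).1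

theorem exists_val {β : Ordinal.{0}} {x : ZFSet.{0}} (hx : x ∈ L β) :
    ∃ u : T, u.WF ∧ u.lev < β ∧ u.val = x := by
  induction β using WellFoundedLT.induction generalizing x with
  | ind β ih =>
    obtain ⟨α, hα, hx⟩ := mem_L_iff.1 hx
    obtain ⟨n, φ, v, hv, rfl⟩ := mem_Def_L.1 hx
    choose u hu using fun i => ih α hα (hv i)
    refine ⟨mk α n φ u, fun i => ⟨(hu i).2.1, (hu i).1⟩, hα, ?_⟩
    simp only [val, fun i => (hu i).2.2]

/-- a term over the range of a map is a renamed term -/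
theorem exists_map_eq {f : Ordinal.{0} → Ordinal.{0}} {N : Set Ordinal.{0}} {u : T}
    (h : (u.supp : Set Ordinal.{0}) ⊆ f '' N) :
    ∃ t : T, (t.supp : Set Ordinal.{0}) ⊆ N ∧ t.map f = u := by
  classical
  choose! g hg hfg using h
  refine ⟨u.map g, ?_, ?_⟩
  · rw [coe_supp_map]; rintro _ ⟨a, ha, rfl⟩; exact hg ha
  · rw [map_map]; exact map_eq_self fun a ha => hfg ha

end Tm

open Tm

theorem S_of_empty {t : T} (h : ∀ x, x ∉ t.val) : S t = t := by
  rw [S, dif_neg]
  rintro ⟨u, -, hu⟩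
  exact h _ hu

theorem S_spec {t : T} {x : ZFSet.{0}} (h : x ∈ t.val) :
    (S t).WF ∧ (S t).val ∈ t.val ∧ (S t).lev < t.lev ∧
      ∀ u : T, u.WF → u.val ∈ t.val → S t ≤ u := by
  obtain ⟨u, hu, hl, rfl⟩ := exists_val (t.val_subset h)
  have hne : {u : T | u.WF ∧ u.val ∈ t.val}.Nonempty := ⟨u, hu, h⟩
  have hmin : ∀ u : T, u.WF → u.val ∈ t.val → S t ≤ u := fun u hu h => by
    rw [S, dif_pos hne]
    exact not_lt.1 (wellFounded_lt.not_lt_min _ (show u ∈ {u : T | u.WF ∧ u.val ∈ t.val} from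
      ⟨hu, h⟩))
  have hmem : S t ∈ {u : T | u.WF ∧ u.val ∈ t.val} := by
    rw [S, dif_pos hne]; exact wellFounded_lt.min_mem _ hne
  exact ⟨hmem.1, hmem.2, (lev_le_of_le (hmin u hu h)).trans_lt hl, hmin⟩

theorem S_wf {t : T} (h : t.WF) : (S t).WF := by
  by_cases hx : ∃ x, x ∈ t.val
  · obtain ⟨x, hx⟩ := hx
    exact (S_spec hx).1
  · rwa [S_of_empty fun x h => hx ⟨x, h⟩]

theorem S_eq_iff {t : T} : S t = t ↔ ∀ x, x ∉ t.val :=
  ⟨fun h x hx => (S_spec hx).2.2.1.ne (by rw [h]), S_of_empty⟩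

theorem S_cases (t : T) : S t = t ∨ (S t).lev < t.lev := by
  by_cases hx : ∃ x, x ∈ t.val
  · obtain ⟨x, hx⟩ := hx
    exact Or.inr (S_spec hx).2.2.1
  · exact Or.inl (S_of_empty fun x h => hx ⟨x, h⟩)

theorem S_le (t : T) : S t ≤ t := by
  rcases S_cases t with h | h
  exacts [h.le, (lt_of_lev_lt h).le]

theorem first_wf (c : Ordinal.{0}) : (first c).WF := (wellFounded_lt.min_mem
  {u : T | u.WF ∧ u.lev = c} _).1

@[simp] theorem first_lev (c : Ordinal.{0}) : (first c).lev = c := (wellFounded_lt.min_mem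
  {u : T | u.WF ∧ u.lev = c} _).2

theorem first_le {c : Ordinal.{0}} {u : T} (hu : u.WF) (h : c ≤ u.lev) : first c ≤ u := by
  rcases h.eq_or_lt with h | h
  · exact not_lt.1 (wellFounded_lt.not_lt_min _ (show u ∈ {u : T | u.WF ∧ u.lev = c} from
      ⟨hu, h.symm⟩))
  · exact (lt_of_lev_lt (by simpa using h)).le

theorem lt_first_iff {c : Ordinal.{0}} {u : T} (hu : u.WF) : u < first c ↔ u.lev < c :=
  ⟨fun h => not_le.1 fun h' => (first_le hu h').not_gt h, fun h => lt_of_lev_lt (by simpa)⟩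

theorem first_supp (c : Ordinal.{0}) : (first c).supp = {c} := by
  have h : key (first c) ≤ key (.mk c 0 (.eq 0 0) Fin.elim0) :=
    first_le (u := .mk c 0 (.eq 0 0) Fin.elim0) (fun i => i.elim0) le_rfl
  have hs : (Tm.mk c 0 (.eq 0 0) Fin.elim0 : T).supp = {c} := by
    ext b; simp [mem_supp]
  have hc : c ∈ (first c).supp := by simpa using (first c).lev_mem_supp
  simp only [key, Prod.Lex.toLex_le_toLex, first_lev, hs] at h
  have h' : toColex (first c).supp ≤ toColex {c} := by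
    rcases h with h | ⟨-, h | ⟨-, h | ⟨h, -⟩⟩⟩
    · exact absurd h (lt_irrefl _)
    · exact absurd h (Nat.not_lt_zero _)
    · exact h.le
    · exact h.le
  ext b
  rw [Finset.mem_singleton]
  exact ⟨fun hb => (Finset.Colex.toColex_le_singleton.1 h' b hb).2 hc, fun hb => hb ▸ hc⟩

theorem first_map (f : Ordinal.{0} → Ordinal.{0}) (c : Ordinal.{0}) :
    (first c).map f = first (f c) := by
  have h1 : ∀ (g : Ordinal.{0} → Ordinal.{0}) (d : Ordinal.{0}), StrictMonoOn g {d} :=
    fun g d => Set.subsingleton_singleton.strictMonoOn g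
  have hw : ∀ (g : Ordinal.{0} → Ordinal.{0}) (d : Ordinal.{0}), ((first d).map g).WF :=
    fun g d => (first_wf d).map (by rw [first_supp, Finset.coe_singleton]; exact h1 g d)
  refine le_antisymm ?_ (first_le (hw f c) (by simp))
  have h2 : first c ≤ (first (f c)).map fun _ => c := first_le (hw _ _) (by simp)
  have h3 := map_le_map (f := f) (by
    rw [coe_supp_map, first_supp, first_supp]; simp) h2
  rw [map_map, map_eq_self (t := first (f c)) (by simp [first_supp])] at h3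
  exact h3

theorem first_strictMono : StrictMono first := fun _ _ h => lt_of_lev_lt (by simpa using h)

end Pool.Agent.Lib.Sharp
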