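import Pool.Agent.Lib.Sharp.Iface
import Mathlib.Topology.Separation.GDelta
import Mathlib.Topology.Metrizable.Basic
import Mathlib.Topology.Metrizable.Uniformity
import Mathlib.Algebra.Order.Archimedean.Real.Basic

/-!
The branch space of a good tree is perfectly normal, has a base of rank one and is not metrizable.
-/

namespace Pool.Agent.Lib.Sharp

open Cardinal Set Tm Pool.Agent.Work.MP_667be6_lc TopologicalSpace

variable {N : Type 1} [PartialOrder N] {Y : Type} {cone : N → Set Y}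

theorem Top_basis (h : Good cone) :
    @IsTopologicalBasis Y (generateFrom (range cone)) (range cone) := by
  let := generateFrom (range cone)
  refine ⟨?_, ?_, rfl⟩
  · rintro _ ⟨a, rfl⟩ _ ⟨b, rfl⟩ y ⟨ha, hb⟩
    rcases h.cmp a b y ha hb with hab | hab
    · exact ⟨_, ⟨b, rfl⟩, hb, subset_inter (h.anti a b hab) subset_rfl⟩
    · exact ⟨_, ⟨a, rfl⟩, ha, subset_inter subset_rfl (h.anti b a hab)⟩
  · refine eq_univ_of_forall fun y => ?_
    obtain ⟨a, ha⟩ := h.cover y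
    exact ⟨_, ⟨a, rfl⟩, ha⟩

variable [TopologicalSpace Y]

theorem Top_above (h : Good cone) (hb : IsTopologicalBasis (range cone)) {U : Set Y}
    (hU : IsOpen U) {a : N} {y : Y} (ha : y ∈ cone a) (hy : y ∈ U) :
    ∃ d, a ≤ d ∧ y ∈ cone d ∧ cone d ⊆ U := by
  obtain ⟨_, ⟨b, rfl⟩, h1, h2⟩ := hb.exists_subset_of_mem_open hy hU
  rcases h.cmp a b y ha h1 with hab | hab
  · exact ⟨b, hab, h1, h2⟩
  · exact ⟨a, le_rfl, ha, (h.anti b a hab).trans h2⟩

theorem Top_key (h : Good cone) (hb : IsTopologicalBasis (range cone)) {U : Set Y}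
    (hU : IsOpen U) : ∃ u : ℕ → Set Y, (∀ n, IsOpen (u n) ∧ IsClosed (u n)) ∧ ⋃ n, u n = U := by
  obtain ⟨B, g, hB, hg, h1, h2⟩ := h.sealed {a | cone a ⊆ U ∨ Disjoint (cone a) U}
    (fun a b hab ha => ha.imp (h.anti a b hab).trans fun h' => h'.mono_left (h.anti a b hab))
    (fun a => by
      by_cases hd : Disjoint (cone a) U
      · exact ⟨a, Or.inr hd, le_rfl⟩
      · obtain ⟨y, hy, hy'⟩ := not_disjoint_iff.1 hd
        obtain ⟨d, d1, -, d2⟩ := Top_above h hb hU hy hy'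
        exact ⟨d, Or.inl d2, d1⟩)
  have ho : ∀ a, IsOpen (cone a) := fun a => hb.isOpen ⟨a, rfl⟩
  refine ⟨fun n => {y | ∃ a ∈ B, g a ≤ n ∧ cone a ⊆ U ∧ y ∈ cone a}, fun n => ⟨?_, ?_⟩, ?_⟩
  · refine isOpen_iff_forall_mem_open.2 ?_
    rintro y ⟨a, a1, a2, a3, a4⟩
    exact ⟨cone a, fun z hz => ⟨a, a1, a2, a3, hz⟩, ho a, a4⟩
  · refine isOpen_compl_iff.1 (isOpen_iff_forall_mem_open.2 fun y hy => ?_)
    obtain ⟨t, t1, t2⟩ : ∃ t, y ∈ cone t ∧ ∀ a ∈ B, g a ≤ n → ¬ t ≤ a := by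
      by_cases hc : ∀ a, y ∈ cone a → a ∈ B
      · obtain ⟨t, t1, t2⟩ := h2 y hc n
        exact ⟨t, t1, fun a a1 a2 hta => absurd ((hg (hc t t1) a1 hta).trans a2) (not_le.2 t2)⟩
      · push Not at hc
        obtain ⟨t, t1, t2⟩ := hc
        exact ⟨t, t1, fun a a1 _ hta => t2 (hB hta a1)⟩
    refine ⟨cone t, ?_, ho t, t1⟩
    rintro z hz ⟨a, a1, a2, a3, a4⟩
    rcases h.cmp t a z hz a4 with hta | hta
    · exact t2 a a1 a2 hta
    · exact hy ⟨a, a1, a2, a3, h.anti a t hta t1⟩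
  · refine Subset.antisymm (iUnion_subset ?_) fun y hy => ?_
    · rintro n y ⟨a, -, -, a3, a4⟩
      exact a3 a4
    · obtain ⟨_, ⟨a, rfl⟩, a1, a2⟩ := hb.exists_subset_of_mem_open hy hU
      by_cases ha : a ∈ B
      · exact mem_iUnion.2 ⟨g a, a, ha, le_rfl, a2, a1⟩
      · obtain ⟨b, ⟨b1, b2⟩, b3⟩ := h1 a ha
        have b4 := h.anti b a b3 a1
        exact mem_iUnion.2 ⟨g b, b, b1, le_rfl,
          b2.resolve_right fun hd => disjoint_left.1 hd b4 hy, b4⟩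

theorem Top_cover (h : Good cone) (hb : IsTopologicalBasis (range cone)) {s t : Set Y}
    (ht : IsClosed t) (hst : Disjoint s t) : HasSeparatingCover s t := by
  obtain ⟨u, u1, u2⟩ := Top_key h hb ht.isOpen_compl
  refine ⟨u, u2 ▸ hst.subset_compl_right, fun n => ⟨(u1 n).1, ?_⟩⟩
  rw [(u1 n).2.closure_eq, ← subset_compl_iff_disjoint_right, ← u2]
  exact subset_iUnion u n

theorem Top_normal (h : Good cone) (hb : IsTopologicalBasis (range cone)) :
    PerfectlyNormalSpace Y where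
  normal _ _ hs ht hst := hasSeparatingCovers_iff_separatedNhds.1
    ⟨Top_cover h hb ht hst, Top_cover h hb hs hst.symm⟩
  closed_gdelta s hs := by
    obtain ⟨u, u1, u2⟩ := Top_key h hb hs.isOpen_compl
    rw [← compl_compl s, ← u2, compl_iUnion]
    exact IsGδ.iInter_of_isOpen fun n => (u1 n).2.isOpen_compl

theorem Top_not (h : Good cone) (hb : IsTopologicalBasis (range cone)) :
    ¬ MetrizableSpace Y := by
  intro hm
  let _ : MetricSpace Y := metrizableSpaceMetric Y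
  obtain ⟨a, ha⟩ := h.baire (fun n => {a | ∃ x, cone a ⊆ Metric.ball x (1 / ((n : ℝ) + 1))})
    (fun n a b hab ⟨x, hx⟩ => ⟨x, (h.anti a b hab).trans hx⟩) fun n a => by
      obtain ⟨y, hy, -⟩ := h.two a
      obtain ⟨d, d1, -, d2⟩ := Top_above h hb Metric.isOpen_ball hy
        (Metric.mem_ball_self (show 0 < 1 / ((n : ℝ) + 1) by positivity))
      exact ⟨d, ⟨y, d2⟩, d1⟩
  obtain ⟨y, hy, y', hy', hne⟩ := h.two a
  obtain ⟨n, hn⟩ := exists_nat_one_div_lt (half_pos (dist_pos.2 hne))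
  obtain ⟨x, hx⟩ := ha n
  have h1 := Metric.mem_ball.1 (hx hy)
  have h2 := Metric.mem_ball.1 (hx hy')
  have h3 := dist_triangle_right y y' x
  linarith

omit [TopologicalSpace Y] in
theorem Good.space {N : Type 1} [PartialOrder N] {Y : Type} {cone : N → Set Y} (h : Good cone) :
    ∃ _ : TopologicalSpace Y, T1Space Y ∧ PerfectlyNormalSpace Y ∧
      (∃ B : Set (Set Y), TopologicalSpace.IsTopologicalBasis B ∧
        ∀ U ∈ B, ∀ V ∈ B, ∀ y, y ∈ U → y ∈ V → U ⊆ V ∨ V ⊆ U) ∧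
      ¬ TopologicalSpace.MetrizableSpace Y := by
  have hb := Top_basis h
  let := generateFrom (range cone)
  refine ⟨this, t1Space_iff_exists_open.2 fun y y' hne => ?_, Top_normal h hb,
    ⟨_, hb, ?_⟩, Top_not h hb⟩
  · obtain ⟨a, a1, a2⟩ := h.sep y y' hne
    exact ⟨cone a, hb.isOpen ⟨a, rfl⟩, a1, a2⟩
  · rintro _ ⟨a, rfl⟩ _ ⟨b, rfl⟩ y ha hb'
    exact (h.cmp b a y hb' ha).imp (h.anti b a) (h.anti a b)

end Pool.Agent.Lib.Sharp
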