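import Pool.Agent.Lib.Sharp.TreeB
import Mathlib.SetTheory.Cardinal.Regular
import Mathlib.Data.Set.Card

/-!
A Suslin tree of zero-rays from coherent clubs and diamond.
-/

namespace Pool.Agent.Lib.Sharp

open Cardinal Set Tm Pool.Agent.Work.MP_667be6_lc

namespace Tree

variable {κ : Cardinal.{0}} {l : Ordinal.{0}} {S : Set Ordinal.{0}}
  {C : Ordinal.{0} → Set Ordinal.{0}} {G Lv J : Ordinal.{0} → Set Node}

theorem bdd (hκ : ℵ₀ ≤ κ) {ι : Type 1} (hι : #ι ≤ Cardinal.lift.{1} κ) {f : ι → Ordinal.{0}}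
    (hf : ∀ i, f i < (Order.succ κ).ord) : ∃ b < (Order.succ κ).ord, ∀ i, f i ≤ b := by
  refine ⟨sSup (range f), Ordinal.sSup_lt_of_lt_cof ?_ (forall_mem_range.2 hf),
    fun i => le_csSup ⟨_, forall_mem_range.2 fun i => (hf i).le⟩ (mem_range_self i)⟩
  rw [← Ordinal.lift_cof, (isRegular_succ hκ).cof_ord]
  exact (mk_range_le.trans hι).trans_lt (lift_lt.2 (Order.lt_succ κ))

theorem finite_of_not_acc {Z : Set Ordinal.{0}} (x : Ordinal.{0}) :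
    (∀ y ≤ x, ¬ Acc' Z y) → {z | z ≤ x ∧ z ∈ Z}.Finite := by
  induction x using WellFoundedLT.induction with
  | ind x ih =>
    intro h
    rcases eq_zero_or_pos x with rfl | h0
    · exact (finite_singleton 0).subset fun z hz => nonpos_iff_eq_zero.1 hz.1
    · obtain ⟨w, hw, hw'⟩ := not_acc h0 (h x le_rfl)
      refine ((ih w hw fun y hy => h y (hy.trans hw.le)).insert x).subset fun z hz => ?_
      rcases hz.1.eq_or_lt with e | e
      · exact Or.inl e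
      · exact Or.inr ⟨hw' z hz.2 e, hz.2⟩

theorem ncard_unbdd {Z : Set Ordinal.{0}} {y : Ordinal.{0}} (h : Acc' Z y)
    (hf : ∀ x < y, {z | z ≤ x ∧ z ∈ Z}.Finite) (n : ℕ) :
    ∃ x < y, n ≤ {z | z ≤ x ∧ z ∈ Z}.ncard := by
  induction n with
  | zero => exact ⟨0, h.1, Nat.zero_le _⟩
  | succ n ih =>
    obtain ⟨x, hx, h1⟩ := ih
    obtain ⟨g, hg, h2, h3⟩ := h.2 x hx
    refine ⟨g, h3, Nat.succ_le_of_lt (h1.trans_lt (ncard_lt_ncard ⟨fun z hz =>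
      ⟨hz.1.trans h2.le, hz.2⟩, fun hs => ?_⟩ (hf g h3)))⟩
    exact absurd (hs (show g ∈ {z | z ≤ g ∧ z ∈ Z} from ⟨le_rfl, hg⟩)).1 h2.not_ge

theorem om_add (x : Ordinal.{0}) : Om x (x + Ordinal.omega0) := by
  refine ⟨lt_add_of_pos_right x Ordinal.omega0_pos, fun z hz =>
    (Ordinal.isSuccLimit_add x Ordinal.isSuccLimit_omega0).add_one_lt hz, fun z h1 h2 => ?_⟩
  obtain ⟨d, rfl⟩ := exists_add_of_le h1.le
  obtain ⟨n, rfl⟩ := Ordinal.lt_omega0.1 ((add_lt_add_iff_left x).1 h2)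
  cases n with
  | zero => simp at h1
  | succ n => exact ⟨x + n, by rw [Nat.cast_succ, add_assoc]⟩

theorem Om.succ {x y : Ordinal.{0}} (h : Om x y) : Om (x + 1) y :=
  ⟨h.2.1 x h.1, h.2.1, fun z h1 => h.2.2 z ((lt_one_add x).trans h1)⟩

theorem ray_mem (H : Spec l S C G Lv J) {x y : Ordinal.{0}} (I : Inv κ Lv J x) (ho : Om x y)
    {A : Set Ordinal.{0}} (hA : res A x ∈ Lv x) (z : Ordinal.{0}) : z < y → res A z ∈ Lv z := by
  induction z using WellFoundedLT.induction with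
  | ind z ih =>
    intro hz
    rcases le_or_gt z x with h | h
    · exact I.down A z h hA
    · obtain ⟨w, rfl⟩ := ho.2.2 z h hz
      exact (H.succ A w).2 (ih w (lt_one_add w) ((lt_one_add w).trans hz))

/-- the nodes -/
def Nd (l : Ordinal.{0}) (Lv : Ordinal.{0} → Set Node) : Type 1 := Tb Lv l

/-- the rays -/
def Ray (l : Ordinal.{0}) (Lv : Ordinal.{0} → Set Node) : Set Node :=
  {x | x.1 < l ∧ (∀ z < x.1, res x.2 z ∈ Lv z) ∧ ∃ h, Om h x.1 ∧ x.2 ⊆ Iio h}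

theorem small_ray (l : Ordinal.{0}) (Lv : Ordinal.{0} → Set Node) : Small.{0} (Ray l Lv) := by
  refine small_of_injective (f := fun x : Ray l Lv =>
    ((⟨x.1.1, x.2.1⟩, Subtype.val ⁻¹' x.1.2) : Iio l × Set (Iio l))) fun x y h => ?_
  have h1 : ∀ x : Ray l Lv, x.1.2 ⊆ Iio l := fun x z hz => by
    obtain ⟨h, h1, h2⟩ := x.2.2.2
    exact ((h2 hz).trans h1.1).trans x.2.1
  have h2 : (Subtype.val ⁻¹' x.1.2 : Set (Iio l)) = Subtype.val ⁻¹' y.1.2 := congrArg Prod.snd h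
  exact Subtype.ext (Prod.ext (congrArg (fun p => p.1.1) h) (Set.ext fun z =>
    ⟨fun hz => (Set.ext_iff.1 h2 ⟨z, h1 x hz⟩).1 hz,
      fun hz => (Set.ext_iff.1 h2 ⟨z, h1 y hz⟩).2 hz⟩))

/-- the order of the tree -/
@[reducible] def ord (H : Spec l S C G Lv J) : PartialOrder (Nd l Lv) where
  le s t := s.1.1 ≤ t.1.1 ∧ res t.1.2 s.1.1 = s.1
  le_refl s := ⟨le_rfl, H.val _ _ s.2.2⟩
  le_trans r s t h h' := ⟨h.1.trans h'.1, (res_of_eq h'.2 h.1).symm.trans h.2⟩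
  le_antisymm s t h h' := Subtype.ext (by
    rw [← h.2, le_antisymm h.1 h'.1]
    exact H.val _ _ t.2.2)

theorem sealing (hκ : ℵ₀ ≤ κ) (H : Spec (Order.succ κ).ord S C G Lv J)
    (hC : Coh (Order.succ κ).ord C S) (hG : Dia κ S G) {D : Set (Nd (Order.succ κ).ord Lv)}
    (hD : ∀ a, ∃ d ∈ D, (ord H).le a d) :
    ∃ δ < (Order.succ κ).ord, ∀ b : Nd (Order.succ κ).ord Lv, b.1.1 = δ →
      ∃ d ∈ D, (ord H).le d b := by
  have hl := isSuccLimit_ord (hκ.trans (Order.le_succ κ))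
  have h1 : ∀ β, ∃ γ, β < (Order.succ κ).ord → γ < (Order.succ κ).ord ∧ β < γ ∧
      ∀ s ∈ Lv β, ∃ d ∈ D, d.1.1 ≤ γ ∧ β < d.1.1 ∧ res d.1.2 β = s ∧ β ∈ d.1.2 := fun β => by
    by_cases hβ : β < (Order.succ κ).ord
    swap
    · exact ⟨0, fun h => absurd h hβ⟩
    have h2 : ∀ s : Lv β, ∃ d ∈ D, β < d.1.1 ∧ res d.1.2 β = s ∧ β ∈ d.1.2 := fun s => by
      have e : res (insert β s.1.2) β = s.1 := Eq.trans (res_eq_iff.2 fun z hz =>
        ⟨fun h => h.resolve_left hz.ne, Or.inr⟩) (H.val _ _ s.2)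
      obtain ⟨d, hd, h3, h4⟩ := hD ⟨res (insert β s.1.2) (β + 1), hl.add_one_lt hβ,
        (H.succ _ β).2 (e.symm ▸ s.2)⟩
      exact ⟨d, hd, Order.add_one_le_iff.1 h3, (res_mono h4 (lt_one_add β).le).trans e,
        (res_eq_iff.1 h4 β (lt_one_add β)).2 (mem_insert _ _)⟩
    choose d hd h3 using h2
    obtain ⟨b, hb, h4⟩ := bdd hκ (inv hκ H hC β hβ).card (f := fun s => (d s).1.1)
      fun s => (d s).2.1
    exact ⟨max b (β + 1), fun _ => ⟨max_lt hb (hl.add_one_lt hβ),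
      (lt_one_add β).trans_le (le_max_right _ _), fun s hs =>
        ⟨d ⟨s, hs⟩, hd _, (h4 _).trans (le_max_left _ _), h3 _⟩⟩⟩
  choose f hf using h1
  obtain ⟨δ, ⟨hδS, hδG⟩, h0, hδ, hcl⟩ := hG (Subtype.val '' D)
    (by
      rintro _ ⟨d, -, rfl⟩
      exact ⟨d.2.1, fun z hz => ((congrArg Prod.snd (H.val _ _ d.2.2)).superset hz).2⟩)
    (fun β hβ => le_trans (mk_le_mk_of_subset (by
      rintro _ ⟨⟨d, -, rfl⟩, h⟩
      exact ⟨h, d.2.2⟩)) (card_Tb (Lv := Lv) hκ hβ fun g hg => (inv hκ H hC g (hg.trans hβ)).card))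
    f fun β hβ => (hf β hβ).1
  have hlim : Order.IsSuccLimit δ := limit_of h0 fun z hz =>
    (Order.add_one_le_iff.2 (hf z (hz.trans hδ)).2.1).trans_lt (hcl z hz)
  refine ⟨δ, hδ, fun b hb => ?_⟩
  obtain ⟨A, e, s, hs, hA⟩ := (H.lim δ hδ hlim b.1).1 (hb ▸ b.2.2)
  obtain ⟨d, hd, h2, h3⟩ := (hf s.1 (hs.1.trans hδ)).2.2 s hs.2
  have h4 := h2.trans_lt (hcl _ hs.1)
  obtain ⟨⟨-, h5, h6⟩, -⟩ := ee_pos (D := DD S G Lv δ) (s := s)
    ⟨d.1, ⟨hδS, hδG.symm ▸ ⟨mem_image_of_mem _ hd, h4⟩, h4, d.2.2⟩, h3⟩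
  rw [hδG] at h5
  obtain ⟨⟨d', hd', e'⟩, h7⟩ := h5
  refine ⟨d', hd', ?_, ?_⟩
  · rw [e', hb]
    exact h7.le
  · rw [e', e, res_res A h7.le]
    exact hA.1

end Tree

open Tree in
theorem exists_good {κ : Cardinal.{0}} (hκ : ℵ₀ ≤ κ) {S : Set Ordinal.{0}}
    {C : Ordinal.{0} → Set Ordinal.{0}} (hC : Coh (Order.succ κ).ord C S)
    {G : Ordinal.{0} → Set Node} (hG : Dia κ S G) :
    ∃ (N : Type 1) (_ : PartialOrder N) (Y : Type) (cone : N → Set Y), Good cone := by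
  obtain ⟨Lv, J, H⟩ := exists_spec hC G
  have I := inv hκ H hC
  have hl := isSuccLimit_ord (hκ.trans (Order.le_succ κ))
  obtain ⟨Y, ⟨e⟩⟩ := (small_ray (Order.succ κ).ord Lv).equiv_small
  let _ := ord H
  have hres : ∀ (a : Nd (Order.succ κ).ord Lv) (z : Ordinal.{0}), z ≤ a.1.1 →
      res a.1.2 z ∈ Tb Lv (Order.succ κ).ord := fun a z hz =>
    ⟨hz.trans_lt a.2.1, (I _ a.2.1).down _ z hz ((H.val _ _ a.2.2).symm ▸ a.2.2)⟩
  have hray : ∀ (x : Ray (Order.succ κ).ord Lv) (z : Ordinal.{0}), z < x.1.1 →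
      res x.1.2 z ∈ Tb Lv (Order.succ κ).ord := fun x z hz => ⟨hz.trans x.2.1, x.2.2.1 z hz⟩
  have hseal : ∀ D : Set (Nd (Order.succ κ).ord Lv), IsUpperSet D → (∀ a, ∃ d ∈ D, a ≤ d) →
      ∃ δ < (Order.succ κ).ord, ∀ b : Nd (Order.succ κ).ord Lv, b.1.1 = δ → b ∈ D :=
    fun D hD hD' => by
      obtain ⟨δ, hδ, h⟩ := sealing hκ H hC hG hD'
      refine ⟨δ, hδ, fun b hb => ?_⟩
      obtain ⟨d, hd, h1⟩ := h b hb
      exact hD h1 hd
  refine ⟨Nd (Order.succ κ).ord Lv, inferInstance, Y,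
    fun a => {y | a.1.1 < (e.symm y).1.1 ∧ res (e.symm y).1.2 a.1.1 = a.1},
    fun a b h y hy => ⟨h.1.trans_lt hy.1, (res_of_eq hy.2 h.1).symm.trans h.2⟩,
    fun a b y ha hb => ?_, fun y y' hne => ?_, fun y => ?_, fun a => ?_, fun D hD hD' => ?_,
    fun D hD hD' => ?_⟩
  · exact (le_total a.1.1 b.1.1).imp (fun h => ⟨h, (res_of_eq hb.2 h).trans ha.2⟩)
      fun h => ⟨h, (res_of_eq ha.2 h).trans hb.2⟩
  · by_contra hn
    have h1 : ∀ z < (e.symm y).1.1, z < (e.symm y').1.1 ∧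
        res (e.symm y').1.2 z = res (e.symm y).1.2 z := fun z hz =>
      by_contra fun h => hn ⟨⟨_, hray _ z hz⟩, ⟨hz, rfl⟩, h⟩
    obtain ⟨h, ho, hA⟩ := (e.symm y).2.2.2
    obtain ⟨h', ho', hA'⟩ := (e.symm y').2.2.2
    have h2 : res (e.symm y').1.2 (e.symm y).1.1 = res (e.symm y).1.2 (e.symm y).1.1 :=
      res_eq_iff.2 fun z hz => res_eq_iff.1 (h1 _ (ho.2.1 z hz)).2 z (lt_one_add z)
    rcases (le_of_forall_lt fun z hz => (h1 z hz).1).eq_or_lt with h3 | h3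
    · refine hne (e.symm.injective (Subtype.ext (Prod.ext h3 (Set.ext fun z => ⟨fun hz =>
        (res_eq_iff.1 h2 z ((hA hz).trans ho.1)).2 hz, fun hz =>
        (res_eq_iff.1 h2 z (h3 ▸ (hA' hz).trans ho'.1)).1 hz⟩))))
    · exact (I _ (e.symm y).2.1).noray ho hA (h2 ▸ (e.symm y').2.2.1 _ h3)
  · obtain ⟨h, ho, -⟩ := (e.symm y).2.2.2
    have h0 : 0 < (e.symm y).1.1 := zero_le.trans_lt ho.1
    exact ⟨⟨_, hray _ 0 h0⟩, h0, rfl⟩
  · have ho := om_add a.1.1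
    have h1 : a.1.1 + Ordinal.omega0 < (Order.succ κ).ord :=
      Ordinal.isPrincipal_add_ord (hκ.trans (Order.le_succ κ)) a.2.1
        (omega0_lt_ord.2 (hκ.trans_lt (Order.lt_succ κ)))
    have h2 := H.val _ _ a.2.2
    have h3 : a.1.2 ⊆ Iio a.1.1 := fun z hz => ((congrArg Prod.snd h2).superset hz).2
    have h4 : res (insert a.1.1 a.1.2) a.1.1 = a.1 := Eq.trans (res_eq_iff.2 fun z hz =>
      ⟨fun h => h.resolve_left hz.ne, Or.inr⟩) h2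
    refine ⟨e ⟨(a.1.1 + Ordinal.omega0, a.1.2), h1, ray_mem H (I _ a.2.1) ho (h2.symm ▸ a.2.2),
      _, ho, h3⟩, ?_, e ⟨(a.1.1 + Ordinal.omega0, insert a.1.1 a.1.2), h1,
      ray_mem H (I _ a.2.1) ho (h4.symm ▸ a.2.2), _, ho.succ, insert_subset (lt_one_add _)
        fun z hz => (h3 hz).trans (lt_one_add _)⟩, ?_, fun h => ?_⟩
    · rw [mem_ofPred_eq, e.symm_apply_apply]
      exact ⟨ho.1, h2⟩
    · rw [mem_ofPred_eq, e.symm_apply_apply]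
      exact ⟨ho.1, h4⟩
    · have h5 : a.1.2 = insert a.1.1 a.1.2 := congrArg (fun x => x.1.2) (e.injective h)
      exact lt_irrefl a.1.1 (h3 (h5.superset (mem_insert _ _)))
  · obtain ⟨δ, hδ, h⟩ := hseal D hD hD'
    have hfin : ∀ (A : Set Ordinal.{0}) (x : Ordinal.{0}), x ≤ δ → res A x ∈ Lv x →
        {z | z ≤ x ∧ z ∈ {z | res A z ∈ J δ}}.Finite := fun A x hx hA =>
      finite_of_not_acc x fun y hy =>
        (I δ hδ).fin A y (hy.trans hx) ((I x (hx.trans_lt hδ)).down A y hy hA)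
    refine ⟨{a | a.1.1 ≤ δ}, fun a => {z | z ≤ a.1.1 ∧ z ∈ {z | res a.1.2 z ∈ J δ}}.ncard,
      fun a b hab ha => hab.1.trans ha, fun a _ b hb hab => ?_, fun a ha => ?_,
      fun y hy n => ?_⟩
    · refine ncard_le_ncard (fun z hz => ⟨hz.1.trans hab.1, ?_⟩)
        (hfin _ _ hb ((H.val _ _ b.2.2).symm ▸ b.2.2))
      rw [mem_ofPred_eq, ← res_of_eq hab.2 hz.1]
      exact hz.2
    · have h1 : δ ≤ a.1.1 := (not_le.1 ha).le
      exact ⟨⟨_, hres a δ h1⟩, ⟨le_rfl (a := δ), h _ rfl⟩, h1, rfl⟩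
    · obtain ⟨h', ho, hA⟩ := (e.symm y).2.2.2
      have h1 : ∀ z < (e.symm y).1.1, z ≤ δ := fun z hz => hy ⟨_, hray _ z hz⟩ ⟨hz, rfl⟩
      have h2 : (e.symm y).1.1 ≤ δ :=
        not_lt.1 fun h => absurd (h1 _ (ho.2.1 δ h)) (lt_one_add δ).not_ge
      obtain ⟨x, hx, h3⟩ := ncard_unbdd ((I δ hδ).ray _ h' _ ho h2 hA (e.symm y).2.2.1)
        (fun x hx => hfin _ x (h1 x hx) ((e.symm y).2.2.1 x hx)) (n + 1)
      refine ⟨⟨_, hray _ x hx⟩, ⟨hx, rfl⟩, lt_of_lt_of_eq h3 (congrArg ncard (Set.ext fun z =>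
        and_congr_right fun hz => ?_))⟩
      rw [mem_ofPred_eq, mem_ofPred_eq, res_res _ hz]
  · choose δ hδ h using fun n => hseal (D n) (hD n) (hD' n)
    obtain ⟨b, hb, h1⟩ := bdd hκ (ι := ULift.{1} ℕ) (by simpa using hκ) (f := fun n => δ n.down)
      fun n => hδ _
    obtain ⟨B, -, h2, -⟩ := (I b hb).up ∅ 0 zero_le (H.zero _)
    refine ⟨⟨res B b, hb, h2⟩, fun n => ?_⟩
    exact hD n (a := ⟨_, hres ⟨res B b, hb, h2⟩ (δ n) (h1 ⟨n⟩)⟩) ⟨h1 ⟨n⟩, rfl⟩ (h n _ rfl)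

end Pool.Agent.Lib.Sharp
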