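import Pool.Agent.Lib.Sharp.Iface

/-!
The recursive construction of the tree: definitions and unfolding rules.
-/

namespace Pool.Agent.Lib.Sharp

open Cardinal Set Tm Pool.Agent.Work.MP_667be6_lc

namespace Tree

theorem exists_fix {X : Type*} [Nonempty X] (step : Ordinal.{0} → (Ordinal.{0} → X) → X)
    (h : ∀ a P P', (∀ b < a, P b = P' b) → step a P = step a P') :
    ∃ F : Ordinal.{0} → X, ∀ a, F a = step a F := by
  classical
  refine ⟨WellFounded.fix wellFounded_lt fun a ih =>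
    step a fun b => if hb : b < a then ih b hb else Classical.arbitrary X, fun a => ?_⟩
  rw [WellFounded.fix_eq]
  exact h _ _ _ fun b hb => dif_pos hb

theorem lt_one_add (a : Ordinal.{0}) : a < a + 1 := Order.lt_add_one_iff.2 le_rfl

theorem limit_of {y : Ordinal.{0}} (h0 : 0 < y) (h : ∀ z < y, z + 1 < y) : Order.IsSuccLimit y :=
  Ordinal.isSuccLimit_iff.2 ⟨h0.ne', Order.isSuccPrelimit_of_succ_lt h⟩

theorem acc_limit {C : Set Ordinal.{0}} {y : Ordinal.{0}} (h : Acc' C y) : Order.IsSuccLimit y :=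
  limit_of h.1 fun z hz => by
    obtain ⟨g, -, h1, h2⟩ := h.2 z hz
    exact (Order.add_one_le_iff.2 h1).trans_lt h2

theorem acc_mono {Z Z' : Set Ordinal.{0}} {y w : Ordinal.{0}} (h : Acc' Z y) (hw : w < y)
    (hZ : ∀ z, w < z → z < y → z ∈ Z → z ∈ Z') : Acc' Z' y :=
  ⟨h.1, fun x hx => by
    obtain ⟨g, h0, h1, h2⟩ := h.2 (max x w) (max_lt hx hw)
    exact ⟨g, hZ g ((le_max_right _ _).trans_lt h1) h2 h0, (le_max_left _ _).trans_lt h1, h2⟩⟩

theorem not_acc {C : Set Ordinal.{0}} {y : Ordinal.{0}} (h0 : 0 < y) (h : ¬ Acc' C y) :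
    ∃ w < y, ∀ g ∈ C, g < y → g ≤ w := by
  by_contra hn
  refine h ⟨h0, fun w hw => ?_⟩
  by_contra h1
  exact hn ⟨w, hw, fun g hg hy => not_lt.1 fun hwg => h1 ⟨g, hg, hwg, hy⟩⟩

/-- the restriction of a sequence to a height -/
def res (A : Set Ordinal.{0}) (x : Ordinal.{0}) : Node := (x, A ∩ Iio x)

theorem res_eq_iff {A B : Set Ordinal.{0}} {x : Ordinal.{0}} :
    res A x = res B x ↔ ∀ z < x, (z ∈ A ↔ z ∈ B) := by
  refine ⟨fun h z hz => ?_, fun h => Prod.ext rfl (Set.ext fun z =>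
    ⟨fun h' => ⟨(h z h'.2).1 h'.1, h'.2⟩, fun h' => ⟨(h z h'.2).2 h'.1, h'.2⟩⟩)⟩
  have h1 : A ∩ Iio x = B ∩ Iio x := congrArg Prod.snd h
  exact ⟨fun h' => (h1.subset ⟨h', hz⟩).1, fun h' => (h1.superset ⟨h', hz⟩).1⟩

theorem res_mono {A B : Set Ordinal.{0}} {x y : Ordinal.{0}} (h : res A x = res B x)
    (hy : y ≤ x) : res A y = res B y :=
  res_eq_iff.2 fun z hz => res_eq_iff.1 h z (hz.trans_le hy)

theorem res_res (A : Set Ordinal.{0}) {x y : Ordinal.{0}} (hy : y ≤ x) :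
    res (res A x).2 y = res A y :=
  res_eq_iff.2 fun _ hz => ⟨fun h => h.1, fun h => ⟨h, hz.trans_le hy⟩⟩

theorem res_of_eq {A : Set Ordinal.{0}} {s : Node} (h : res A s.1 = s) {y : Ordinal.{0}}
    (hy : y ≤ s.1) : res s.2 y = res A y := by
  rw [← res_res A hy, h]

/-- the next element of `C` -/
noncomputable def nx (C : Set Ordinal.{0}) (x : Ordinal.{0}) : Ordinal.{0} :=
  sInf {g | g ∈ C ∧ x ≤ g}

/-- the previous element of `C`, but at least `x` -/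
noncomputable def pv (C : Set Ordinal.{0}) (x z : Ordinal.{0}) : Ordinal.{0} :=
  sSup (insert x {w | w ∈ C ∧ w < z})

theorem nx_le {C : Set Ordinal.{0}} {x g : Ordinal.{0}} (hg : g ∈ C) (hx : x ≤ g) : nx C x ≤ g :=
  csInf_le' (show g ∈ {g | g ∈ C ∧ x ≤ g} from ⟨hg, hx⟩)

theorem nx_spec {C : Set Ordinal.{0}} {x a : Ordinal.{0}} (h : Acc' C a) (hx : x < a) :
    nx C x ∈ C ∧ x ≤ nx C x ∧ nx C x < a := by
  obtain ⟨g, hg, h1, h2⟩ := h.2 x hx
  have h3 := csInf_mem (s := {g | g ∈ C ∧ x ≤ g}) ⟨g, hg, h1.le⟩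
  exact ⟨h3.1, h3.2, (nx_le hg h1.le).trans_lt h2⟩

theorem nx_self {C : Set Ordinal.{0}} {g : Ordinal.{0}} (hg : g ∈ C) : nx C g = g :=
  le_antisymm (nx_le hg le_rfl) (le_csInf ⟨g, hg, le_rfl⟩ fun _ h => h.2)

theorem nx_congr {C : Set Ordinal.{0}} {x y : Ordinal.{0}} (h : ∀ g ∈ C, (x ≤ g ↔ y ≤ g)) :
    nx C x = nx C y :=
  congrArg sInf (Set.ext fun g => and_congr_right (h g))

theorem nx_inter {C : Set Ordinal.{0}} {x a : Ordinal.{0}} (h : Acc' C a) (hx : x < a) :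
    nx (C ∩ Iio a) x = nx C x := by
  obtain ⟨h1, h2, h3⟩ := nx_spec h hx
  exact le_antisymm (nx_le ⟨h1, h3⟩ h2)
    (le_csInf ⟨_, ⟨h1, h3⟩, h2⟩ fun g hg => nx_le hg.1.1 hg.2)

theorem nx_lt (C : Set Ordinal.{0}) (x : Ordinal.{0}) {a : Ordinal.{0}} (ha : 0 < a) :
    nx (C ∩ Iio a) x < a := by
  rcases Set.eq_empty_or_nonempty {g | g ∈ C ∩ Iio a ∧ x ≤ g} with h | h
  · rw [nx, h, Ordinal.sInf_empty]
    exact ha
  · exact (csInf_mem h).1.2

theorem pv_le {C : Set Ordinal.{0}} {x z w : Ordinal.{0}} (hx : x ≤ w)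
    (h : ∀ g ∈ C, g < z → g ≤ w) : pv C x z ≤ w :=
  csSup_le (insert_nonempty _ _) fun g hg => hg.elim (fun e => e ▸ hx) fun e => h g e.1 e.2

theorem pv_bdd (C : Set Ordinal.{0}) (x z : Ordinal.{0}) :
    BddAbove (insert x {w | w ∈ C ∧ w < z}) :=
  BddAbove.insert _ ⟨z, fun _ h => h.2.le⟩

theorem le_pv (C : Set Ordinal.{0}) (x z : Ordinal.{0}) : x ≤ pv C x z :=
  le_csSup (pv_bdd C x z) (mem_insert _ _)

theorem le_pv' {C : Set Ordinal.{0}} (x : Ordinal.{0}) {z g : Ordinal.{0}} (hg : g ∈ C)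
    (hz : g < z) : g ≤ pv C x z :=
  le_csSup (pv_bdd C x z) (mem_insert_of_mem _ ⟨hg, hz⟩)

theorem pv_succ_le (C : Set Ordinal.{0}) {x z : Ordinal.{0}} (hx : x ≤ z) : pv C x (z + 1) ≤ z :=
  pv_le hx fun _ _ h => Order.lt_add_one_iff.1 h

/-- the part of the tree below height `a` -/
def Tb (Lv : Ordinal.{0} → Set Node) (a : Ordinal.{0}) : Set Node := {t | t.1 < a ∧ t ∈ Lv t.1}

/-- a chosen extension without jumps -/
noncomputable def ext (L J : Set Node) (g : Ordinal.{0}) (s : Node) : Set Ordinal.{0} :=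
  Classical.epsilon fun B => res B s.1 = s ∧ res B g ∈ L ∧ ∀ z, s.1 < z → z ≤ g → res B z ∉ J

/-- `B` is the canonical branch above `s` up to height `y` -/
def Rec (C : Set Ordinal.{0}) (Lv J : Ordinal.{0} → Set Node) (s : Node) (B : Set Ordinal.{0})
    (y : Ordinal.{0}) : Prop :=
  res B s.1 = s ∧ ∀ z < y, s.1 ≤ z → (z ∈ B ↔ z ∈ ext (Lv (nx C (z + 1))) (J (nx C (z + 1)))
    (nx C (z + 1)) (res B (pv C s.1 (z + 1))))

theorem exists_rec (C : Set Ordinal.{0}) (Lv J : Ordinal.{0} → Set Node) {s : Node}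
    (hs : res s.2 s.1 = s) (y : Ordinal.{0}) : ∃ B, Rec C Lv J s B y := by
  obtain ⟨F, hF⟩ := exists_fix (X := Prop) (fun z P => (z < s.1 ∧ z ∈ s.2) ∨ (s.1 ≤ z ∧
    z ∈ ext (Lv (nx C (z + 1))) (J (nx C (z + 1))) (nx C (z + 1))
      (res {w | P w} (pv C s.1 (z + 1))))) (fun z P P' h => by
        refine propext (or_congr_right (and_congr_right fun hz => ?_))
        rw [show res {w | P w} (pv C s.1 (z + 1)) = res {w | P' w} (pv C s.1 (z + 1)) from
          res_eq_iff.2 fun w hw => (h w (hw.trans_le (pv_succ_le C hz))).to_iff])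
  refine ⟨{w | F w}, Eq.trans (res_eq_iff.2 fun z hz => ?_) hs, fun z _ hz => ?_⟩
  · rw [mem_ofPred_eq, hF]
    exact ⟨fun h => h.elim (fun h => h.2) fun h => absurd hz h.1.not_gt, fun h => Or.inl ⟨hz, h⟩⟩
  · rw [mem_ofPred_eq, hF]
    exact ⟨fun h => h.elim (fun h => absurd h.1 hz.not_gt) fun h => h.2, fun h => Or.inr ⟨hz, h⟩⟩

theorem Rec.uniq {C : Set Ordinal.{0}} {Lv J : Ordinal.{0} → Set Node} {s : Node}
    {B B' : Set Ordinal.{0}} {y : Ordinal.{0}} (h : Rec C Lv J s B y) (h' : Rec C Lv J s B' y) :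
    res B y = res B' y := by
  refine res_eq_iff.2 fun z => ?_
  induction z using WellFoundedLT.induction with
  | ind z ih =>
    intro hz
    rcases lt_or_ge z s.1 with h1 | h1
    · exact res_eq_iff.1 (h.1.trans h'.1.symm) z h1
    · rw [h.2 z hz h1, h'.2 z hz h1,
        show res B (pv C s.1 (z + 1)) = res B' (pv C s.1 (z + 1)) from
          res_eq_iff.2 fun w hw => ih w (hw.trans_le (pv_succ_le C h1))
            ((hw.trans_le (pv_succ_le C h1)).trans hz)]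

open Classical in
/-- a chosen element of `D` above the one-child -/
noncomputable def ee (D : Set Node) (s : Node) : Node :=
  if h : ∃ t ∈ D, s.1 < t.1 ∧ res t.2 s.1 = s ∧ s.1 ∈ t.2 then h.choose else s

theorem ee_pos {D : Set Node} {s : Node} (h : ∃ t ∈ D, s.1 < t.1 ∧ res t.2 s.1 = s ∧ s.1 ∈ t.2) :
    ee D s ∈ D ∧ s.1 < (ee D s).1 ∧ res (ee D s).2 s.1 = s ∧ s.1 ∈ (ee D s).2 := by
  rw [ee, dif_pos h]
  exact h.choose_spec

theorem ee_spec (D : Set Node) (s : Node) : ee D s = s ∨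
    (ee D s ∈ D ∧ s.1 < (ee D s).1 ∧ res (ee D s).2 s.1 = s ∧ s.1 ∈ (ee D s).2) := by
  by_cases h : ∃ t ∈ D, s.1 < t.1 ∧ res t.2 s.1 = s ∧ s.1 ∈ t.2
  · exact Or.inr (ee_pos h)
  · exact Or.inl (dif_neg h)

/-- the node chosen at height `x` lies above the node at height `z` -/
def Cv (D : Set Node) (A : Set Ordinal.{0}) (x z : Ordinal.{0}) : Prop :=
  z ≤ (ee D (res A x)).1 ∧ res (ee D (res A x)).2 z = res A z

theorem Cv.mono {D : Set Node} {A : Set Ordinal.{0}} {x z w : Ordinal.{0}} (h : Cv D A x z)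
    (hw : w ≤ z) : Cv D A x w := ⟨hw.trans h.1, res_mono h.2 hw⟩

theorem cv_self (D : Set Node) (A : Set Ordinal.{0}) (x : Ordinal.{0}) : Cv D A x x := by
  rcases ee_spec D (res A x) with h | h
  · rw [Cv, h]
    exact ⟨le_rfl, res_res A le_rfl⟩
  · exact ⟨h.2.1.le, h.2.2.1⟩

theorem cv_congr {D : Set Node} {A B : Set Ordinal.{0}} {x z : Ordinal.{0}}
    (h : res A z = res B z) (hx : x ≤ z) : Cv D A x z ↔ Cv D B x z := by
  rw [Cv, Cv, h, res_mono h hx]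

theorem exists_fresh (D : Set Node) : ∃ Fr : Set Node, ∀ A z,
    (res A z ∈ Fr ↔ ¬ ∃ x < z, res A x ∈ Fr ∧ Cv D A x z) := by
  obtain ⟨F, hF⟩ := exists_fix (X := Set Ordinal.{0} → Prop)
    (fun z P A => ¬ ∃ x < z, P x (res A x).2 ∧ Cv D A x z) (fun z P P' h => funext fun A =>
      propext (not_congr (exists_congr fun x => and_congr_right fun hx => by rw [h x hx])))
  refine ⟨{s | F s.1 s.2}, fun A z => ?_⟩
  change F z (res A z).2 ↔ ¬ ∃ x < z, F x (res A x).2 ∧ Cv D A x z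
  rw [hF]
  refine not_congr (exists_congr fun x => and_congr_right fun hx => ?_)
  rw [res_res A hx.le, cv_congr (res_res A le_rfl) hx.le]

/-- the fresh nodes -/
noncomputable def fresh (D : Set Node) : Set Node := (exists_fresh D).choose

theorem mem_fresh {D : Set Node} {A : Set Ordinal.{0}} {z : Ordinal.{0}} :
    res A z ∈ fresh D ↔ ¬ ∃ x < z, res A x ∈ fresh D ∧ Cv D A x z :=
  (exists_fresh D).choose_spec A z

theorem exists_fresh_cv (D : Set Node) (A : Set Ordinal.{0}) (z : Ordinal.{0}) :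
    ∃ x ≤ z, res A x ∈ fresh D ∧ Cv D A x z := by
  by_cases h : res A z ∈ fresh D
  · exact ⟨z, le_rfl, h, cv_self D A z⟩
  · obtain ⟨x, hx, h1⟩ := not_not.1 (mt mem_fresh.2 h)
    exact ⟨x, hx.le, h1⟩

/-- the guessed set at height `a` -/
def DD (S : Set Ordinal.{0}) (G Lv : Ordinal.{0} → Set Node) (a : Ordinal.{0}) : Set Node :=
  {t | a ∈ S ∧ t ∈ G a ∧ t ∈ Tb Lv a}

theorem ee_of_notMem {S : Set Ordinal.{0}} {G Lv : Ordinal.{0} → Set Node} {a : Ordinal.{0}}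
    (h : a ∉ S) (s : Node) : ee (DD S G Lv a) s = s :=
  (ee_spec _ s).resolve_right fun h' => h h'.1.1

theorem ee_mem {S : Set Ordinal.{0}} {G Lv : Ordinal.{0} → Set Node} {a : Ordinal.{0}}
    {s : Node} (h : s ∈ Tb Lv a) : ee (DD S G Lv a) s ∈ Tb Lv a :=
  (ee_spec _ s).elim (fun e => e.symm ▸ h) fun e => e.1.2.2

/-- the unfolding rules of the construction -/
structure Spec (l : Ordinal.{0}) (S : Set Ordinal.{0}) (C : Ordinal.{0} → Set Ordinal.{0})
    (G Lv J : Ordinal.{0} → Set Node) : Prop where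
  val : ∀ a t, t ∈ Lv a → res t.2 a = t
  zero : ∀ A, res A 0 ∈ Lv 0
  succ : ∀ A b, res A (b + 1) ∈ Lv (b + 1) ↔ res A b ∈ Lv b
  succJ : ∀ t b, t ∈ J (b + 1) ↔ (t.1 ≤ b ∧ t ∈ J b) ∨ (t.1 = b + 1 ∧ b ∉ t.2)
  lim : ∀ a < l, Order.IsSuccLimit a → ∀ t, t ∈ Lv a ↔
    ∃ A, t = res A a ∧ ∃ s ∈ Tb Lv a, Rec (C a) Lv J (ee (DD S G Lv a) s) A a
  limJ : ∀ a < l, Order.IsSuccLimit a → ∀ t, t ∈ J a ↔
    t.1 < a ∧ t ∈ J (nx (C a) t.1) ∧ t ∈ fresh (DD S G Lv a)

theorem exists_spec {l : Ordinal.{0}} {S : Set Ordinal.{0}} {C : Ordinal.{0} → Set Ordinal.{0}}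
    (hC : Coh l C S) (G : Ordinal.{0} → Set Node) : ∃ Lv J, Spec l S C G Lv J := by
  obtain ⟨F, hF⟩ := exists_fix (X := Set Node × Set Node) (fun a P =>
    ({t | ∃ A, t = res A a ∧ (∀ b, a = b + 1 → res A b ∈ (P b).1) ∧ (Order.IsSuccLimit a →
      ∃ s ∈ Tb (fun b => (P b).1) a, Rec (C a ∩ Iio a) (fun b => (P b).1) (fun b => (P b).2)
        (ee (DD S G (fun b => (P b).1) a) s) A a)},
     {t | (∃ b, a = b + 1 ∧ ((t.1 ≤ b ∧ t ∈ (P b).2) ∨ (t.1 = a ∧ b ∉ t.2))) ∨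
      (Order.IsSuccLimit a ∧ t.1 < a ∧ t ∈ (P (nx (C a ∩ Iio a) t.1)).2 ∧
        t ∈ fresh (DD S G (fun b => (P b).1) a))})) (fun a P P' h => by
    have h1 : Tb (fun b => (P b).1) a = Tb (fun b => (P' b).1) a :=
      Set.ext fun t => and_congr_right fun ht => by simp only [h _ ht]
    have h2 : DD S G (fun b => (P b).1) a = DD S G (fun b => (P' b).1) a := by
      rw [DD, DD, h1]
    have h3 : ∀ b, a = b + 1 → P b = P' b := fun b hb => h b (hb ▸ lt_one_add b)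
    refine Prod.ext (Set.ext fun t => exists_congr fun A => and_congr_right fun _ => and_congr
      (forall_congr' fun b => forall_congr' fun hb => by rw [h3 b hb])
      (forall_congr' fun ha => ?_)) (Set.ext fun t => or_congr
      (exists_congr fun b => and_congr_right fun hb => by rw [h3 b hb])
      (and_congr_right fun ha => ?_))
    · simp only [h1, h2, Rec, fun x => h _ (nx_lt (C a) x ha.pos)]
    · rw [h2, h _ (nx_lt (C a) t.1 ha.pos)])
  refine ⟨fun b => (F b).1, fun b => (F b).2, fun a t ht => ?_, fun A => ?_, fun A b => ?_,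
    fun t b => ?_, fun a hl ha t => ?_, fun a hl ha t => ?_⟩
  · rw [hF] at ht
    obtain ⟨A, rfl, -⟩ := ht
    exact res_res A le_rfl
  · rw [hF]
    exact ⟨A, rfl, fun b hb => absurd (hb ▸ lt_one_add b : b < 0) not_lt_zero,
      fun h => absurd h.pos (lt_irrefl _)⟩
  · rw [hF (b + 1)]
    refine ⟨fun ⟨B, h1, h2, _⟩ => ?_, fun h => ⟨A, rfl, fun c hc => ?_,
      fun h => absurd h (Order.not_isSuccLimit_add_one b)⟩⟩
    · rw [res_mono h1 (lt_one_add b).le]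
      exact h2 b rfl
    · rwa [← Order.add_one_inj.1 hc]
  · rw [hF (b + 1)]
    refine ⟨fun h => h.elim (fun ⟨c, hc, h⟩ => ?_)
      fun h => absurd h.1 (Order.not_isSuccLimit_add_one b), fun h => Or.inl ⟨b, rfl, h⟩⟩
    rwa [← Order.add_one_inj.1 hc] at h
  · rw [hF a]
    simp only [inter_eq_left.2 (hC.sub a hl ha)]
    exact exists_congr fun A => and_congr_right fun _ => ⟨fun h => h.2 ha, fun h =>
      ⟨fun b hb => absurd (hb ▸ ha) (Order.not_isSuccLimit_add_one b), fun _ => h⟩⟩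
  · rw [hF a]
    simp only [inter_eq_left.2 (hC.sub a hl ha)]
    exact ⟨fun h => h.elim (fun ⟨b, hb, _⟩ => absurd (hb ▸ ha) (Order.not_isSuccLimit_add_one b))
      fun h => h.2, fun h => Or.inr ⟨ha, h⟩⟩

end Tree

end Pool.Agent.Lib.Sharp
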