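import Pool.Agent.Lib.Sharp.TreeA

/-!
The invariants of the construction of the tree.
-/

namespace Pool.Agent.Lib.Sharp

open Cardinal Set Tm Pool.Agent.Work.MP_667be6_lc

namespace Tree

/-- `y` is the first limit above `h` -/
def Om (h y : Ordinal.{0}) : Prop :=
  h < y ∧ (∀ z < y, z + 1 < y) ∧ ∀ z, h < z → z < y → ∃ w, z = w + 1

/-- the invariants at height `a` -/
structure Inv (κ : Cardinal.{0}) (Lv J : Ordinal.{0} → Set Node) (a : Ordinal.{0}) : Prop where
  down : ∀ A x, x ≤ a → res A a ∈ Lv a → res A x ∈ Lv x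
  fin : ∀ A x, x ≤ a → res A x ∈ Lv x → ¬ Acc' {z | res A z ∈ J a} x
  up : ∀ A x, x ≤ a → res A x ∈ Lv x →
    ∃ B, res B x = res A x ∧ res B a ∈ Lv a ∧ ∀ z, x < z → z ≤ a → res B z ∉ J a
  ray : ∀ A h y, Om h y → y ≤ a → A ⊆ Iio h → (∀ z < y, res A z ∈ Lv z) →
    Acc' {z | res A z ∈ J a} y
  card : #(Lv a) ≤ Cardinal.lift.{1} κ

variable {κ : Cardinal.{0}} {l : Ordinal.{0}} {S : Set Ordinal.{0}}
  {C : Ordinal.{0} → Set Ordinal.{0}} {G Lv J : Ordinal.{0} → Set Node} {a : Ordinal.{0}}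

theorem Inv.noray {y h : Ordinal.{0}} (H : Inv κ Lv J y) {A : Set Ordinal.{0}} (ho : Om h y)
    (hA : A ⊆ Iio h) : res A y ∉ Lv y := fun hy =>
  H.fin A y le_rfl hy (H.ray A h y ho le_rfl hA fun z hz => H.down A z hz.le hy)

theorem inv_zero (hκ : ℵ₀ ≤ κ) (H : Spec l S C G Lv J) : Inv κ Lv J 0 := by
  refine ⟨fun A x hx h => ?_, fun A x hx _ h => absurd h.1 hx.not_gt, fun A x hx h => ?_,
    fun A h y ho hy => absurd (ho.1.trans_le hy) not_lt_zero, ?_⟩
  · rwa [nonpos_iff_eq_zero.1 hx]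
  · exact ⟨A, rfl, H.zero A, fun z h1 h2 => absurd (h1.trans_le h2) not_lt_zero⟩
  · refine le_trans (mk_le_one_iff_set_subsingleton.2 fun s hs t ht => ?_)
      (one_le_aleph0.trans (aleph0_le_lift.2 hκ))
    rw [← H.val 0 s hs, ← H.val 0 t ht]
    exact res_eq_iff.2 fun z hz => absurd hz not_lt_zero

theorem inv_succ (hκ : ℵ₀ ≤ κ) (H : Spec l S C G Lv J) {b : Ordinal.{0}} (I : Inv κ Lv J b) :
    Inv κ Lv J (b + 1) := by
  have hJ : ∀ A z, z ≤ b → (res A z ∈ J (b + 1) ↔ res A z ∈ J b) := fun A z hz => by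
    rw [H.succJ]
    exact ⟨fun h => h.elim (fun h => h.2) fun h => absurd (hz.trans_lt (lt_one_add b)) h.1.not_lt,
      fun h => Or.inl ⟨hz, h⟩⟩
  refine ⟨fun A x hx h => ?_, fun A x hx h h' => ?_, fun A x hx h => ?_,
    fun A h y ho hy hA hz => ?_, ?_⟩
  · rcases hx.eq_or_lt with rfl | hx
    · exact h
    · exact I.down A x (Order.lt_add_one_iff.1 hx) ((H.succ A b).1 h)
  · rcases hx.eq_or_lt with rfl | hx
    · exact Order.not_isSuccLimit_add_one b (acc_limit h')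
    · have hx' := Order.lt_add_one_iff.1 hx
      exact I.fin A x hx' h (acc_mono h' h'.1 fun z _ hz => (hJ A z (hz.le.trans hx')).1)
  · rcases hx.eq_or_lt with rfl | hx
    · exact ⟨A, rfl, h, fun z h1 h2 => absurd h1 h2.not_gt⟩
    · have hx' := Order.lt_add_one_iff.1 hx
      obtain ⟨B, h1, h2, h3⟩ := I.up A x hx' h
      have e : res (insert b B) b = res B b := res_eq_iff.2 fun z hz =>
        ⟨fun h => h.resolve_left hz.ne, Or.inr⟩
      refine ⟨insert b B, (res_mono e hx').trans h1, (H.succ _ b).2 (e ▸ h2), fun z h4 h5 => ?_⟩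
      rcases h5.eq_or_lt with rfl | h5
      · rw [H.succJ]
        exact fun h => h.elim (fun h => absurd (lt_one_add b) h.1.not_gt)
          fun h => h.2 ⟨mem_insert _ _, lt_one_add b⟩
      · have h6 := Order.lt_add_one_iff.1 h5
        rw [hJ _ z h6, res_mono e h6]
        exact h3 z h4 h6
  · have hy' : y ≤ b := not_lt.1 fun hb => absurd (ho.2.1 b hb) hy.not_gt
    have h1 := I.ray A h y ho hy' hA hz
    exact acc_mono h1 h1.1 fun z _ hz => (hJ A z (hz.le.trans hy')).2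
  · have h1 : Lv (b + 1) ⊆ (fun s : Node => res s.2 (b + 1)) '' Lv b ∪
        (fun s : Node => res (insert b s.2) (b + 1)) '' Lv b := fun t ht => by
      have h2 := H.val _ t ht
      have h3 := (H.succ t.2 b).1 (h2.symm ▸ ht)
      by_cases hb : b ∈ t.2
      · refine Or.inr ⟨_, h3, Eq.trans (res_eq_iff.2 fun z hz => ?_) h2⟩
        rcases (Order.lt_add_one_iff.1 hz).eq_or_lt with rfl | hz
        · exact ⟨fun _ => hb, fun _ => mem_insert _ _⟩
        · exact ⟨fun h => (h.resolve_left hz.ne).1, fun h => Or.inr ⟨h, hz⟩⟩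
      · refine Or.inl ⟨_, h3, Eq.trans (res_eq_iff.2 fun z hz => ?_) h2⟩
        rcases (Order.lt_add_one_iff.1 hz).eq_or_lt with rfl | hz
        · exact ⟨fun h => h.1, fun h => absurd h hb⟩
        · exact ⟨fun h => h.1, fun h => ⟨h, hz⟩⟩
    exact (mk_le_mk_of_subset h1).trans ((mk_union_le _ _).trans
      (add_le_of_le (aleph0_le_lift.2 hκ) (mk_image_le.trans I.card) (mk_image_le.trans I.card)))

theorem card_Tb (hκ : ℵ₀ ≤ κ) (ha : a < (Order.succ κ).ord)
    (I : ∀ g < a, #(Lv g) ≤ Cardinal.lift.{1} κ) : #(Tb Lv a) ≤ Cardinal.lift.{1} κ := by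
  have h1 : Tb Lv a ⊆ ⋃ x : Iio a, Lv x := fun t ht => mem_iUnion.2 ⟨⟨t.1, ht.1⟩, ht.2⟩
  refine (mk_le_mk_of_subset h1).trans ((mk_iUnion_le _).trans ?_)
  refine mul_le_of_le (aleph0_le_lift.2 hκ) ?_ (ciSup_le' fun x => I x x.2)
  rw [mk_Iio_ordinal, lift_le]
  exact Order.lt_succ_iff.1 (lt_ord.1 ha)

section Limit

variable (H : Spec l S C G Lv J) (hC : Coh l C S) (hl : a < l) (ha : Order.IsSuccLimit a)
  (I : ∀ g < a, Inv κ Lv J g)

include H hC hl ha

theorem acc_J {x : Ordinal.{0}} (hx : x < a) (h : Acc' (C a) x) {A : Set Ordinal.{0}}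
    {z : Ordinal.{0}} (hz : z < x) (hJ : res A z ∈ J (nx (C a) z)) : res A z ∈ J x := by
  obtain ⟨h1, h2⟩ := hC.coh a hl ha x hx h
  refine (H.limJ x (hx.trans hl) (acc_limit h) _).2 ⟨hz, ?_, mem_fresh.2 ?_⟩
  · rw [h2]
    exact (nx_inter h hz).symm ▸ hJ
  · rintro ⟨w, hw, -, h3, -⟩
    rw [ee_of_notMem h1] at h3
    exact absurd hw h3.not_gt

include I

theorem canon {s : Node} (hs : s ∈ Tb Lv a) {B : Set Ordinal.{0}} (hB : Rec (C a) Lv J s B a)
    (z : Ordinal.{0}) : z < a → s.1 ≤ z →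
      res B z ∈ Lv z ∧ (s.1 < z → res B z ∉ J (nx (C a) z)) := by
  induction z using WellFoundedLT.induction with
  | ind z ih =>
    intro hz hsz
    rcases hsz.eq_or_lt with rfl | hsz
    · exact ⟨hB.1.symm ▸ hs.2, fun h => absurd h (lt_irrefl _)⟩
    by_cases hacc : Acc' (C a) z
    · obtain ⟨h1, h2⟩ := hC.coh a hl ha z hz hacc
      have hz' := acc_limit hacc
      refine ⟨(H.lim z (hz.trans hl) hz' _).2 ⟨B, rfl, s, ⟨hsz, hs.2⟩, ?_⟩, fun _ h => ?_⟩
      · rw [ee_of_notMem h1]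
        refine ⟨hB.1, fun w hw hsw => ?_⟩
        have e : pv (C z) s.1 (w + 1) = pv (C a) s.1 (w + 1) := by
          rw [pv, pv, h2]
          congr 2
          exact Set.ext fun g => ⟨fun h => ⟨h.1.1, h.2⟩,
            fun h => ⟨⟨h.1, (Order.lt_add_one_iff.1 h.2).trans_lt hw⟩, h.2⟩⟩
        rw [e, h2, nx_inter hacc (hz'.add_one_lt hw)]
        exact hB.2 w (hw.trans hz) hsw
      · rw [nx_self (hC.closed a hl ha z hz hacc)] at h
        exact lt_irrefl _ ((H.limJ z (hz.trans hl) hz' _).1 h).1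
    · obtain ⟨w, hw, hw'⟩ := not_acc (zero_le.trans_lt hsz) hacc
      have h0 : pv (C a) s.1 z < z :=
        (pv_le (le_max_left _ _) fun g hg hgz => (hw' g hg hgz).trans (le_max_right _ _)).trans_lt
          (max_lt hsz hw)
      obtain ⟨-, h1, h2⟩ := nx_spec (hC.unb a hl ha) hz
      have h3 := (ih _ h0 (h0.trans hz) (le_pv _ _ _)).1
      obtain ⟨e1, e2, e3⟩ := Classical.epsilon_spec ((I _ h2).up B _ (h0.le.trans h1) h3)
      have e : res B z = res (ext (Lv (nx (C a) z)) (J (nx (C a) z)) (nx (C a) z)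
          (res B (pv (C a) s.1 z))) z := by
        refine res_eq_iff.2 fun v hv => ?_
        rcases lt_or_ge v (pv (C a) s.1 z) with h4 | h4
        · exact (res_eq_iff.1 e1 v h4).symm
        · have h5 : ∀ g ∈ C a, (g < v + 1 ↔ g < z) := fun g hg =>
            ⟨fun h => (Order.lt_add_one_iff.1 h).trans_lt hv,
              fun h => Order.lt_add_one_iff.2 ((le_pv' _ hg h).trans h4)⟩
          have h6 : pv (C a) s.1 (v + 1) = pv (C a) s.1 z := by
            rw [pv, pv]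
            congr 2
            exact Set.ext fun g => and_congr_right (h5 g)
          have h7 : nx (C a) (v + 1) = nx (C a) z :=
            nx_congr fun g hg => by rw [← not_lt, h5 g hg, not_lt]
          rw [hB.2 v (hv.trans hz) ((le_pv _ _ _).trans h4), h6, h7]
      rw [e]
      exact ⟨(I _ h2).down _ z h1 e2, fun _ => e3 z h0 h1⟩

theorem ray_fresh {A : Set Ordinal.{0}} {h y : Ordinal.{0}} (ho : Om h y) (hA : A ⊆ Iio h)
    (hz : ∀ z < y, res A z ∈ Lv z) (hy : y ≤ a) :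
    ∃ w < y, ∀ z, w < z → z < y → res A z ∈ fresh (DD S G Lv a) := by
  have h1 : ∀ z, h < z → res A z ∉ fresh (DD S G Lv a) →
      ∃ x < h, res A x ∈ fresh (DD S G Lv a) ∧ Cv (DD S G Lv a) A x z := fun z _ hf => by
    obtain ⟨x, hx, h2, h3⟩ := not_not.1 (mt mem_fresh.2 hf)
    refine ⟨x, ?_, h2, h3⟩
    rcases ee_spec (DD S G Lv a) (res A x) with e | e
    · have h4 := h3.1
      rw [e] at h4
      exact absurd hx h4.not_gt
    · exact hA ((res_eq_iff.1 h3.2 x hx).1 e.2.2.2)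
  by_cases h2 : ∃ x < h, res A x ∈ fresh (DD S G Lv a) ∧ Cv (DD S G Lv a) A x h
  · obtain ⟨x, hx, h2, h3⟩ := h2
    have h4 : ∃ w < y, ¬ Cv (DD S G Lv a) A x w := by
      by_contra hn
      have hn' : ∀ w < y, Cv (DD S G Lv a) A x w := fun w hw => not_not.1 fun h => hn ⟨w, hw, h⟩
      have hu : ee (DD S G Lv a) (res A x) ∈ Tb Lv a :=
        ee_mem ⟨(hx.trans ho.1).trans_le hy, hz x (hx.trans ho.1)⟩
      have h5 : y ≤ (ee (DD S G Lv a) (res A x)).1 :=
        not_lt.1 fun h => absurd (hn' _ (ho.2.1 _ h)).1 (lt_one_add _).not_ge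
      have h6 := (I _ hu.1).down _ y h5 ((H.val _ _ hu.2).symm ▸ hu.2)
      rw [show res (ee (DD S G Lv a) (res A x)).2 y = res A y from res_eq_iff.2 fun v hv =>
        res_eq_iff.1 (hn' _ (ho.2.1 v hv)).2 v (lt_one_add v)] at h6
      exact (I y (h5.trans_lt hu.1)).noray ho hA h6
    obtain ⟨w, hw, h4⟩ := h4
    refine ⟨max w h, max_lt hw ho.1, fun z h5 _ => by_contra fun hf => ?_⟩
    obtain ⟨x', hx', h6, h7⟩ := h1 z ((le_max_right _ _).trans_lt h5) hf
    rcases lt_trichotomy x x' with e | rfl | e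
    · exact mem_fresh.1 h6 ⟨x, e, h2, h3.mono hx'.le⟩
    · exact h4 (h7.mono ((le_max_left _ _).trans h5.le))
    · exact mem_fresh.1 h2 ⟨x', e, h6, h7.mono (hx.le.trans ((le_max_right _ _).trans h5.le))⟩
  · refine ⟨h, ho.1, fun z h5 _ => by_contra fun hf => ?_⟩
    obtain ⟨x', hx', h6, h7⟩ := h1 z h5 hf
    exact h2 ⟨x', hx', h6, h7.mono h5.le⟩

theorem inv_limit (hc : #(Tb Lv a) ≤ Cardinal.lift.{1} κ) : Inv κ Lv J a := by
  have hU := hC.unb a hl ha
  refine ⟨fun A x hx h => ?_, fun A x hx h h' => ?_, fun A x hx h => ?_,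
    fun A h y ho hy hA hz => ?_, ?_⟩
  · rcases hx.eq_or_lt with rfl | hx
    · exact h
    obtain ⟨B, e, s, hs, hB⟩ := (H.lim a hl ha _).1 h
    have hu := ee_mem (S := S) (G := G) hs
    rw [res_mono e hx.le]
    rcases le_total x (ee (DD S G Lv a) s).1 with h1 | h1
    · exact (I _ hu.1).down B x h1 (hB.1.symm ▸ hu.2)
    · exact (canon H hC hl ha I hu hB x hx h1).1
  · rcases hx.eq_or_lt with rfl | hx
    · obtain ⟨B, e, s, hs, hB⟩ := (H.lim x hl ha _).1 h
      have hu := ee_mem (S := S) (G := G) hs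
      obtain ⟨z, h1, h2, h3⟩ := h'.2 _ hu.1
      refine (canon H hC hl ha I hu hB z h3 h2.le).2 h2 ?_
      rw [← res_mono e h3.le]
      exact ((H.limJ x hl ha _).1 h1).2.1
    by_cases hacc : Acc' (C a) x
    · exact (I x hx).fin A x le_rfl h (acc_mono h' h'.1 fun z _ hz h1 =>
        acc_J H hC hl ha hx hacc hz ((H.limJ a hl ha _).1 h1).2.1)
    · obtain ⟨w, hw, hw'⟩ := not_acc h'.1 hacc
      obtain ⟨-, h1, h2⟩ := nx_spec hU hx
      refine (I _ h2).fin A x h1 h (acc_mono h' hw fun z h3 h4 h5 => ?_)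
      have e : nx (C a) z = nx (C a) x := nx_congr fun g hg =>
        ⟨fun h => not_lt.1 fun h6 => absurd (h3.trans_le h) (hw' g hg h6).not_gt, h4.le.trans⟩
      rw [← e]
      exact ((H.limJ a hl ha _).1 h5).2.1
  · rcases hx.eq_or_lt with rfl | hx
    · exact ⟨A, rfl, h, fun z h1 h2 => absurd h1 h2.not_gt⟩
    obtain ⟨x₀, h1, h2, h3⟩ := exists_fresh_cv (DD S G Lv a) A x
    have hs : res A x₀ ∈ Tb Lv a := ⟨h1.trans_lt hx, (I x hx).down A x₀ h1 h⟩
    have hu := ee_mem (S := S) (G := G) hs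
    obtain ⟨B, hB⟩ := exists_rec (C a) Lv J (H.val _ _ hu.2) a
    have e : res B x = res A x := (res_of_eq hB.1 h3.1).symm.trans h3.2
    refine ⟨B, e, (H.lim a hl ha _).2 ⟨B, rfl, _, hs, hB⟩, fun z h4 h5 h6 => ?_⟩
    obtain ⟨h7, h8, h9⟩ := (H.limJ a hl ha _).1 h6
    rcases le_or_gt z (ee (DD S G Lv a) (res A x₀)).1 with h10 | h10
    · refine mem_fresh.1 h9 ⟨x₀, h1.trans_lt h4, (res_mono e h1).symm ▸ h2, ?_⟩
      rw [Cv, res_mono e h1]
      exact ⟨h10, res_of_eq hB.1 h10⟩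
    · exact (canon H hC hl ha I hu hB z h7 h10.le).2 h10 h8
  · obtain ⟨w, hw, hw'⟩ := ray_fresh H hC hl ha I ho hA hz hy
    refine ⟨zero_le.trans_lt hw, fun x hx => ?_⟩
    have h1 : max x (max w h) < y := max_lt hx (max_lt hw ho.1)
    suffices ∃ z, max x (max w h) < z ∧ z < y ∧ res A z ∈ J (nx (C a) z) by
      obtain ⟨z, h2, h3, h4⟩ := this
      exact ⟨z, (H.limJ a hl ha _).2 ⟨h3.trans_le hy, h4, hw' z
        (((le_max_left _ _).trans (le_max_right _ _)).trans_lt h2) h3⟩,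
        (le_max_left _ _).trans_lt h2, h3⟩
    by_cases h2 : ∃ g ∈ C a, max x (max w h) < g ∧ g < y
    · obtain ⟨g, hg, h2, h3⟩ := h2
      have h4 : h < g := ((le_max_right _ _).trans (le_max_right _ _)).trans_lt h2
      refine ⟨g, h2, h3, ?_⟩
      rw [nx_self hg]
      obtain ⟨b, rfl⟩ := ho.2.2 g h4 h3
      exact (H.succJ _ b).2 (Or.inr ⟨rfl, fun h5 =>
        absurd (hA h5.1) (Order.lt_add_one_iff.1 h4).not_gt⟩)
    · have h3 : y < a := hy.lt_of_ne fun e => h2 (e ▸ hU.2 _ (e ▸ h1))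
      obtain ⟨-, h4, h5⟩ := nx_spec hU h3
      obtain ⟨z, h6, h7, h8⟩ := ((I _ h5).ray A h y ho h4 hA hz).2 _ h1
      refine ⟨z, h7, h8, ?_⟩
      rw [show nx (C a) z = nx (C a) y from nx_congr fun g hg =>
        ⟨fun h => not_lt.1 fun h9 => h2 ⟨g, hg, h7.trans_le h, h9⟩, h8.le.trans⟩]
      exact h6
  · choose B e s hs hB using fun t : Lv a => (H.lim a hl ha t.1).1 t.2
    refine le_trans (mk_le_of_injective (f := fun t => (⟨s t, hs t⟩ : Tb Lv a))
      fun t t' htt => Subtype.ext ?_) hc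
    have h1 : s t = s t' := congrArg Subtype.val htt
    rw [e t, e t']
    exact (hB t).uniq (h1 ▸ hB t')

end Limit

theorem inv (hκ : ℵ₀ ≤ κ) (H : Spec (Order.succ κ).ord S C G Lv J)
    (hC : Coh (Order.succ κ).ord C S) (a : Ordinal.{0}) :
    a < (Order.succ κ).ord → Inv κ Lv J a := by
  induction a using WellFoundedLT.induction with
  | ind a ih =>
    intro hl
    rcases Ordinal.zero_or_succ_or_isSuccLimit a with rfl | ⟨b, rfl⟩ | ha
    · exact inv_zero hκ H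
    · exact inv_succ hκ H (ih b (Order.lt_succ b) ((Order.lt_succ b).trans hl))
    · exact inv_limit H hC hl ha (fun g hg => ih g hg (hg.trans hl))
        (card_Tb hκ hl fun g hg => (ih g hg (hg.trans hl)).card)

end Tree

end Pool.Agent.Lib.Sharp
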